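import Mathlib

set_option autoImplicit false

namespace Pool.Agent.H23.Cubic

open Equiv Finset

variable {V : Type*} [Fintype V] [DecidableEq V] (G : SimpleGraph V) [DecidableRel G.Adj]

set_option linter.unusedSectionVars false
set_option linter.unusedVariables false

lemma pinv1 {α : Type*} (σ : Perm α) (x : α) : σ (σ⁻¹ x) = x := σ.apply_symm_apply x

lemma pinv2 {α : Type*} (σ : Perm α) (x : α) : σ⁻¹ (σ x) = x := σ.symm_apply_apply x

/-- number of edges leaving `X` -/
def out (X : Finset V) : ℕ := ∑ x ∈ X, (G.neighborFinset x \ X).card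

/-- cubic and 3-edge-connected -/
structure Cub : Prop where
  deg : ∀ v, (G.neighborFinset v).card = 3
  e3 : ∀ X : Finset V, X.Nonempty → X ≠ univ → 3 ≤ out G X

/-- automorphisms fixing every vertex outside `D` -/
def Gam (D : Finset V) : Subgroup (Perm V) where
  carrier := {σ | (∀ x y, G.Adj (σ x) (σ y) ↔ G.Adj x y) ∧ ∀ x, x ∉ D → σ x = x}
  mul_mem' := by
    rintro a b ⟨ha1, ha2⟩ ⟨hb1, hb2⟩
    refine ⟨fun x y => ?_, fun x hx => ?_⟩
    · rw [Perm.mul_apply, Perm.mul_apply, ha1, hb1]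
    · rw [Perm.mul_apply, hb2 x hx, ha2 x hx]
  one_mem' := ⟨fun x y => Iff.rfl, fun x _ => rfl⟩
  inv_mem' := by
    rintro a ⟨ha1, ha2⟩
    refine ⟨fun x y => ?_, fun x hx => ?_⟩
    · rw [← ha1, pinv1, pinv1]
    · rw [Perm.inv_eq_iff_eq, ha2 x hx]

variable {G}

lemma mem_Gam {D : Finset V} {σ : Perm V} :
    σ ∈ Gam G D ↔ (∀ x y, G.Adj (σ x) (σ y) ↔ G.Adj x y) ∧ ∀ x, x ∉ D → σ x = x := Iff.rfl

lemma Gam_mono {D E : Finset V} (h : D ⊆ E) : Gam G D ≤ Gam G E :=
  fun _ hσ => ⟨hσ.1, fun x hx => hσ.2 x (fun h' => hx (h h'))⟩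

lemma Gam_adj {D : Finset V} {σ : Perm V} (h : σ ∈ Gam G D) {x y : V} :
    G.Adj (σ x) (σ y) ↔ G.Adj x y := h.1 x y

lemma Gam_fix {D : Finset V} {σ : Perm V} (h : σ ∈ Gam G D) {x : V} (hx : x ∉ D) : σ x = x :=
  h.2 x hx

lemma Gam_mem_iff {D : Finset V} {σ : Perm V} (h : σ ∈ Gam G D) (x : V) : σ x ∈ D ↔ x ∈ D := by
  constructor
  · intro h1
    by_contra h2
    rw [Gam_fix h h2] at h1
    exact h2 h1
  · intro h1
    by_contra h2
    have h3 := Gam_fix (inv_mem h) h2
    rw [pinv2] at h3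
    rw [← h3] at h2
    exact h2 h1

/-- adjacency transfer when one endpoint is fixed -/
lemma Gam_adj_fix {D : Finset V} {σ : Perm V} (h : σ ∈ Gam G D) {x u : V} (hu : u ∉ D) :
    G.Adj (σ x) u ↔ G.Adj x u := by
  conv_lhs => rw [← Gam_fix h hu]
  exact Gam_adj h

lemma nb_map {D : Finset V} {σ : Perm V} (h : σ ∈ Gam G D) (x : V) :
    G.neighborFinset (σ x) = (G.neighborFinset x).image σ := by
  ext y
  simp only [SimpleGraph.mem_neighborFinset, mem_image]
  constructor
  · intro hy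
    refine ⟨σ⁻¹ y, ?_, pinv1 _ _⟩
    rw [← Gam_adj h, pinv1]
    exact hy
  · rintro ⟨z, hz, rfl⟩
    exact (Gam_adj h).2 hz

/-- a nonempty set closed under adjacency is everything -/
lemma closure_univ (hG : Cub G) {X : Finset V} (hX : X.Nonempty)
    (h : ∀ x ∈ X, ∀ y, G.Adj x y → y ∈ X) : X = univ := by
  by_contra hne
  have h1 := hG.e3 X hX hne
  have h2 : out G X = 0 := by
    unfold out
    apply Finset.sum_eq_zero
    intro x hx
    rw [Finset.card_eq_zero, Finset.sdiff_eq_empty_iff_subset]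
    intro y hy
    exact h x hx y (by simpa using hy)
  omega

/-- If an automorphism fixes `u` and a neighbour of `u` and another one, it fixes the third. -/
lemma third_fixed (hG : Cub G) {D : Finset V} {σ : Perm V} (h : σ ∈ Gam G D) {u a b c : V}
    (hu : σ u = u) (ha : σ a = a) (hb : σ b = b) (hab : a ≠ b)
    (h1 : G.Adj u a) (h2 : G.Adj u b) (h3 : G.Adj u c) : σ c = c := by
  by_cases hca : c = a
  · rw [hca, ha]
  by_cases hcb : c = b
  · rw [hcb, hb]
  have hset : G.neighborFinset u = {a, b, c} := by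
    symm
    apply Finset.eq_of_subset_of_card_le
    · intro z hz
      simp only [mem_insert, mem_singleton] at hz
      rcases hz with rfl | rfl | rfl <;> simpa
    · rw [hG.deg, Finset.card_eq_three.mpr ⟨a, b, c, hab, Ne.symm hca, Ne.symm hcb, rfl⟩]
  have hc : σ c ∈ G.neighborFinset u := by
    rw [SimpleGraph.mem_neighborFinset]
    have := (Gam_adj h (x := u) (y := c)).2 h3
    rwa [hu] at this
  rw [hset] at hc
  simp only [mem_insert, mem_singleton] at hc
  rcases hc with hc | hc | hc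
  · exact absurd (σ.injective (hc.trans ha.symm)) hca
  · exact absurd (σ.injective (hc.trans hb.symm)) hcb
  · exact hc

/-- the three neighbours of a vertex -/
lemma nb_eq_of {u a b c : V} (hG : Cub G) (hab : a ≠ b) (hac : a ≠ c) (hbc : b ≠ c)
    (h1 : G.Adj u a) (h2 : G.Adj u b) (h3 : G.Adj u c) : G.neighborFinset u = {a, b, c} := by
  symm
  apply Finset.eq_of_subset_of_card_le
  · intro z hz
    simp only [mem_insert, mem_singleton] at hz
    rcases hz with rfl | rfl | rfl <;> simpa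
  · rw [hG.deg, Finset.card_eq_three.mpr ⟨a, b, c, hab, hac, hbc, rfl⟩]

/-- an automorphism of odd order fixing two adjacent vertices fixes all neighbours -/
lemma odd_fix_nb (hG : Cub G) {D : Finset V} {σ : Perm V} (h : σ ∈ Gam G D) {m : ℕ}
    (hm : Odd m) (hσ : σ ^ m = 1) {u a c : V} (hu : σ u = u) (ha : σ a = a)
    (h1 : G.Adj u a) (h3 : G.Adj u c) : σ c = c := by
  by_contra hc
  have hca : c ≠ a := fun h' => hc (by rw [h', ha])
  have hadj : ∀ z, G.Adj u z → G.Adj u (σ z) := by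
    intro z hz
    have := (Gam_adj h (x := u) (y := z)).2 hz
    rwa [hu] at this
  have hσc : σ c ≠ a := fun h' => hca (σ.injective (h'.trans ha.symm))
  have hset := nb_eq_of (u := u) hG (Ne.symm hca) (Ne.symm hσc) (Ne.symm hc) h1 h3 (hadj c h3)
  have h4 : σ (σ c) ∈ G.neighborFinset u := by
    rw [SimpleGraph.mem_neighborFinset]
    exact hadj _ (hadj _ h3)
  rw [hset] at h4
  simp only [mem_insert, mem_singleton] at h4
  have h5 : σ (σ c) = c := by
    rcases h4 with h4 | h4 | h4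
    · exact absurd (σ.injective (h4.trans ha.symm)) hσc
    · exact h4
    · exact absurd (σ.injective h4) hc
  have p2 : Function.IsPeriodicPt σ 2 c := h5
  have pm : Function.IsPeriodicPt σ m c := by
    show (σ : V → V)^[m] c = c
    rw [← Perm.coe_pow, hσ]
    rfl
  have := p2.gcd pm
  have hg : Nat.gcd 2 m = 1 := (Nat.coprime_two_left).2 hm
  rw [hg] at this
  exact hc this

/-- `V \ D` contains an edge -/
def Adm (G : SimpleGraph V) (D : Finset V) : Prop := ∃ v w, v ∉ D ∧ w ∉ D ∧ G.Adj v w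

/-- every element of `D` is moved by `Gam D` -/
def Closed (G : SimpleGraph V) (D : Finset V) : Prop := ∀ x ∈ D, ∃ g ∈ Gam G D, g x ≠ x

lemma odd_eq_one (hG : Cub G) {D : Finset V} (hD : Adm G D) {σ : Perm V} (h : σ ∈ Gam G D)
    {m : ℕ} (hm : Odd m) (hσ : σ ^ m = 1) : σ = 1 := by
  obtain ⟨v, w, hv, hw, hvw⟩ := hD
  have key : (univ.filter (fun u => σ u = u ∧ ∀ z, G.Adj u z → σ z = z)) = univ := by
    apply closure_univ hG
    · refine ⟨v, ?_⟩
      simp only [mem_filter, mem_univ, true_and]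
      exact ⟨Gam_fix h hv, fun z hz =>
        odd_fix_nb hG h hm hσ (Gam_fix h hv) (Gam_fix h hw) hvw hz⟩
    · intro x hx y hxy
      simp only [mem_filter, mem_univ, true_and] at hx ⊢
      exact ⟨hx.2 y hxy, fun z hz => odd_fix_nb hG h hm hσ (hx.2 y hxy) hx.1 hxy.symm hz⟩
  ext u
  have hu : u ∈ univ.filter (fun u => σ u = u ∧ ∀ z, G.Adj u z → σ z = z) := by
    rw [key]; exact mem_univ u
  simp only [mem_filter, mem_univ, true_and] at hu
  simpa using hu.1

lemma pgroup (hG : Cub G) {D : Finset V} (hD : Adm G D) : IsPGroup 2 (Gam G D) := by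
  rintro ⟨g, hg⟩
  obtain ⟨k, m, hm, hk⟩ := Nat.exists_eq_two_pow_mul_odd (orderOf_pos g).ne'
  refine ⟨k, ?_⟩
  rw [← Subtype.coe_inj]
  simp only [SubgroupClass.coe_pow, OneMemClass.coe_one]
  apply odd_eq_one hG hD (pow_mem hg _) hm
  rw [← pow_mul, ← hk, pow_orderOf_eq_one]

end Pool.Agent.H23.Cubic
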