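import Mathlib
import Pool.Agent.H23.Cubic.Basic

set_option autoImplicit false

namespace Pool.Agent.H23.Cubic

open Equiv Finset

set_option linter.unusedSectionVars false
set_option linter.unusedVariables false

variable {V : Type*} [Fintype V] [DecidableEq V] {G : SimpleGraph V} [DecidableRel G.Adj]

/-- a vertex outside a closed set has at most two neighbours in it -/
lemma no_three (hG : Cub G) {D : Finset V} (hD : Adm G D) (hc : Closed G D) {u a b c : V}
    (hu : u ∉ D) (ha : a ∈ D) (hb : b ∈ D) (hcD : c ∈ D) (hab : a ≠ b) (hac : a ≠ c) (hbc : b ≠ c)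
    (h1 : G.Adj u a) (h2 : G.Adj u b) (h3 : G.Adj u c) : False := by
  have hN := nb_eq_of hG hab hac hbc h1 h2 h3
  -- every element of `Gam G D` permutes `{a,b,c}`
  have hmap : ∀ g ∈ Gam G D, ∀ z, G.Adj u z → G.Adj u (g z) := by
    intro g hg z hz
    have := (Gam_adj hg (x := u) (y := z)).2 hz
    rwa [Gam_fix hg hu] at this
  have hmem : ∀ z, G.Adj u z → z = a ∨ z = b ∨ z = c := by
    intro z hz
    have : z ∈ G.neighborFinset u := by simpa using hz
    rw [hN] at this
    simpa using this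
  -- orbit of `a`
  have hp := pgroup hG hD
  obtain ⟨k, hk⟩ := hp.card_orbit a
  have horb : ∀ z, z ∈ MulAction.orbit (Gam G D) a ↔ ∃ g ∈ Gam G D, g a = z := by
    intro z
    rw [MulAction.mem_orbit_iff]
    constructor
    · rintro ⟨⟨g, hg⟩, h⟩
      exact ⟨g, hg, h⟩
    · rintro ⟨g, hg, h⟩
      exact ⟨⟨g, hg⟩, h⟩
  -- transitivity
  have key : ∀ z, G.Adj u z → ∀ w, G.Adj u w → z ≠ w → z ≠ a → w ≠ a →
      (∃ g ∈ Gam G D, g a = z) → ∃ g ∈ Gam G D, g a = w := by
    intro z hz w hw hzw hza hwa hg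
    obtain ⟨g, hg, hgz⟩ := hg
    have hwD : w ∈ D := by rcases hmem w hw with rfl | rfl | rfl <;> assumption
    obtain ⟨g', hg', hne⟩ := hc w hwD
    have h4 := hmem _ (hmap g' hg' w hw)
    have hza' : g' w = a ∨ g' w = z := by
      have h5 := hmem z hz
      have h6 := hmem w hw
      rcases h5 with rfl | rfl | rfl
      · exact absurd rfl hza
      · rcases h6 with rfl | rfl | rfl
        · exact absurd rfl hwa
        · exact absurd rfl hzw
        · tauto
      · rcases h6 with rfl | rfl | rfl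
        · exact absurd rfl hwa
        · tauto
        · exact absurd rfl hzw
    rcases hza' with h | h
    · exact ⟨g'⁻¹, inv_mem hg', by rw [← h, pinv2]⟩
    · refine ⟨g'⁻¹ * g, mul_mem (inv_mem hg') hg, ?_⟩
      rw [Perm.mul_apply, hgz, ← h, pinv2]
  obtain ⟨g0, hg0, hg0a⟩ := hc a ha
  have hall : (∃ g ∈ Gam G D, g a = b) ∧ ∃ g ∈ Gam G D, g a = c := by
    rcases hmem _ (hmap g0 hg0 a h1) with h | h | h
    · exact absurd h hg0a
    · exact ⟨⟨g0, hg0, h⟩, key b h2 c h3 hbc hab.symm hac.symm ⟨g0, hg0, h⟩⟩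
    · exact ⟨key c h3 b h2 hbc.symm hac.symm hab.symm ⟨g0, hg0, h⟩, ⟨g0, hg0, h⟩⟩
  have hset : MulAction.orbit (Gam G D) a = (({a, b, c} : Finset V) : Set V) := by
    ext z
    rw [horb]
    simp only [coe_insert, coe_singleton, Set.mem_insert_iff, Set.mem_singleton_iff]
    constructor
    · rintro ⟨g, hg, rfl⟩
      exact hmem _ (hmap g hg a h1)
    · rintro (rfl | rfl | rfl)
      · exact ⟨1, one_mem _, rfl⟩
      · exact hall.1
      · exact hall.2
  rw [hset] at hk
  have h3' : Nat.card (({a, b, c} : Finset V) : Set V) = 3 := by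
    rw [Nat.card_coe_set_eq, Set.ncard_coe_finset, Finset.card_eq_three.mpr ⟨a, b, c, hab, hac, hbc, rfl⟩]
  rw [h3'] at hk
  rcases k with _ | k
  · norm_num at hk
  · rw [pow_succ] at hk
    omega

lemma adj_map {D : Finset V} {g : Perm V} (hg : g ∈ Gam G D) {u z : V} (hu : u ∉ D)
    (hz : G.Adj u z) : G.Adj u (g z) := by
  have := (Gam_adj hg (x := u) (y := z)).2 hz
  rwa [Gam_fix hg hu] at this

lemma mem_map {D : Finset V} {g : Perm V} (hg : g ∈ Gam G D) {z : V} (hz : z ∈ D) : g z ∈ D :=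
  (Gam_mem_iff hg z).2 hz

/-- if `g` moves `z` and `z, y` are the two `D`-neighbours of `u`, then `g z = y` -/
lemma pair_map (hG : Cub G) {D : Finset V} (hD : Adm G D) (hc : Closed G D) {u z y : V}
    (hu : u ∉ D) (hz : z ∈ D) (hy : y ∈ D) (hzy : z ≠ y) (h1 : G.Adj u z) (h2 : G.Adj u y)
    {g : Perm V} (hg : g ∈ Gam G D) : g z = z ∨ g z = y := by
  by_contra h
  push Not at h
  exact no_three hG hD hc hu hz hy (mem_map hg hz) hzy (Ne.symm h.1) (Ne.symm h.2) h1 h2
    (adj_map hg hu h1)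

/-- existence of the sibling -/
lemma sibling (hG : Cub G) {D : Finset V} (hD : Adm G D) (hc : Closed G D) {u z : V}
    (hu : u ∉ D) (hz : z ∈ D) (h1 : G.Adj u z) :
    ∃ y ∈ D, y ≠ z ∧ G.Adj u y ∧ ∃ g ∈ Gam G D, g z = y := by
  obtain ⟨g, hg, hgz⟩ := hc z hz
  exact ⟨g z, mem_map hg hz, hgz, adj_map hg hu h1, g, hg, rfl⟩

/-- `L` is a block of `D` -/
structure Block (G : SimpleGraph V) (D L : Finset V) : Prop where
  sub : L ⊆ D
  inv : ∀ g ∈ Gam G D, ∀ x ∈ L, g x ∈ L
  edge : ∀ x ∈ L, ∀ y ∈ D, G.Adj x y → y ∈ L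

lemma Block.self (D : Finset V) : Block G D D :=
  ⟨subset_rfl, fun g hg x hx => mem_map hg hx, fun x hx y hy _ => hy⟩

lemma Block.mem_iff {D L : Finset V} (h : Block G D L) {g : Perm V} (hg : g ∈ Gam G D) (x : V) :
    g x ∈ L ↔ x ∈ L := by
  constructor
  · intro h1
    have := h.inv _ (inv_mem hg) _ h1
    rwa [pinv2] at this
  · exact h.inv g hg x

lemma Block.compl {D L : Finset V} (h : Block G D L) : Block G D (D \ L) := by
  refine ⟨sdiff_subset, ?_, ?_⟩
  · intro g hg x hx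
    rw [mem_sdiff] at hx ⊢
    exact ⟨mem_map hg hx.1, fun h1 => hx.2 ((h.mem_iff hg x).1 h1)⟩
  · intro x hx y hy hxy
    rw [mem_sdiff] at hx ⊢
    exact ⟨hy, fun h1 => hx.2 (h.edge y h1 x hx.1 hxy.symm)⟩

lemma Block.inter {D L K : Finset V} (h : Block G D L) (h' : Block G D K) :
    Block G D (L ∩ K) := by
  refine ⟨inter_subset_left.trans h.sub, ?_, ?_⟩
  · intro g hg x hx
    rw [mem_inter] at hx ⊢
    exact ⟨h.inv g hg x hx.1, h'.inv g hg x hx.2⟩
  · intro x hx y hy hxy
    rw [mem_inter] at hx ⊢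
    exact ⟨h.edge x hx.1 y hy hxy, h'.edge x hx.2 y hy hxy⟩

/-- cut and paste -/
lemma cut {D L : Finset V} (h : Block G D L) {g : Perm V} (hg : g ∈ Gam G D) :
    ∃ g' ∈ Gam G D, (∀ x ∈ L, g' x = g x) ∧ ∀ x, x ∉ L → g' x = x := by
  have hp : ∀ x, g x ∈ L ↔ x ∈ L := fun x => h.mem_iff hg x
  set g' : Perm V := Perm.ofSubtype (p := (· ∈ L)) (g.subtypePerm hp) with hg'
  have h1 : ∀ x ∈ L, g' x = g x := by
    intro x hx
    rw [hg', Perm.ofSubtype_apply_of_mem _ hx]
    rfl
  have h2 : ∀ x, x ∉ L → g' x = x := by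
    intro x hx
    rw [hg', Perm.ofSubtype_apply_of_not_mem _ hx]
  have h3 : ∀ x ∈ L, ∀ y, y ∉ L → (G.Adj (g x) y ↔ G.Adj x y) := by
    intro x hx y hy
    by_cases hyD : y ∈ D
    · constructor
      · intro h4
        exact absurd (h.edge _ (h.inv g hg x hx) y hyD h4) hy
      · intro h4
        exact absurd (h.edge _ hx y hyD h4) hy
    · exact Gam_adj_fix hg hyD
  refine ⟨g', ⟨?_, ?_⟩, h1, h2⟩
  · intro x y
    by_cases hx : x ∈ L <;> by_cases hy : y ∈ L
    · rw [h1 x hx, h1 y hy]; exact Gam_adj hg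
    · rw [h1 x hx, h2 y hy]; exact h3 x hx y hy
    · rw [h2 x hx, h1 y hy, G.adj_comm, h3 y hy x hx, G.adj_comm]
    · rw [h2 x hx, h2 y hy]
  · intro x hx
    exact h2 x (fun h' => hx (h.sub h'))

/-- the boundary of `L` outside `D` -/
def bd (G : SimpleGraph V) [DecidableRel G.Adj] (D L : Finset V) : Finset V :=
  univ.filter (fun u => u ∉ D ∧ ∃ q ∈ L, G.Adj u q)

lemma mem_bd {D L : Finset V} {u : V} : u ∈ bd G D L ↔ u ∉ D ∧ ∃ q ∈ L, G.Adj u q := by
  simp [bd]

lemma bd_aux (hG : Cub G) {D L : Finset V} (hD : Adm G D) (hc : Closed G D) (h : Block G D L)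
    (hne : L.Nonempty) : 3 ≤ (bd G D L).card ∨ univ \ D ⊆ bd G D L := by
  have hdis : Disjoint L (bd G D L) := by
    rw [Finset.disjoint_left]
    intro x hx hx'
    exact (mem_bd.1 hx').1 (h.sub hx)
  by_cases hX : L ∪ bd G D L = univ
  · right
    intro u hu
    rw [mem_sdiff] at hu
    have : u ∈ L ∪ bd G D L := by rw [hX]; exact mem_univ u
    rw [mem_union] at this
    rcases this with h1 | h1
    · exact absurd (h.sub h1) hu.2
    · exact h1
  · left
    have h3 := hG.e3 (L ∪ bd G D L) (hne.mono subset_union_left) hX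
    refine h3.trans ?_
    unfold out
    rw [Finset.sum_union hdis]
    have hA : ∑ x ∈ L, (G.neighborFinset x \ (L ∪ bd G D L)).card = 0 := by
      apply Finset.sum_eq_zero
      intro x hx
      rw [Finset.card_eq_zero, Finset.sdiff_eq_empty_iff_subset]
      intro y hy
      rw [SimpleGraph.mem_neighborFinset] at hy
      rw [mem_union]
      by_cases hyD : y ∈ D
      · exact Or.inl (h.edge x hx y hyD hy)
      · exact Or.inr (mem_bd.2 ⟨hyD, x, hx, hy.symm⟩)
    have hB : ∑ x ∈ bd G D L, (G.neighborFinset x \ (L ∪ bd G D L)).card ≤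
        ∑ x ∈ bd G D L, 1 := by
      apply Finset.sum_le_sum
      intro u hu
      obtain ⟨huD, q, hq, huq⟩ := mem_bd.1 hu
      obtain ⟨r, hr, hrq, hur, g, hg, hgq⟩ := sibling hG hD hc huD (h.sub hq) huq
      have hrL : r ∈ L := by rw [← hgq]; exact h.inv g hg q hq
      have hsub : ({q, r} : Finset V) ⊆ G.neighborFinset u ∩ (L ∪ bd G D L) := by
        intro z hz
        simp only [mem_insert, mem_singleton] at hz
        rw [mem_inter, mem_union, SimpleGraph.mem_neighborFinset]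
        rcases hz with rfl | rfl
        · exact ⟨huq, Or.inl hq⟩
        · exact ⟨hur, Or.inl hrL⟩
      have hc2 := Finset.card_le_card hsub
      rw [Finset.card_pair (Ne.symm hrq)] at hc2
      have := Finset.card_sdiff_add_card_inter (G.neighborFinset u) (L ∪ bd G D L)
      rw [hG.deg u] at this
      omega
    rw [hA, zero_add]
    refine hB.trans ?_
    rw [Finset.sum_const, smul_eq_mul, mul_one]

lemma two_le_bd (hG : Cub G) {D L : Finset V} (hD : Adm G D) (hc : Closed G D) (h : Block G D L)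
    (hne : L.Nonempty) : 2 ≤ (bd G D L).card := by
  rcases bd_aux hG hD hc h hne with h1 | h1
  · omega
  · obtain ⟨v, w, hv, hw, hvw⟩ := hD
    have h2 : ({v, w} : Finset V) ⊆ univ \ D := by
      intro z hz
      simp only [mem_insert, mem_singleton] at hz
      rcases hz with rfl | rfl <;> simp [hv, hw]
    have := Finset.card_le_card (h2.trans h1)
    rwa [Finset.card_pair hvw.ne] at this

lemma three_le_bd (hG : Cub G) {D L : Finset V} (hD : Adm G D) (hc : Closed G D)
    (h : Block G D L) (hne : L.Nonempty) (h3 : 3 ≤ (univ \ D).card) : 3 ≤ (bd G D L).card := by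
  rcases bd_aux hG hD hc h hne with h1 | h1
  · exact h1
  · exact h3.trans (Finset.card_le_card h1)

/-- minimal nonempty block -/
def MinBlock (G : SimpleGraph V) (D K : Finset V) : Prop :=
  Block G D K ∧ K.Nonempty ∧ ∀ L, Block G D L → L.Nonempty → L ⊆ K → L = K

lemma exists_minBlock {D L : Finset V} (h : Block G D L) (hne : L.Nonempty) :
    ∃ K, K ⊆ L ∧ MinBlock G D K := by
  induction L using Finset.strongInduction with
  | H L ih =>
    by_cases hL : MinBlock G D L
    · exact ⟨L, subset_rfl, hL⟩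
    · unfold MinBlock at hL
      push Not at hL
      obtain ⟨L', h1, h2, h3, h4⟩ := hL h hne
      obtain ⟨K, hK, hK'⟩ := ih L' (Finset.ssubset_iff_subset_ne.2 ⟨h3, h4⟩) h1 h2
      exact ⟨K, hK.trans h3, hK'⟩

end Pool.Agent.H23.Cubic
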