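import Mathlib
import Pool.Agent.H23.Cubic.Block

set_option autoImplicit false

namespace Pool.Agent.H23.Cubic

open Equiv Finset

set_option linter.unusedSectionVars false
set_option linter.unusedVariables false

variable {V : Type*} [Fintype V] [DecidableEq V] {G : SimpleGraph V} [DecidableRel G.Adj]

open Classical in
/-- support of the stabilizer of `x` in `Gam G D` -/
noncomputable def stab (G : SimpleGraph V) (D : Finset V) (x : V) : Finset V :=
  D.filter (fun z => ∃ g ∈ Gam G D, g x = x ∧ g z ≠ z)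

open Classical in
/-- orbit of `x` under `Gam G D` -/
noncomputable def orb (G : SimpleGraph V) (D : Finset V) (x : V) : Finset V :=
  univ.filter (fun y => ∃ g ∈ Gam G D, g x = y)

lemma mem_stab {D : Finset V} {x z : V} :
    z ∈ stab G D x ↔ z ∈ D ∧ ∃ g ∈ Gam G D, g x = x ∧ g z ≠ z := by
  classical
  unfold stab
  rw [Finset.mem_filter]

lemma mem_orb {D : Finset V} {x y : V} : y ∈ orb G D x ↔ ∃ g ∈ Gam G D, g x = y := by
  classical
  unfold orb
  rw [Finset.mem_filter]
  simp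

lemma stab_sub (D : Finset V) (x : V) : stab G D x ⊆ D := fun z hz => (mem_stab.1 hz).1

lemma not_mem_stab_self (D : Finset V) (x : V) : x ∉ stab G D x := by
  intro h
  obtain ⟨_, g, _, h1, h2⟩ := mem_stab.1 h
  exact h2 h1

lemma mem_Gam_stab {D : Finset V} {x : V} {g : Perm V} :
    g ∈ Gam G (stab G D x) ↔ g ∈ Gam G D ∧ g x = x := by
  constructor
  · intro h
    exact ⟨Gam_mono (stab_sub D x) h, Gam_fix h (not_mem_stab_self D x)⟩
  · rintro ⟨h1, h2⟩
    refine ⟨h1.1, fun z hz => ?_⟩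
    by_contra hne
    apply hz
    rw [mem_stab]
    refine ⟨?_, g, h1, h2, hne⟩
    by_contra hzD
    exact hne (h1.2 z hzD)

lemma closed_stab (D : Finset V) (x : V) : Closed G (stab G D x) := by
  intro z hz
  obtain ⟨_, g, hg, h1, h2⟩ := mem_stab.1 hz
  exact ⟨g, mem_Gam_stab.2 ⟨hg, h1⟩, h2⟩

lemma adm_mono {D E : Finset V} (h : D ⊆ E) (hE : Adm G E) : Adm G D := by
  obtain ⟨v, w, hv, hw, hvw⟩ := hE
  exact ⟨v, w, fun h' => hv (h h'), fun h' => hw (h h'), hvw⟩

lemma card_stab (D : Finset V) (x : V) :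
    Nat.card (Gam G D) = (orb G D x).card * Nat.card (Gam G (stab G D x)) := by
  have h1 := (MulAction.stabilizer (Gam G D) x).card_mul_index
  rw [MulAction.index_stabilizer] at h1
  have h2 : (MulAction.orbit (Gam G D) x) = (orb G D x : Set V) := by
    ext z
    rw [Finset.mem_coe, mem_orb, MulAction.mem_orbit_iff]
    constructor
    · rintro ⟨⟨g, hg⟩, h⟩
      exact ⟨g, hg, h⟩
    · rintro ⟨g, hg, h⟩
      exact ⟨⟨g, hg⟩, h⟩
  rw [h2, Set.ncard_coe_finset] at h1
  have h3 : Nat.card (MulAction.stabilizer (Gam G D) x) = Nat.card (Gam G (stab G D x)) := by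
    apply Nat.card_congr
    refine ⟨fun s => ⟨s.1.1, mem_Gam_stab.2 ⟨s.1.2, s.2⟩⟩,
      fun s => ⟨⟨s.1, (mem_Gam_stab.1 s.2).1⟩, (mem_Gam_stab.1 s.2).2⟩, ?_, ?_⟩
    · intro s; rfl
    · intro s; rfl
  rw [h3] at h1
  rw [← h1, mul_comm]

/-- data for one step of the descent -/
structure Step (G : SimpleGraph V) (D : Finset V) (x y u : V) : Prop where
  adm : Adm G D
  cl : Closed G D
  xD : x ∈ D
  yD : y ∈ D
  ne : x ≠ y
  uD : u ∉ D
  ux : G.Adj u x
  uy : G.Adj u y

lemma Step.symm {D : Finset V} {x y u : V} (h : Step G D x y u) : Step G D y x u :=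
  ⟨h.adm, h.cl, h.yD, h.xD, h.ne.symm, h.uD, h.uy, h.ux⟩

lemma exists_step (hG : Cub G) {D : Finset V} (hD : Adm G D) (hc : Closed G D) {x u : V}
    (hx : x ∈ D) (hu : u ∉ D) (h : G.Adj u x) : ∃ y, Step G D x y u := by
  obtain ⟨y, hy, hne, huy, _⟩ := sibling hG hD hc hu hx h
  exact ⟨y, hD, hc, hx, hy, hne.symm, hu, h, huy⟩

section
variable {D : Finset V} {x y u : V}

lemma Step.map (hG : Cub G) (h : Step G D x y u) {g : Perm V} (hg : g ∈ Gam G D) :
    g x = x ∨ g x = y :=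
  pair_map hG h.adm h.cl h.uD h.xD h.yD h.ne h.ux h.uy hg

lemma Step.swap (hG : Cub G) (h : Step G D x y u) {g : Perm V} (hg : g ∈ Gam G D)
    (h1 : g x = y) : g y = x := by
  rcases h.symm.map hG hg with h2 | h2
  · exact absurd (g.injective (h1.trans h2.symm)) h.ne
  · exact h2

lemma Step.fix_iff (hG : Cub G) (h : Step G D x y u) {g : Perm V} (hg : g ∈ Gam G D) :
    g x = x ↔ g y = y := by
  constructor
  · intro h1
    rcases h.symm.map hG hg with h2 | h2
    · exact h2
    · exact absurd (g.injective (h1.trans h2.symm)) h.ne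
  · intro h1
    rcases h.map hG hg with h2 | h2
    · exact h2
    · exact absurd (g.injective (h1.trans h2.symm)) h.ne.symm

lemma Step.exists_swap (hG : Cub G) (h : Step G D x y u) : ∃ g ∈ Gam G D, g x = y := by
  obtain ⟨g, hg, hne⟩ := h.cl x h.xD
  exact ⟨g, hg, (h.map hG hg).resolve_left hne⟩

lemma Step.card (hG : Cub G) (h : Step G D x y u) :
    Nat.card (Gam G D) = 2 * Nat.card (Gam G (stab G D x)) := by
  rw [card_stab D x]
  congr 1
  have : orb G D x = {x, y} := by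
    ext z
    rw [mem_orb]
    simp only [mem_insert, mem_singleton]
    constructor
    · rintro ⟨g, hg, rfl⟩
      exact h.map hG hg
    · rintro (rfl | rfl)
      · exact ⟨1, one_mem _, rfl⟩
      · exact h.exists_swap hG
  rw [this, Finset.card_pair h.ne]

lemma Step.y_not_mem (hG : Cub G) (h : Step G D x y u) : y ∉ stab G D x := by
  intro h1
  obtain ⟨_, g, hg, h2, h3⟩ := mem_stab.1 h1
  exact h3 ((h.fix_iff hG hg).1 h2)

/-- the support of the stabilizer is invariant -/
lemma Step.inv (hG : Cub G) (h : Step G D x y u) {g : Perm V} (hg : g ∈ Gam G D) {z : V}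
    (hz : z ∈ stab G D x) : g z ∈ stab G D x := by
  obtain ⟨hzD, k, hk, hkx, hkz⟩ := mem_stab.1 hz
  rw [mem_stab]
  refine ⟨mem_map hg hzD, g * k * g⁻¹, mul_mem (mul_mem hg hk) (inv_mem hg), ?_, ?_⟩
  · rw [Perm.mul_apply, Perm.mul_apply]
    have h1 : k (g⁻¹ x) = g⁻¹ x := by
      rcases h.map hG (inv_mem hg) with h2 | h2
      · rw [h2, hkx]
      · rw [h2, (h.fix_iff hG hk).1 hkx]
    rw [h1, pinv1]
  · rw [Perm.mul_apply, Perm.mul_apply, pinv2]
    intro h1
    exact hkz (g.injective h1)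

lemma Step.inv_iff (hG : Cub G) (h : Step G D x y u) {g : Perm V} (hg : g ∈ Gam G D) (z : V) :
    g z ∈ stab G D x ↔ z ∈ stab G D x := by
  constructor
  · intro h1
    have := h.inv hG (inv_mem hg) h1
    rwa [pinv2] at this
  · exact h.inv hG hg

/-- the set `N` of newly fixed vertices -/
lemma Step.moved (hG : Cub G) (h : Step G D x y u) {g : Perm V} (hg : g ∈ Gam G D)
    (hgx : g x = y) {z : V} (hz : z ∈ D) (hz' : z ∉ stab G D x) : g z ≠ z := by
  intro hgz
  obtain ⟨k, hk, hkz⟩ := h.cl z hz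
  rcases h.map hG hk with h1 | h1
  · exact hz' (mem_stab.2 ⟨hz, k, hk, h1, hkz⟩)
  · apply hz'
    rw [mem_stab]
    refine ⟨hz, g⁻¹ * k, mul_mem (inv_mem hg) hk, ?_, ?_⟩
    · rw [Perm.mul_apply, h1, ← hgx, pinv2]
    · rw [Perm.mul_apply]
      intro h2
      apply hkz
      rw [Perm.inv_eq_iff_eq, hgz] at h2
      exact h2

lemma Step.sq (hG : Cub G) (h : Step G D x y u) {g : Perm V} (hg : g ∈ Gam G D)
    {z : V} (hz' : z ∉ stab G D x) : g (g z) = z := by
  have h1 : (g * g) ∈ Gam G (stab G D x) := by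
    rw [mem_Gam_stab]
    refine ⟨mul_mem hg hg, ?_⟩
    rw [Perm.mul_apply]
    rcases h.map hG hg with h2 | h2
    · rw [h2, h2]
    · rw [h2, h.swap hG hg h2]
  exact Gam_fix h1 hz'

/-- the newly fixed vertices lie in any block containing `x` -/
lemma Step.new_sub (hG : Cub G) (h : Step G D x y u) {K : Finset V} (hK : Block G D K)
    (hxK : x ∈ K) {z : V} (hz : z ∈ D) (hz' : z ∉ stab G D x) : z ∈ K := by
  by_contra hzK
  obtain ⟨k, hk, hkz⟩ := h.cl z hz
  obtain ⟨k', hk', h1, h2⟩ := cut hK.compl hk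
  apply hz'
  rw [mem_stab]
  refine ⟨hz, k', hk', h2 x (by simp [hxK]), ?_⟩
  rw [h1 z (by simp [hz, hzK])]
  exact hkz

/-- twin-free -/
def TwF (G : SimpleGraph V) [DecidableRel G.Adj] : Prop :=
  ∀ x y, G.neighborFinset x = G.neighborFinset y → x = y

/-- triangle-free -/
def TriF (G : SimpleGraph V) : Prop := ∀ x y z, G.Adj x y → G.Adj y z → G.Adj x z → False

/-- `D`-type at most 2 -/
lemma type_le_two (hT : TwF G) (hG : Cub G) {D : Finset V} (hc : Closed G D) {z : V}
    (hz : z ∈ D) : (G.neighborFinset z \ D).card ≤ 2 := by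
  by_contra h
  push Not at h
  have h1 : G.neighborFinset z \ D = G.neighborFinset z := by
    apply Finset.eq_of_subset_of_card_le sdiff_subset
    rw [hG.deg]; omega
  obtain ⟨g, hg, hgz⟩ := hc z hz
  apply hgz
  apply hT
  rw [nb_map hg]
  ext w
  rw [Finset.mem_image]
  constructor
  · rintro ⟨a, ha, rfl⟩
    have : a ∉ D := by
      rw [← h1, mem_sdiff] at ha
      exact ha.2
    rw [Gam_fix hg this]
    exact ha
  · intro ha
    refine ⟨w, ha, ?_⟩
    have : w ∉ D := by
      rw [← h1, mem_sdiff] at ha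
      exact ha.2
    exact Gam_fix hg this

/-- (O): an old boundary vertex has no newly fixed neighbour -/
lemma Step.old (hG : Cub G) (hT : TwF G) (h : Step G D x y u) {q t v : V}
    (hq : q ∈ stab G D x) (hv : v ∉ D) (hqv : G.Adj q v) (ht : t ∈ D) (ht' : t ∉ stab G D x) :
    ¬ G.Adj q t := by
  intro hqt
  obtain ⟨hqD, k, hk, hkx, hkq⟩ := mem_stab.1 hq
  have hk' : k ∈ Gam G (stab G D x) := mem_Gam_stab.2 ⟨hk, hkx⟩
  have hrD : k q ∈ D := mem_map hk hqD
  have hrv : G.Adj (k q) v := (Gam_adj_fix hk hv).2 hqv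
  have hrt : G.Adj (k q) t := (Gam_adj_fix hk' ht').2 hqt
  obtain ⟨g, hg, hgt⟩ := h.cl t ht
  have hgtD : g t ∈ D := mem_map hg ht
  have m1 := pair_map hG h.adm h.cl hv hqD hrD (Ne.symm hkq) hqv.symm hrv.symm hg
  have m2 := pair_map hG h.adm h.cl hv hrD hqD hkq hrv.symm hqv.symm hg
  have a1 : G.Adj (g q) (g t) := (Gam_adj hg).2 hqt
  have a2 : G.Adj (g (k q)) (g t) := (Gam_adj hg).2 hrt
  have b : G.Adj q (g t) ∧ G.Adj (k q) (g t) := by
    rcases m1 with m1 | m1
    · rcases m2 with m2 | m2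
      · rw [m1] at a1; rw [m2] at a2; exact ⟨a1, a2⟩
      · exact absurd (g.injective (m1.trans m2.symm)) (Ne.symm hkq)
    · rcases m2 with m2 | m2
      · exact absurd (g.injective (m1.trans m2.symm)) (Ne.symm hkq)
      · rw [m1] at a1; rw [m2] at a2; exact ⟨a2, a1⟩
  have n1 : v ≠ t := fun h' => hv (h' ▸ ht)
  have n2 : v ≠ g t := fun h' => hv (h' ▸ hgtD)
  have N1 := nb_eq_of hG n1 n2 (Ne.symm hgt) hqv hqt b.1
  have N2 := nb_eq_of hG n1 n2 (Ne.symm hgt) hrv hrt b.2
  exact hkq (hT _ _ (N2.trans N1.symm))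

end

end Pool.Agent.H23.Cubic
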