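import Mathlib
import Pool.Agent.H23.Cubic.Stab

set_option autoImplicit false

namespace Pool.Agent.H23.Cubic

open Equiv Finset

set_option linter.unusedSectionVars false
set_option linter.unusedVariables false

lemma even_of_invol {α : Type*} [DecidableEq α] (s : Finset α) (f : α → α)
    (h1 : ∀ a ∈ s, f a ∈ s) (h2 : ∀ a ∈ s, f a ≠ a) (h3 : ∀ a ∈ s, f (f a) = a) :
    Even s.card := by
  have h : ∑ a ∈ s, (1 : ZMod 2) = 0 := by
    apply Finset.sum_involution (fun a _ => f a)
    · intro a ha
      decide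
    · intro a ha _
      exact h2 a ha
    · intro a ha
      exact h1 a ha
    · intro a ha
      exact h3 a ha
  rw [Finset.sum_const, nsmul_eq_mul, mul_one] at h
  exact (ZMod.natCast_eq_zero_iff_even).1 h

variable {V : Type*} [Fintype V] [DecidableEq V] {G : SimpleGraph V} [DecidableRel G.Adj]

/-- type of a vertex: number of neighbours outside `D` -/
def ty (G : SimpleGraph V) [DecidableRel G.Adj] (D : Finset V) (z : V) : ℕ :=
  (G.neighborFinset z \ D).card

lemma ty_add (hG : Cub G) (D : Finset V) (z : V) :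
    ty G D z + (G.neighborFinset z ∩ D).card = 3 := by
  unfold ty
  rw [Finset.card_sdiff_add_card_inter, hG.deg]

lemma ty_pos {D : Finset V} {z : V} : 0 < ty G D z ↔ ∃ v, v ∉ D ∧ G.Adj z v := by
  unfold ty
  rw [Finset.card_pos]
  constructor
  · rintro ⟨v, hv⟩
    rw [mem_sdiff, SimpleGraph.mem_neighborFinset] at hv
    exact ⟨v, hv.2, hv.1⟩
  · rintro ⟨v, hv, hzv⟩
    exact ⟨v, by rw [mem_sdiff, SimpleGraph.mem_neighborFinset]; exact ⟨hzv, hv⟩⟩

lemma ty_map {D : Finset V} {g : Perm V} (hg : g ∈ Gam G D) (z : V) :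
    ty G D (g z) = ty G D z := by
  unfold ty
  rw [nb_map hg]
  have : (G.neighborFinset z).image g \ D = (G.neighborFinset z \ D).image g := by
    ext w
    simp only [mem_sdiff, mem_image]
    constructor
    · rintro ⟨⟨a, ha, rfl⟩, h⟩
      exact ⟨a, ⟨ha, fun h' => h ((Gam_mem_iff hg a).2 h')⟩, rfl⟩
    · rintro ⟨a, ⟨ha, h⟩, rfl⟩
      exact ⟨⟨a, ha, rfl⟩, fun h' => h ((Gam_mem_iff hg a).1 h')⟩
  rw [this, Finset.card_image_of_injective _ g.injective]

section
variable {D : Finset V} {x y u : V}

lemma Step.x_new (hG : Cub G) (h : Step G D x y u) : x ∈ D \ stab G D x := by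
  rw [mem_sdiff]
  exact ⟨h.xD, not_mem_stab_self D x⟩

lemma Step.y_new (hG : Cub G) (h : Step G D x y u) : y ∈ D \ stab G D x := by
  rw [mem_sdiff]
  exact ⟨h.yD, h.y_not_mem hG⟩

/-- a vertex outside a closed set `E` having a neighbour in `E` has another one -/
lemma another {E : Finset V} (hc : Closed G E) {z a : V} (hz : z ∉ E) (ha : a ∈ E)
    (h : G.Adj z a) : ∃ b ∈ E, b ≠ a ∧ G.Adj z b := by
  obtain ⟨k, hk, hka⟩ := hc a ha
  exact ⟨k a, mem_map hk ha, hka, adj_map hk hz h⟩

lemma dg_one (hG : Cub G) (h : Step G D x y u) {z : V} (hz : z ∈ D \ stab G D x)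
    (h2 : ty G D z = 2) : (G.neighborFinset z ∩ (D \ stab G D x)).card = 1 := by
  have h3 := ty_add hG D z
  have h4 : (G.neighborFinset z ∩ D).card = 1 := by omega
  rw [mem_sdiff] at hz
  have h5 : G.neighborFinset z ∩ (D \ stab G D x) = G.neighborFinset z ∩ D := by
    apply subset_antisymm
    · intro w hw
      rw [mem_inter, mem_sdiff] at hw
      rw [mem_inter]
      exact ⟨hw.1, hw.2.1⟩
    · intro w hw
      rw [mem_inter] at hw
      rw [mem_inter, mem_sdiff]
      refine ⟨hw.1, hw.2, fun hw' => ?_⟩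
      have hw1 := hw.1
      rw [SimpleGraph.mem_neighborFinset] at hw1
      obtain ⟨b, hb, hba, hzb⟩ := another (closed_stab D x) hz.2 hw' hw1
      have : ({w, b} : Finset V) ⊆ G.neighborFinset z ∩ D := by
        intro c hc
        simp only [mem_insert, mem_singleton] at hc
        rw [mem_inter, SimpleGraph.mem_neighborFinset]
        rcases hc with rfl | rfl
        · exact ⟨hw1, hw.2⟩
        · exact ⟨hzb, stab_sub D x hb⟩
      have := Finset.card_le_card this
      rw [Finset.card_pair (Ne.symm hba)] at this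
      omega
  rw [h5, h4]

lemma dg_zero_two (hG : Cub G) (h : Step G D x y u) {z : V} (hz : z ∈ D \ stab G D x)
    (h1 : ty G D z = 1) : (G.neighborFinset z ∩ (D \ stab G D x)).card = 0 ∨
    (G.neighborFinset z ∩ (D \ stab G D x)).card = 2 := by
  have h3 := ty_add hG D z
  have h4 : (G.neighborFinset z ∩ D).card = 2 := by omega
  rw [mem_sdiff] at hz
  by_cases h5 : ∃ w ∈ stab G D x, G.Adj z w
  · left
    obtain ⟨w, hw, hzw⟩ := h5
    obtain ⟨b, hb, hba, hzb⟩ := another (closed_stab D x) hz.2 hw hzw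
    have h6 : ({w, b} : Finset V) ⊆ G.neighborFinset z ∩ D := by
      intro c hc
      simp only [mem_insert, mem_singleton] at hc
      rw [mem_inter, SimpleGraph.mem_neighborFinset]
      rcases hc with rfl | rfl
      · exact ⟨hzw, stab_sub D x hw⟩
      · exact ⟨hzb, stab_sub D x hb⟩
    have h7 : ({w, b} : Finset V) = G.neighborFinset z ∩ D := by
      apply Finset.eq_of_subset_of_card_le h6
      rw [h4, Finset.card_pair (Ne.symm hba)]
    rw [Finset.card_eq_zero, Finset.eq_empty_iff_forall_notMem]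
    intro c hc
    rw [mem_inter, mem_sdiff] at hc
    have h8 : c ∈ G.neighborFinset z ∩ D := by rw [mem_inter]; exact ⟨hc.1, hc.2.1⟩
    rw [← h7] at h8
    simp only [mem_insert, mem_singleton] at h8
    rcases h8 with rfl | rfl
    · exact hc.2.2 hw
    · exact hc.2.2 hb
  · right
    push Not at h5
    rw [← h4]
    congr 1
    ext w
    rw [mem_inter, mem_inter, mem_sdiff]
    constructor
    · rintro ⟨a, b, c⟩; exact ⟨a, b⟩
    · rintro ⟨a, b⟩
      refine ⟨a, b, fun c => ?_⟩
      rw [SimpleGraph.mem_neighborFinset] at a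
      exact h5 w c a

/-- the parity lemma -/
lemma parity (hG : Cub G) (hTri : TriF G) (h : Step G D x y u) (hx : ty G D x = 2) :
    4 ≤ ((D \ stab G D x).filter (fun z => ty G D z ≠ 1)).card := by
  by_contra hlt
  push Not at hlt
  obtain ⟨g, hg, hgx⟩ := h.exists_swap hG
  set N := D \ stab G D x with hN
  have hxN : x ∈ N := h.x_new hG
  have hyN : y ∈ N := h.y_new hG
  have hgN : ∀ z ∈ N, g z ∈ N := by
    intro z hz
    rw [hN, mem_sdiff] at hz ⊢
    exact ⟨mem_map hg hz.1, fun h' => hz.2 ((h.inv_iff hG hg z).1 h')⟩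
  have hgne : ∀ z ∈ N, g z ≠ z := by
    intro z hz
    rw [hN, mem_sdiff] at hz
    exact h.moved hG hg hgx hz.1 hz.2
  have hgsq : ∀ z ∈ N, g (g z) = z := by
    intro z hz
    rw [hN, mem_sdiff] at hz
    exact h.sq hG hg hz.2
  have hy : ty G D y = 2 := by rw [← hgx, ty_map hg, hx]
  have hev : Even (N.filter (fun z => ty G D z ≠ 1)).card := by
    apply even_of_invol _ g
    · intro a ha
      rw [mem_filter] at ha ⊢
      exact ⟨hgN a ha.1, by rw [ty_map hg]; exact ha.2⟩
    · intro a ha
      rw [mem_filter] at ha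
      exact hgne a ha.1
    · intro a ha
      rw [mem_filter] at ha
      exact hgsq a ha.1
  have hsub : ({x, y} : Finset V) ⊆ N.filter (fun z => ty G D z ≠ 1) := by
    intro z hz
    simp only [mem_insert, mem_singleton] at hz
    rw [mem_filter]
    rcases hz with rfl | rfl
    · exact ⟨hxN, by omega⟩
    · exact ⟨hyN, by omega⟩
  have hcard := Finset.card_le_card hsub
  rw [Finset.card_pair h.ne] at hcard
  have hFeq : ({x, y} : Finset V) = N.filter (fun z => ty G D z ≠ 1) := by
    apply Finset.eq_of_subset_of_card_le hsub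
    rw [Finset.card_pair h.ne]
    obtain ⟨m, hm⟩ := hev
    omega
  have hone : ∀ z ∈ N, z ≠ x → z ≠ y → ty G D z = 1 := by
    intro z hz hzx hzy
    by_contra hne
    have : z ∈ N.filter (fun z => ty G D z ≠ 1) := mem_filter.2 ⟨hz, hne⟩
    rw [← hFeq] at this
    simp only [mem_insert, mem_singleton] at this
    tauto
  have hpos : ∀ z ∈ N, 0 < ty G D z := by
    intro z hz
    by_cases h1 : z = x
    · rw [h1]; omega
    by_cases h2 : z = y
    · rw [h2]; omega
    rw [hone z hz h1 h2]; omega
  -- no edge is flipped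
  have hflip : ∀ z ∈ N, ¬ G.Adj z (g z) := by
    intro z hz hadj
    obtain ⟨v, hv, hzv⟩ := ty_pos.1 (hpos z hz)
    have : G.Adj (g z) v := (Gam_adj_fix hg hv).2 hzv
    exact hTri z (g z) v hadj this hzv
  -- the induced graph
  let H : SimpleGraph V :=
    { Adj := fun a b => a ∈ N ∧ b ∈ N ∧ G.Adj a b
      symm := ⟨fun a b hab => ⟨hab.2.1, hab.1, hab.2.2.symm⟩⟩
      loopless := ⟨fun a ha => G.loopless.irrefl a ha.2.2⟩ }
  have : DecidableRel H.Adj := fun a b => by
    show Decidable (a ∈ N ∧ b ∈ N ∧ G.Adj a b)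
    infer_instance
  have hHadj : ∀ a b, H.Adj a b ↔ a ∈ N ∧ b ∈ N ∧ G.Adj a b := fun a b => Iff.rfl
  have hsum := H.sum_degrees_eq_twice_card_edges
  have hdeg : ∀ z ∈ N, H.degree z = (G.neighborFinset z ∩ N).card := by
    intro z hz
    rw [← SimpleGraph.card_neighborFinset_eq_degree]
    congr 1
    ext w
    rw [SimpleGraph.mem_neighborFinset, mem_inter, SimpleGraph.mem_neighborFinset, hHadj]
    tauto
  have hdeg0 : ∀ z, z ∉ N → H.degree z = 0 := by
    intro z hz
    rw [← SimpleGraph.card_neighborFinset_eq_degree, Finset.card_eq_zero,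
      Finset.eq_empty_iff_forall_notMem]
    intro w hw
    rw [SimpleGraph.mem_neighborFinset, hHadj] at hw
    exact hz hw.1
  have hEeven : Even H.edgeFinset.card := by
    apply even_of_invol _ (Sym2.map g)
    · intro e he
      induction e using Sym2.ind with
      | _ a b =>
        rw [SimpleGraph.mem_edgeFinset, SimpleGraph.mem_edgeSet] at he
        rw [Sym2.map_mk, SimpleGraph.mem_edgeFinset, SimpleGraph.mem_edgeSet]
        exact ⟨hgN a he.1, hgN b he.2.1, (Gam_adj hg).2 he.2.2⟩
    · intro e he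
      induction e using Sym2.ind with
      | _ a b =>
        rw [SimpleGraph.mem_edgeFinset, SimpleGraph.mem_edgeSet] at he
        rw [Sym2.map_mk]
        intro heq
        rw [Sym2.eq_iff] at heq
        rcases heq with ⟨h1, h2⟩ | ⟨h1, h2⟩
        · exact hgne a he.1 h1
        · apply hflip a he.1
          rw [h1]
          exact he.2.2
    · intro e he
      induction e using Sym2.ind with
      | _ a b =>
        rw [SimpleGraph.mem_edgeFinset, SimpleGraph.mem_edgeSet] at he
        rw [Sym2.map_mk, Sym2.map_mk, hgsq a he.1, hgsq b he.2.1]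
  -- compute the sum of degrees
  have hs1 : ∑ z, H.degree z = ∑ z ∈ N, (G.neighborFinset z ∩ N).card := by
    rw [← Finset.sum_subset (Finset.subset_univ N) (fun z _ hz => hdeg0 z hz)]
    exact Finset.sum_congr rfl hdeg
  have hyN' : y ∈ N.erase x := by
    rw [mem_erase]; exact ⟨h.ne.symm, hyN⟩
  have hs2 : ∑ z ∈ N, (G.neighborFinset z ∩ N).card =
      1 + (1 + ∑ z ∈ (N.erase x).erase y, (G.neighborFinset z ∩ N).card) := by
    rw [← Finset.add_sum_erase _ _ hxN, ← Finset.add_sum_erase _ _ hyN']
    rw [dg_one hG h hxN hx, dg_one hG h hyN hy]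
  set M := ((N.erase x).erase y).filter (fun z => (G.neighborFinset z ∩ N).card = 2) with hM
  have hs3 : ∑ z ∈ (N.erase x).erase y, (G.neighborFinset z ∩ N).card = 2 * M.card := by
    rw [hM, Finset.card_filter, Finset.mul_sum]
    apply Finset.sum_congr rfl
    intro z hz
    rw [mem_erase, mem_erase] at hz
    have := dg_zero_two hG h hz.2.2 (hone z hz.2.2 hz.2.1 hz.1)
    rcases this with h1 | h1
    · rw [← hN] at h1; rw [h1]; simp
    · rw [← hN] at h1; rw [h1]; simp
  have hMeven : Even M.card := by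
    apply even_of_invol _ g
    · intro a ha
      rw [hM, mem_filter, mem_erase, mem_erase] at ha ⊢
      refine ⟨⟨?_, ?_, hgN a ha.1.2.2⟩, ?_⟩
      · intro h1
        exact ha.1.2.1 (g.injective (h1.trans hgx.symm))
      · intro h1
        exact ha.1.1 (g.injective (h1.trans (h.swap hG hg hgx).symm))
      · rw [nb_map hg]
        have : (G.neighborFinset a).image g ∩ N = (G.neighborFinset a ∩ N).image g := by
          ext w
          simp only [mem_inter, mem_image]
          constructor
          · rintro ⟨⟨b, hb, rfl⟩, h'⟩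
            refine ⟨b, ⟨hb, ?_⟩, rfl⟩
            rw [hN, mem_sdiff] at h' ⊢
            exact ⟨(Gam_mem_iff hg b).1 h'.1, fun h2 => h'.2 ((h.inv_iff hG hg b).2 h2)⟩
          · rintro ⟨b, ⟨hb, h'⟩, rfl⟩
            exact ⟨⟨b, hb, rfl⟩, hgN b h'⟩
        rw [this, Finset.card_image_of_injective _ g.injective]
        exact ha.2
    · intro a ha
      rw [hM, mem_filter, mem_erase, mem_erase] at ha
      exact hgne a ha.1.2.2
    · intro a ha
      rw [hM, mem_filter, mem_erase, mem_erase] at ha
      exact hgsq a ha.1.2.2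
  rw [hs1, hs2, hs3] at hsum
  obtain ⟨p, hp⟩ := hMeven
  obtain ⟨q, hq⟩ := hEeven
  omega

end

end Pool.Agent.H23.Cubic
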