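import Mathlib
import Pool.Agent.H23.Cubic.Parity

set_option autoImplicit false

namespace Pool.Agent.H23.Cubic

open Equiv Finset

set_option linter.unusedSectionVars false
set_option linter.unusedVariables false

variable {V : Type*} [Fintype V] [DecidableEq V] {G : SimpleGraph V} [DecidableRel G.Adj]

/-- number of vertices of `D` of type different from 1 -/
def ee (G : SimpleGraph V) [DecidableRel G.Adj] (D : Finset V) : ℕ :=
  (D.filter (fun z => ty G D z ≠ 1)).card

/-- valid sets -/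
def Valid (G : SimpleGraph V) [DecidableRel G.Adj] (D T : Finset V) : Prop :=
  ∀ L, Block G D L → L.Nonempty → (∀ z ∈ L, ty G D z ≠ 2) → 4 ≤ (L ∩ T).card

section
variable {D : Finset V} {x y u : V}

/-- the vertices that become type one -/
noncomputable def newB (G : SimpleGraph V) [DecidableRel G.Adj] (D : Finset V) (x : V) :
    Finset V := (stab G D x).filter (fun q => ty G D q = 0 ∧ ty G (stab G D x) q = 1)

lemma Step.ty_old (hG : Cub G) (hT : TwF G) (h : Step G D x y u) {q : V}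
    (hq : q ∈ stab G D x) (h1 : 0 < ty G D q) : ty G (stab G D x) q = ty G D q := by
  obtain ⟨v, hv, hqv⟩ := ty_pos.1 h1
  unfold ty
  congr 1
  ext w
  rw [mem_sdiff, mem_sdiff]
  constructor
  · rintro ⟨a, b⟩
    refine ⟨a, fun c => ?_⟩
    rw [SimpleGraph.mem_neighborFinset] at a
    exact h.old hG hT hq hv hqv c b a
  · rintro ⟨a, b⟩
    exact ⟨a, fun c => b (stab_sub D x c)⟩

lemma Step.ee_split (hG : Cub G) (hT : TwF G) (h : Step G D x y u) :
    ee G D = ((D \ stab G D x).filter (fun z => ty G D z ≠ 1)).card + ee G (stab G D x) +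
      (newB G D x).card := by
  unfold ee
  have h1 : D.filter (fun z => ty G D z ≠ 1) =
      ((D \ stab G D x).filter (fun z => ty G D z ≠ 1)) ∪
      (((stab G D x).filter (fun z => ty G (stab G D x) z ≠ 1)) ∪ newB G D x) := by
    ext z
    simp only [newB, mem_union, mem_filter, mem_sdiff]
    constructor
    · rintro ⟨hz, hz1⟩
      by_cases hz' : z ∈ stab G D x
      · right
        by_cases h2 : ty G (stab G D x) z = 1
        · right
          refine ⟨hz', ?_, h2⟩
          by_contra h3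
          have := h.ty_old hG hT hz' (Nat.pos_of_ne_zero h3)
          omega
        · left; exact ⟨hz', h2⟩
      · left; exact ⟨⟨hz, hz'⟩, hz1⟩
    · rintro (⟨⟨hz, hz'⟩, hz1⟩ | ⟨hz', h2⟩ | ⟨hz', h2, h3⟩)
      · exact ⟨hz, hz1⟩
      · refine ⟨stab_sub D x hz', fun h4 => ?_⟩
        have := h.ty_old hG hT hz' (by omega)
        omega
      · exact ⟨stab_sub D x hz', by omega⟩
  rw [h1, Finset.card_union_of_disjoint, Finset.card_union_of_disjoint, add_assoc]
  · rw [Finset.disjoint_left]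
    intro z hz hz'
    simp only [newB, mem_filter] at hz hz'
    exact hz.2 hz'.2.2
  · rw [Finset.disjoint_left]
    intro z hz hz'
    simp only [newB, mem_union, mem_filter, mem_sdiff] at hz hz'
    rcases hz' with h2 | h2
    · exact hz.1.2 h2.1
    · exact hz.1.2 h2.1

/-- elements of a block of `D'` adjacent to a newly fixed vertex are in `newB` -/
lemma Step.mem_newB (hG : Cub G) (hT : TwF G) (h : Step G D x y u) {q t : V}
    (hq : q ∈ stab G D x) (ht : t ∈ D \ stab G D x) (hqt : G.Adj q t)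
    (h2 : ty G (stab G D x) q ≠ 2) : q ∈ newB G D x := by
  rw [mem_sdiff] at ht
  unfold newB
  rw [mem_filter]
  have h0 : ty G D q = 0 := by
    by_contra h3
    obtain ⟨v, hv, hqv⟩ := ty_pos.1 (Nat.pos_of_ne_zero h3)
    exact h.old hG hT hq hv hqv ht.1 ht.2 hqt
  refine ⟨hq, h0, ?_⟩
  have h3 := type_le_two hT hG (closed_stab D x) hq
  have h4 : 0 < ty G (stab G D x) q := ty_pos.2 ⟨t, ht.2, hqt⟩
  unfold ty at h2 h4 ⊢
  omega

/-- type one: unique outside neighbour -/
lemma ty_one_unique {E : Finset V} {q t t' : V} (h : ty G E q = 1) (ht : t ∉ E) (ht' : t' ∉ E)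
    (h1 : G.Adj q t) (h2 : G.Adj q t') : t = t' := by
  unfold ty at h
  rw [Finset.card_eq_one] at h
  obtain ⟨w, hw⟩ := h
  have e1 : t ∈ G.neighborFinset q \ E := by
    rw [mem_sdiff, SimpleGraph.mem_neighborFinset]; exact ⟨h1, ht⟩
  have e2 : t' ∈ G.neighborFinset q \ E := by
    rw [mem_sdiff, SimpleGraph.mem_neighborFinset]; exact ⟨h2, ht'⟩
  rw [hw, mem_singleton] at e1 e2
  rw [e1, e2]

/-- image of a block of `D'` under an element of `Gam G D` -/
lemma Step.block_map (hG : Cub G) (h : Step G D x y u) {L : Finset V}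
    (hL : Block G (stab G D x) L) {g : Perm V} (hg : g ∈ Gam G D) :
    Block G (stab G D x) (L.image g) := by
  refine ⟨?_, ?_, ?_⟩
  · intro z hz
    obtain ⟨w, hw, rfl⟩ := mem_image.1 hz
    exact h.inv hG hg (hL.sub hw)
  · intro k hk z hz
    obtain ⟨w, hw, rfl⟩ := mem_image.1 hz
    rw [mem_image]
    refine ⟨(g⁻¹ * k * g) w, hL.inv _ ?_ w hw, ?_⟩
    · rw [mem_Gam_stab] at hk ⊢
      refine ⟨mul_mem (mul_mem (inv_mem hg) hk.1) hg, ?_⟩
      rw [Perm.mul_apply, Perm.mul_apply]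
      have : k (g x) = g x := by
        rcases h.map hG hg with h1 | h1
        · rw [h1, hk.2]
        · rw [h1, (h.fix_iff hG hk.1).1 hk.2]
      rw [this, pinv2]
    · rw [Perm.mul_apply, Perm.mul_apply, pinv1]
  · intro z hz w hw hzw
    obtain ⟨a, ha, rfl⟩ := mem_image.1 hz
    rw [mem_image]
    refine ⟨g⁻¹ w, ?_, pinv1 _ _⟩
    apply hL.edge a ha
    · exact h.inv hG (inv_mem hg) hw
    · rw [← Gam_adj hg, pinv1]
      exact hzw

/-- A minimal block of `D'` contained in the minimal block `K ∋ x` of `D` has two boundary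
vertices among the newly fixed vertices. -/
lemma Step.two_new (hG : Cub G) (h : Step G D x y u) {K : Finset V}
    (hK : MinBlock G D K) (hxK : x ∈ K) {L : Finset V} (hL : MinBlock G (stab G D x) L)
    (hLK : L ⊆ K) : ∃ t ∈ D \ stab G D x, ∃ t' ∈ D \ stab G D x, t ≠ t' ∧
      (∃ q ∈ L, G.Adj t q) ∧ ∃ q ∈ L, G.Adj t' q := by
  classical
  obtain ⟨hLb, hLne, hLmin⟩ := hL
  -- (a)
  have ha : ∃ t ∈ D \ stab G D x, ∃ q ∈ L, G.Adj t q := by
    by_contra hno
    push Not at hno
    set M : Finset V := univ.filter (fun z => ∃ g ∈ Gam G D, ∃ q ∈ L, g q = z) with hM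
    have hMb : Block G D M := by
      refine ⟨?_, ?_, ?_⟩
      · intro z hz
        rw [hM, mem_filter] at hz
        obtain ⟨_, g, hg, q, hq, rfl⟩ := hz
        exact mem_map hg (stab_sub D x (hLb.sub hq))
      · intro k hk z hz
        rw [hM, mem_filter] at hz ⊢
        obtain ⟨_, g, hg, q, hq, rfl⟩ := hz
        exact ⟨mem_univ _, k * g, mul_mem hk hg, q, hq, rfl⟩
      · intro z hz w hw hzw
        rw [hM, mem_filter] at hz
        obtain ⟨_, g, hg, q, hq, rfl⟩ := hz
        have h1 : G.Adj q (g⁻¹ w) := by rw [← Gam_adj hg, pinv1]; exact hzw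
        have h2 : g⁻¹ w ∈ D := mem_map (inv_mem hg) hw
        by_cases h3 : g⁻¹ w ∈ stab G D x
        · have h4 := hLb.edge q hq _ h3 h1
          rw [hM, mem_filter]
          exact ⟨mem_univ _, g, hg, _, h4, pinv1 _ _⟩
        · exact absurd h1.symm (hno _ (mem_sdiff.2 ⟨h2, h3⟩) q hq)
    have hMne : M.Nonempty := by
      obtain ⟨q, hq⟩ := hLne
      exact ⟨q, by rw [hM, mem_filter]; exact ⟨mem_univ _, 1, one_mem _, q, hq, rfl⟩⟩
    have hMK : M ⊆ K := by
      intro z hz
      rw [hM, mem_filter] at hz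
      obtain ⟨_, g, hg, q, hq, rfl⟩ := hz
      exact hK.1.inv g hg q (hLK hq)
    have hMeq := hK.2.2 M hMb hMne hMK
    rw [← hMeq, hM, mem_filter] at hxK
    obtain ⟨_, g, hg, q, hq, hgq⟩ := hxK
    have h5 := h.inv hG hg (hLb.sub hq)
    rw [hgq] at h5
    exact not_mem_stab_self D x h5
  obtain ⟨t, ht, q, hq, htq⟩ := ha
  -- second boundary vertex
  have hadm' : Adm G (stab G D x) := adm_mono (stab_sub D x) h.adm
  have hb2 := two_le_bd hG hadm' (closed_stab D x) hLb hLne
  have ht' := mem_sdiff.1 ht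
  have htb : t ∈ bd G (stab G D x) L := mem_bd.2 ⟨ht'.2, q, hq, htq⟩
  obtain ⟨w, hw, hwt⟩ := Finset.exists_mem_ne (by omega : 1 < (bd G (stab G D x) L).card) t
  obtain ⟨hw1, q2, hq2, hwq2⟩ := mem_bd.1 hw
  by_cases hwD : w ∈ D
  · exact ⟨t, ht, w, mem_sdiff.2 ⟨hwD, hw1⟩, Ne.symm hwt, ⟨q, hq, htq⟩, ⟨q2, hq2, hwq2⟩⟩
  · obtain ⟨g, hg, hgt⟩ := h.cl t ht'.1
    -- `g q2 ∈ L`
    have h6 : G.Adj w (g q2) := adj_map hg hwD hwq2
    have h7 : g q2 ∈ stab G D x := h.inv hG hg (hLb.sub hq2)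
    have h8 : g q2 ∈ L := by
      by_cases h9 : g q2 = q2
      · rw [h9]; exact hq2
      · obtain ⟨r, hr, hrq, hwr, k, hk, hkq⟩ := sibling hG hadm' (closed_stab D x) hw1
          (hLb.sub hq2) hwq2
        have hrL : r ∈ L := by rw [← hkq]; exact hLb.inv k hk q2 hq2
        by_cases h10 : g q2 = r
        · rw [h10]; exact hrL
        · exact absurd (no_three hG hadm' (closed_stab D x) hw1 (hLb.sub hq2) (hLb.sub hrL) h7
            (Ne.symm hrq) (Ne.symm h9) (Ne.symm h10) hwq2 hwr h6) id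
    have h11 := (h.block_map hG hLb hg).inter hLb
    have h12 : (L.image g ∩ L).Nonempty :=
      ⟨g q2, mem_inter.2 ⟨mem_image_of_mem _ hq2, h8⟩⟩
    have h13 := hLmin _ h11 h12 inter_subset_right
    have h14 : L.image g = L := by
      symm
      apply Finset.eq_of_subset_of_card_le
      · exact Finset.inter_eq_right.1 h13
      · exact Finset.card_image_le
    have h15 : g q ∈ L := by rw [← h14]; exact mem_image_of_mem _ hq
    refine ⟨t, ht, g t, ?_, Ne.symm hgt, ⟨q, hq, htq⟩, g q, h15, (Gam_adj hg).2 htq⟩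
    rw [mem_sdiff]
    exact ⟨mem_map hg ht'.1, fun h' => ht'.2 ((h.inv_iff hG hg t).1 h')⟩

/-- hence it contains four elements of `newB` -/
lemma Step.four (hG : Cub G) (hT : TwF G) (h : Step G D x y u) {K : Finset V}
    (hK : MinBlock G D K) (hxK : x ∈ K) {L : Finset V} (hL : MinBlock G (stab G D x) L)
    (hLK : L ⊆ K) (hL2 : ∀ z ∈ L, ty G (stab G D x) z ≠ 2) : 4 ≤ (L ∩ newB G D x).card := by
  obtain ⟨t, ht, t', ht', hne, ⟨q, hq, htq⟩, ⟨q', hq', htq'⟩⟩ := h.two_new hG hK hxK hL hLK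
  obtain ⟨hLb, hLne, hLmin⟩ := hL
  have hadm' : Adm G (stab G D x) := adm_mono (stab_sub D x) h.adm
  have ht1 := mem_sdiff.1 ht
  have ht1' := mem_sdiff.1 ht'
  obtain ⟨r, hr, hrq, htr, k, hk, hkq⟩ := sibling hG hadm' (closed_stab D x) ht1.2
    (hLb.sub hq) htq
  obtain ⟨r', hr', hrq', htr', k', hk', hkq'⟩ := sibling hG hadm' (closed_stab D x) ht1'.2
    (hLb.sub hq') htq'
  have hrL : r ∈ L := by rw [← hkq]; exact hLb.inv k hk q hq
  have hrL' : r' ∈ L := by rw [← hkq']; exact hLb.inv k' hk' q' hq'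
  have hB : ∀ z ∈ L, ∀ s ∈ D \ stab G D x, G.Adj s z → z ∈ newB G D x := by
    intro z hz s hs hsz
    exact h.mem_newB hG hT (hLb.sub hz) hs hsz.symm (hL2 z hz)
  have hone : ∀ z ∈ newB G D x, ty G (stab G D x) z = 1 := by
    intro z hz
    unfold newB at hz
    rw [mem_filter] at hz
    exact hz.2.2
  have hdiff : ∀ a ∈ L, ∀ b ∈ L, G.Adj t a → G.Adj t' b → a ≠ b := by
    intro a ha b hb hta htb hab
    subst hab
    exact hne (ty_one_unique (hone a (hB a ha t ht hta)) ht1.2 ht1'.2 hta.symm htb.symm)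
  have hsub : ({q, r, q', r'} : Finset V) ⊆ L ∩ newB G D x := by
    intro z hz
    simp only [mem_insert, mem_singleton] at hz
    rw [mem_inter]
    rcases hz with rfl | rfl | rfl | rfl
    · exact ⟨hq, hB _ hq t ht htq⟩
    · exact ⟨hrL, hB _ hrL t ht htr⟩
    · exact ⟨hq', hB _ hq' t' ht' htq'⟩
    · exact ⟨hrL', hB _ hrL' t' ht' htr'⟩
  have hcard : ({q, r, q', r'} : Finset V).card = 4 := by
    rw [Finset.card_insert_of_notMem, Finset.card_insert_of_notMem, Finset.card_pair (Ne.symm hrq')]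
    · simp only [mem_insert, mem_singleton, not_or]
      exact ⟨hdiff r hrL q' hq' htr htq', hdiff r hrL r' hrL' htr htr'⟩
    · simp only [mem_insert, mem_singleton, not_or]
      exact ⟨Ne.symm hrq, hdiff q hq q' hq' htq htq', hdiff q hq r' hrL' htq htr'⟩
  rw [← hcard]
  exact Finset.card_le_card hsub

/-- a block of `D'` avoiding the block `K ∋ x` is a block of `D` -/
lemma Step.block_lift (hG : Cub G) (h : Step G D x y u) {K : Finset V}
    (hK : Block G D K) (hxK : x ∈ K) {L : Finset V} (hL : Block G (stab G D x) L)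
    (hdis : ∀ z ∈ L, z ∉ K) : Block G D L := by
  refine ⟨hL.sub.trans (stab_sub D x), ?_, ?_⟩
  · intro g hg z hz
    obtain ⟨g', hg', h1, h2⟩ := cut hK.compl hg
    have hz' : z ∈ D \ K := mem_sdiff.2 ⟨stab_sub D x (hL.sub hz), hdis z hz⟩
    rw [← h1 z hz']
    apply hL.inv g' _ z hz
    rw [mem_Gam_stab]
    exact ⟨hg', h2 x (by simp [hxK])⟩
  · intro z hz w hw hzw
    have hz' := stab_sub D x (hL.sub hz)
    by_cases hw' : w ∈ stab G D x
    · exact hL.edge z hz w hw' hzw
    · exact absurd (hK.edge w (h.new_sub hG hK hxK hw hw') z hz' hzw.symm) (hdis z hz)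

lemma Step.block_sdiff (hG : Cub G) (h : Step G D x y u) {K : Finset V}
    (hK : Block G D K) {L : Finset V} (hL : Block G (stab G D x) L) :
    Block G (stab G D x) (L \ K) := by
  refine ⟨sdiff_subset.trans hL.sub, ?_, ?_⟩
  · intro g hg z hz
    rw [mem_sdiff] at hz ⊢
    exact ⟨hL.inv g hg z hz.1, fun h' => hz.2 ((hK.mem_iff (mem_Gam_stab.1 hg).1 z).1 h')⟩
  · intro z hz w hw hzw
    rw [mem_sdiff] at hz ⊢
    refine ⟨hL.edge z hz.1 w hw hzw, fun h' => hz.2 ?_⟩
    exact hK.edge w h' z (stab_sub D x (hL.sub hz.1)) hzw.symm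

/-- validity is preserved -/
lemma Step.valid (hG : Cub G) (hT : TwF G) (h : Step G D x y u) {K T : Finset V}
    (hK : MinBlock G D K) (hxK : x ∈ K) (hV : Valid G D T) :
    Valid G (stab G D x) ((T \ K) ∪ newB G D x) := by
  intro L0 hL0 hL0ne hL02
  obtain ⟨L, hLsub, hL⟩ := exists_minBlock hL0 hL0ne
  have hL2 : ∀ z ∈ L, ty G (stab G D x) z ≠ 2 := fun z hz => hL02 z (hLsub hz)
  refine le_trans ?_ (Finset.card_le_card (inter_subset_inter_right hLsub))
  by_cases hLK : L ⊆ K
  · refine (h.four hG hT hK hxK hL hLK hL2).trans (Finset.card_le_card ?_)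
    exact inter_subset_inter_left subset_union_right
  · have h1 := h.block_sdiff hG hK.1 hL.1
    have h2 : (L \ K).Nonempty := by
      rw [Finset.sdiff_nonempty]; exact hLK
    have h3 := hL.2.2 _ h1 h2 sdiff_subset
    have hdis : ∀ z ∈ L, z ∉ K := by
      intro z hz
      rw [← h3, mem_sdiff] at hz
      exact hz.2
    have h4 := h.block_lift hG hK.1 hxK hL.1 hdis
    have h5 : ∀ z ∈ L, ty G D z = ty G (stab G D x) z := by
      intro z hz
      unfold ty
      congr 1
      ext w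
      rw [mem_sdiff, mem_sdiff]
      constructor
      · rintro ⟨a, b⟩
        exact ⟨a, fun c => b (stab_sub D x c)⟩
      · rintro ⟨a, b⟩
        refine ⟨a, fun c => ?_⟩
        rw [SimpleGraph.mem_neighborFinset] at a
        exact hdis z hz (hK.1.edge w (h.new_sub hG hK.1 hxK c b) z
          (stab_sub D x (hL.1.sub hz)) a.symm)
    have h6 := hV L h4 hL.2.1 (fun z hz => by rw [h5 z hz]; exact hL2 z hz)
    refine h6.trans (Finset.card_le_card ?_)
    intro z hz
    rw [mem_inter] at hz ⊢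
    exact ⟨hz.1, mem_union_left _ (mem_sdiff.2 ⟨hz.2, hdis z hz.1⟩)⟩

/-- the accounting for one step -/
lemma Step.count (hG : Cub G) (hT : TwF G) (hTri : TriF G) (h : Step G D x y u)
    {K T : Finset V} (hK : MinBlock G D K) (hxK : x ∈ K) (hV : Valid G D T)
    (hx : ty G D x = 2 ∨ ∀ z ∈ K, ty G D z ≠ 2) :
    4 + (ee G (stab G D x) + ((T \ K) ∪ newB G D x).card) ≤ ee G D + T.card := by
  have h1 := h.ee_split hG hT
  have h2 : ((T \ K) ∪ newB G D x).card ≤ (T \ K).card + (newB G D x).card :=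
    Finset.card_union_le _ _
  have h3 : (T \ K).card + (T ∩ K).card = T.card := Finset.card_sdiff_add_card_inter T K
  have h4 : 4 ≤ ((D \ stab G D x).filter (fun z => ty G D z ≠ 1)).card + (T ∩ K).card := by
    rcases hx with hx | hx
    · have := parity hG hTri h hx
      omega
    · have := hV K hK.1 hK.2.1 hx
      rw [inter_comm] at this
      omega
  omega

end

lemma Gam_empty : Nat.card (Gam G (∅ : Finset V)) = 1 := by
  rw [Nat.card_eq_one_iff_unique]
  refine ⟨⟨fun a b => ?_⟩, ⟨1⟩⟩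
  apply Subtype.ext
  ext z
  rw [Gam_fix a.2 (Finset.notMem_empty z), Gam_fix b.2 (Finset.notMem_empty z)]

/-- Main Lemma -/
theorem main_lemma (hG : Cub G) (hT : TwF G) (hTri : TriF G) :
    ∀ D : Finset V, Closed G D → Adm G D → ∀ T, Valid G D T →
      Nat.card (Gam G D) ^ 4 ≤ 2 ^ (ee G D + T.card) := by
  intro D
  induction D using Finset.strongInduction with
  | H D ih =>
    intro hc hD T hV
    rcases D.eq_empty_or_nonempty with rfl | hne
    · rw [Gam_empty, one_pow]
      exact Nat.one_le_two_pow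
    · obtain ⟨K, hKD, hK⟩ := exists_minBlock (Block.self (G := G) D) hne
      have hx : ∃ x ∈ K, (∃ u, u ∉ D ∧ G.Adj u x) ∧
          (ty G D x = 2 ∨ ∀ z ∈ K, ty G D z ≠ 2) := by
        by_cases h2 : ∃ z ∈ K, ty G D z = 2
        · obtain ⟨z, hz, hz2⟩ := h2
          obtain ⟨v, hv, hzv⟩ := ty_pos.1 (by omega : 0 < ty G D z)
          exact ⟨z, hz, ⟨v, hv, hzv.symm⟩, Or.inl hz2⟩
        · push Not at h2
          have h3 := two_le_bd hG hD hc hK.1 hK.2.1
          have h4 : (bd G D K).Nonempty := by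
            rw [← Finset.card_pos]; omega
          obtain ⟨v, hv⟩ := h4
          obtain ⟨hvD, q, hq, hvq⟩ := mem_bd.1 hv
          exact ⟨q, hq, ⟨v, hvD, hvq⟩, Or.inr h2⟩
      obtain ⟨x, hxK, ⟨u, hu, hux⟩, hx2⟩ := hx
      obtain ⟨y, hs⟩ := exists_step hG hD hc (hKD hxK) hu hux
      have hss : stab G D x ⊂ D := by
        rw [Finset.ssubset_iff_of_subset (stab_sub D x)]
        exact ⟨x, hs.xD, not_mem_stab_self D x⟩
      have h5 := ih _ hss (closed_stab D x) (adm_mono (stab_sub D x) hD) _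
        (hs.valid hG hT hK hxK hV)
      have h6 := hs.count hG hT hTri hK hxK hV hx2
      rw [hs.card hG, mul_pow]
      calc 2 ^ 4 * Nat.card (Gam G (stab G D x)) ^ 4
          ≤ 2 ^ 4 * 2 ^ (ee G (stab G D x) + ((T \ K) ∪ newB G D x).card) :=
            Nat.mul_le_mul_left _ h5
        _ = 2 ^ (4 + (ee G (stab G D x) + ((T \ K) ∪ newB G D x).card)) := by rw [← pow_add]
        _ ≤ 2 ^ (ee G D + T.card) := Nat.pow_le_pow_right (by norm_num) h6

end Pool.Agent.H23.Cubic
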