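import Mathlib
import Pool.Agent.H23.Cubic.Main

set_option autoImplicit false

namespace Pool.Agent.H23.Cubic

open Equiv Finset

set_option linter.unusedSectionVars false
set_option linter.unusedVariables false

variable {V : Type*} [Fintype V] [DecidableEq V] {G : SimpleGraph V} [DecidableRel G.Adj]

/-- the second neighbour in the block -/
lemma sibling_block (hG : Cub G) {D L : Finset V} (hD : Adm G D) (hc : Closed G D)
    (hL : Block G D L) {u z : V} (hu : u ∉ D) (hz : z ∈ L) (h1 : G.Adj u z) :
    ∃ y ∈ L, y ≠ z ∧ G.Adj u y := by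
  obtain ⟨y, hy, hyz, huy, g, hg, hgz⟩ := sibling hG hD hc hu (hL.sub hz) h1
  exact ⟨y, by rw [← hgz]; exact hL.inv g hg z hz, hyz, huy⟩

/-- all `D`-neighbours of `u` are in the block -/
lemma nb_block (hG : Cub G) {D L : Finset V} (hD : Adm G D) (hc : Closed G D)
    (hL : Block G D L) {u z w : V} (hu : u ∉ D) (hz : z ∈ L) (h1 : G.Adj u z) (hw : w ∈ D)
    (h2 : G.Adj u w) : w ∈ L := by
  obtain ⟨y, hy, hyz, huy⟩ := sibling_block hG hD hc hL hu hz h1
  by_cases h3 : w = z
  · rw [h3]; exact hz
  by_cases h4 : w = y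
  · rw [h4]; exact hy
  exact (no_three hG hD hc hu (hL.sub hz) (hL.sub hy) hw (Ne.symm hyz) (Ne.symm h3)
    (Ne.symm h4) h1 huy h2).elim

lemma two_mul_le (hG : Cub G) {D L S W : Finset V} (hD : Adm G D) (hc : Closed G D)
    (hL : Block G D L) (hS : ∀ s ∈ S, s ∉ D ∧ ∃ q ∈ L, G.Adj s q)
    (hW : ∀ s ∈ S, ∀ z ∈ L, G.Adj s z → z ∈ W) (hone : ∀ z ∈ L ∩ W, ty G D z ≤ 1) :
    S.card * 2 ≤ (L ∩ W).card * 1 := by
  apply Finset.card_mul_le_card_mul (r := fun a b => G.Adj a b)
  · intro s hs
    obtain ⟨hsD, q, hq, hsq⟩ := hS s hs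
    obtain ⟨y, hy, hyz, huy⟩ := sibling_block hG hD hc hL hsD hq hsq
    have : ({q, y} : Finset V) ⊆ (L ∩ W).bipartiteAbove (fun a b => G.Adj a b) s := by
      intro z hz
      simp only [mem_insert, mem_singleton] at hz
      rw [mem_bipartiteAbove, mem_inter]
      rcases hz with rfl | rfl
      · exact ⟨⟨hq, hW s hs _ hq hsq⟩, hsq⟩
      · exact ⟨⟨hy, hW s hs _ hy huy⟩, huy⟩
    have h2 := Finset.card_le_card this
    rwa [Finset.card_pair (Ne.symm hyz)] at h2
  · intro z hz
    rw [Finset.card_le_one]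
    intro a ha b hb
    rw [mem_bipartiteBelow] at ha hb
    by_contra hab
    have : ({a, b} : Finset V) ⊆ G.neighborFinset z \ D := by
      intro w hw
      simp only [mem_insert, mem_singleton] at hw
      rw [mem_sdiff, SimpleGraph.mem_neighborFinset]
      rcases hw with rfl | rfl
      · exact ⟨ha.2.symm, (hS _ ha.1).1⟩
      · exact ⟨hb.2.symm, (hS _ hb.1).1⟩
    have h2 := Finset.card_le_card this
    rw [Finset.card_pair hab] at h2
    have h3 := hone z hz
    unfold ty at h3
    omega

/-- Theorem A -/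
theorem thmA (hG : Cub G) (hT : TwF G) (hTri : TriF G) {D : Finset V} (hc : Closed G D)
    (hD : Adm G D) : Nat.card (Gam G D) ^ 4 ≤ 2 ^ D.card := by
  have hV : Valid G D (D.filter (fun z => ty G D z = 1)) := by
    intro L hL hLne hL2
    have h1 := two_le_bd hG hD hc hL hLne
    have hone : ∀ z ∈ L, ∀ s, s ∉ D → G.Adj s z → ty G D z = 1 := by
      intro z hz s hs hsz
      have h2 := type_le_two hT hG hc (hL.sub hz)
      have h3 : 0 < ty G D z := ty_pos.2 ⟨s, hs, hsz.symm⟩
      have h4 := hL2 z hz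
      unfold ty at h3 h4 ⊢
      omega
    have h2 := two_mul_le (S := bd G D L) (W := D.filter (fun z => ty G D z = 1)) hG hD hc hL
      (fun s hs => mem_bd.1 hs)
      (fun s hs z hz hsz => by
        rw [mem_filter]
        exact ⟨hL.sub hz, hone z hz s (mem_bd.1 hs).1 hsz⟩)
      (fun z hz => by
        rw [mem_inter, mem_filter] at hz
        exact hz.2.2.le)
    omega
  have h := main_lemma hG hT hTri D hc hD _ hV
  have h2 : ee G D + (D.filter (fun z => ty G D z = 1)).card = D.card := by
    unfold ee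
    rw [add_comm]
    exact Finset.card_filter_add_card_filter_not (fun z => ty G D z = 1)
  rwa [h2] at h

/-- no 4-cycle -/
def C4F (G : SimpleGraph V) : Prop :=
  ∀ a b c d, a ≠ c → b ≠ d → G.Adj a b → G.Adj b c → G.Adj c d → G.Adj d a → False

lemma ty_le_one (hG : Cub G) (hC : C4F G) {D : Finset V} (hc : Closed G D) {z : V}
    (hz : z ∈ D) : ty G D z ≤ 1 := by
  unfold ty
  rw [Finset.card_le_one]
  intro a ha b hb
  rw [mem_sdiff, SimpleGraph.mem_neighborFinset] at ha hb
  by_contra hab
  obtain ⟨g, hg, hgz⟩ := hc z hz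
  exact hC z a (g z) b (Ne.symm hgz) hab ha.1 ((Gam_adj_fix hg ha.2).2 ha.1).symm
    ((Gam_adj_fix hg hb.2).2 hb.1) hb.1.symm

/-- structure of a tight step -/
lemma tight_step (hG : Cub G) (hT : TwF G) (hTri : TriF G) (hC : C4F G) {D : Finset V}
    {x y u : V} (h : Step G D x y u) (hmin : MinBlock G D D)
    (htight : Nat.card (Gam G D) ^ 4 = 2 ^ (ee G D + 4))
    (hne : (stab G D x).Nonempty) :
    MinBlock G (stab G D x) (stab G D x) ∧
    Nat.card (Gam G (stab G D x)) ^ 4 = 2 ^ (ee G (stab G D x) + 4) ∧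
    (∀ z ∈ D, z ∉ stab G D x → z = x ∨ z = y) ∧ D.card = (stab G D x).card + 2 ∧
    (∃ q ∈ stab G D x, G.Adj x q) := by
  classical
  have hadm' : Adm G (stab G D x) := adm_mono (stab_sub D x) h.adm
  have hcl' := closed_stab (G := G) D x
  -- four elements of type one in D
  have h4 : 4 ≤ (D ∩ D.filter (fun z => ty G D z = 1)).card := by
    have h1 := two_le_bd hG h.adm h.cl (Block.self D) hmin.2.1
    have h2 := two_mul_le (S := bd G D D) (W := D.filter (fun z => ty G D z = 1)) hG h.adm h.cl
      (Block.self D) (fun s hs => mem_bd.1 hs)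
      (fun s hs z hz hsz => by
        rw [mem_filter]
        refine ⟨hz, ?_⟩
        have h2 := ty_le_one hG hC h.cl hz
        have h3 : 0 < ty G D z := ty_pos.2 ⟨s, (mem_bd.1 hs).1, hsz.symm⟩
        omega)
      (fun z hz => by
        rw [mem_inter, mem_filter] at hz
        exact hz.2.2.le)
    omega
  obtain ⟨T, hTsub, hTcard⟩ := Finset.exists_subset_card_eq h4
  have hTD : T ⊆ D := hTsub.trans inter_subset_left
  have hVT : Valid G D T := by
    intro L hL hLne _
    rw [hmin.2.2 L hL hLne hL.sub, Finset.inter_eq_right.2 hTD, hTcard]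
  have hV' := h.valid hG hT hmin h.xD hVT
  have hTD' : T \ D = ∅ := Finset.sdiff_eq_empty_iff_subset.2 hTD
  rw [hTD', Finset.empty_union] at hV'
  have hm := main_lemma hG hT hTri _ hcl' hadm' _ hV'
  have hsplit := h.ee_split hG hT
  have hcard := h.card hG
  have hm2 : Nat.card (Gam G (stab G D x)) ^ 4 = 2 ^ ee G D := by
    have h5 : 2 ^ 4 * Nat.card (Gam G (stab G D x)) ^ 4 = 2 ^ 4 * 2 ^ ee G D := by
      rw [← mul_pow, ← hcard, htight, pow_add, mul_comm]
    exact Nat.eq_of_mul_eq_mul_left (by norm_num) h5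
  have hle : ee G D ≤ ee G (stab G D x) + (newB G D x).card := by
    rw [hm2] at hm
    exact (Nat.pow_le_pow_iff_right (by norm_num)).1 hm
  have heN : ((D \ stab G D x).filter (fun z => ty G D z ≠ 1)).card = 0 := by omega
  have heq : ee G D = ee G (stab G D x) + (newB G D x).card := by omega
  have hone : ∀ z ∈ D \ stab G D x, ty G D z = 1 := by
    intro z hz
    by_contra hne
    rw [Finset.card_eq_zero] at heN
    have : z ∈ (D \ stab G D x).filter (fun z => ty G D z ≠ 1) := mem_filter.2 ⟨hz, hne⟩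
    rw [heN] at this
    exact Finset.notMem_empty z this
  -- a minimal block with at most four elements of `newB`
  have hex : ∃ L, MinBlock G (stab G D x) L ∧ (L ∩ newB G D x).card ≤ 4 := by
    by_contra hno
    push Not at hno
    obtain ⟨L, hLs, hL⟩ := exists_minBlock (Block.self (G := G) (stab G D x)) hne
    have h5 := hno L hL
    have h6 : (L ∩ newB G D x).Nonempty := by rw [← Finset.card_pos]; omega
    obtain ⟨b, hb⟩ := h6
    have hbB := (mem_inter.1 hb).2
    have hV2 : Valid G (stab G D x) ((newB G D x).erase b) := by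
      intro L0 hL0 hL0ne _
      obtain ⟨L1, hL1s, hL1⟩ := exists_minBlock hL0 hL0ne
      have h7 := hno L1 hL1
      have h8 : (L1 ∩ newB G D x).erase b ⊆ L0 ∩ (newB G D x).erase b := by
        intro z hz
        rw [mem_erase, mem_inter] at hz
        rw [mem_inter, mem_erase]
        exact ⟨hL1s hz.2.1, hz.1, hz.2.2⟩
      have h9 := Finset.card_le_card h8
      have h10 := Finset.pred_card_le_card_erase (s := L1 ∩ newB G D x) (a := b)
      omega
    have h11 := main_lemma hG hT hTri _ hcl' hadm' _ hV2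
    rw [hm2, Nat.pow_le_pow_iff_right (by norm_num), Finset.card_erase_of_mem hbB] at h11
    have : 0 < (newB G D x).card := Finset.card_pos.2 ⟨b, hbB⟩
    omega
  obtain ⟨L, hL, hL4⟩ := hex
  have hLD : L ⊆ D := hL.1.sub.trans (stab_sub D x)
  obtain ⟨t, ht, t', ht', htt', htq, htq'⟩ := h.two_new hG hmin h.xD hL hLD
  set S : Finset V := (bd G (stab G D x) L) ∩ (D \ stab G D x) with hS
  have hSle : S.card ≤ 2 := by
    have h2 := two_mul_le (S := S) (W := newB G D x) hG hadm' hcl' hL.1
      (fun s hs => by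
        rw [hS, mem_inter] at hs
        exact mem_bd.1 hs.1)
      (fun s hs z hz hsz => by
        rw [hS, mem_inter] at hs
        refine h.mem_newB hG hT (hL.1.sub hz) hs.2 hsz.symm ?_
        have := ty_le_one hG hC hcl' (hL.1.sub hz)
        omega)
      (fun z hz => ty_le_one hG hC hcl' (hL.1.sub (mem_inter.1 hz).1))
    omega
  have htS : t ∈ S := by
    rw [hS, mem_inter]
    exact ⟨mem_bd.2 ⟨(mem_sdiff.1 ht).2, htq⟩, ht⟩
  have htS' : t' ∈ S := by
    rw [hS, mem_inter]
    exact ⟨mem_bd.2 ⟨(mem_sdiff.1 ht').2, htq'⟩, ht'⟩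
  -- third boundary vertex
  have hVD : 3 ≤ (univ \ stab G D x).card := by
    obtain ⟨v, w, hv, hw, hvw⟩ := h.adm
    have h5 : ({v, w, x} : Finset V) ⊆ univ \ stab G D x := by
      intro z hz
      simp only [mem_insert, mem_singleton] at hz
      rw [mem_sdiff]
      refine ⟨mem_univ _, ?_⟩
      rcases hz with rfl | rfl | rfl
      · exact fun h' => hv (stab_sub D x h')
      · exact fun h' => hw (stab_sub D x h')
      · exact not_mem_stab_self D _
    have h6 := Finset.card_le_card h5
    rwa [Finset.card_eq_three.mpr ⟨v, w, x, hvw.ne, fun h' => hv (h' ▸ h.xD),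
      fun h' => hw (h' ▸ h.xD), rfl⟩] at h6
  have hbd3 := three_le_bd hG hadm' hcl' hL.1 hL.2.1 hVD
  have hex2 : ∃ w ∈ bd G (stab G D x) L, w ∉ S := by
    by_contra hno
    push Not at hno
    have := Finset.card_le_card (show bd G (stab G D x) L ⊆ S from hno)
    omega
  obtain ⟨w, hw, hwS⟩ := hex2
  obtain ⟨hwst, q2, hq2, hwq2⟩ := mem_bd.1 hw
  have hwD : w ∉ D := by
    intro hwD
    apply hwS
    rw [hS, mem_inter]
    exact ⟨hw, mem_sdiff.2 ⟨hwD, hwst⟩⟩
  have hLinv : ∀ g ∈ Gam G D, L.image g = L := by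
    intro g hg
    have h6 : G.Adj w (g q2) := adj_map hg hwD hwq2
    have h7 : g q2 ∈ stab G D x := h.inv hG hg (hL.1.sub hq2)
    have h8 : g q2 ∈ L := nb_block hG hadm' hcl' hL.1 hwst hq2 hwq2 h7 h6
    have h11 := (h.block_map hG hL.1 hg).inter hL.1
    have h12 : (L.image g ∩ L).Nonempty :=
      ⟨g q2, mem_inter.2 ⟨mem_image_of_mem _ hq2, h8⟩⟩
    have h13 := hL.2.2 _ h11 h12 inter_subset_right
    symm
    apply Finset.eq_of_subset_of_card_le
    · exact Finset.inter_eq_right.1 h13
    · exact Finset.card_image_le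
  have hLinv' : ∀ g ∈ Gam G D, ∀ q ∈ L, g q ∈ L := by
    intro g hg q hq
    rw [← hLinv g hg]
    exact mem_image_of_mem _ hq
  have hblock : Block G D (L ∪ S) := by
    refine ⟨?_, ?_, ?_⟩
    · apply Finset.union_subset hLD
      intro z hz
      rw [hS, mem_inter] at hz
      exact (mem_sdiff.1 hz.2).1
    · intro g hg z hz
      rw [mem_union] at hz ⊢
      rcases hz with hz | hz
      · exact Or.inl (hLinv' g hg z hz)
      · right
        rw [hS, mem_inter, mem_sdiff] at hz ⊢
        obtain ⟨h1, h2, h3⟩ := hz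
        obtain ⟨_, q, hq, hzq⟩ := mem_bd.1 h1
        have h5 : g z ∉ stab G D x := fun h' => h3 ((h.inv_iff hG hg z).1 h')
        exact ⟨mem_bd.2 ⟨h5, g q, hLinv' g hg q hq, (Gam_adj hg).2 hzq⟩, mem_map hg h2, h5⟩
    · intro z hz w' hw' hzw
      rw [mem_union] at hz ⊢
      rcases hz with hz | hz
      · by_cases hw2 : w' ∈ stab G D x
        · exact Or.inl (hL.1.edge z hz w' hw2 hzw)
        · right
          rw [hS, mem_inter, mem_sdiff]
          exact ⟨mem_bd.2 ⟨hw2, z, hz, hzw.symm⟩, hw', hw2⟩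
      · left
        rw [hS, mem_inter] at hz
        obtain ⟨hzst, q, hq, hzq⟩ := mem_bd.1 hz.1
        obtain ⟨r, hr, hrq, hzr⟩ := sibling_block hG hadm' hcl' hL.1 hzst hq hzq
        have h5 := ty_add hG D z
        rw [hone z hz.2] at h5
        have h6 : ({q, r} : Finset V) ⊆ G.neighborFinset z ∩ D := by
          intro c hc
          simp only [mem_insert, mem_singleton] at hc
          rw [mem_inter, SimpleGraph.mem_neighborFinset]
          rcases hc with rfl | rfl
          · exact ⟨hzq, hLD hq⟩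
          · exact ⟨hzr, hLD hr⟩
        have h7 : ({q, r} : Finset V) = G.neighborFinset z ∩ D := by
          apply Finset.eq_of_subset_of_card_le h6
          rw [Finset.card_pair (Ne.symm hrq)]
          omega
        have h8 : w' ∈ G.neighborFinset z ∩ D := by
          rw [mem_inter, SimpleGraph.mem_neighborFinset]; exact ⟨hzw, hw'⟩
        rw [← h7] at h8
        simp only [mem_insert, mem_singleton] at h8
        rcases h8 with rfl | rfl
        · exact hq
        · exact hr
  have hLS : L ∪ S = D := hmin.2.2 _ hblock (hL.2.1.mono subset_union_left) hblock.sub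
  have hstL : stab G D x = L := by
    apply subset_antisymm _ hL.1.sub
    intro z hz
    have : z ∈ L ∪ S := by rw [hLS]; exact stab_sub D x hz
    rw [mem_union] at this
    rcases this with h5 | h5
    · exact h5
    · rw [hS, mem_inter, mem_sdiff] at h5
      exact absurd hz h5.2.2
  have hNS : D \ stab G D x ⊆ S := by
    intro z hz
    have : z ∈ L ∪ S := by rw [hLS]; exact (mem_sdiff.1 hz).1
    rw [mem_union] at this
    rcases this with h5 | h5
    · rw [← hstL] at h5
      exact absurd h5 (mem_sdiff.1 hz).2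
    · exact h5
  have hxy : ({x, y} : Finset V) ⊆ D \ stab G D x := by
    intro z hz
    simp only [mem_insert, mem_singleton] at hz
    rcases hz with rfl | rfl
    · exact h.x_new hG
    · exact h.y_new hG
  have hNxy : ({x, y} : Finset V) = D \ stab G D x := by
    apply Finset.eq_of_subset_of_card_le hxy
    rw [Finset.card_pair h.ne]
    exact (Finset.card_le_card hNS).trans hSle
  have hBle : (newB G D x).card ≤ 4 := by
    have : newB G D x ⊆ L ∩ newB G D x := by
      intro z hz
      rw [mem_inter]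
      refine ⟨?_, hz⟩
      rw [← hstL]
      unfold newB at hz
      exact (mem_filter.1 hz).1
    exact (Finset.card_le_card this).trans hL4
  have hBge : 4 ≤ (newB G D x).card := by
    have h5 := h.four hG hT hmin h.xD hL hLD (fun z hz => by
      have := ty_le_one hG hC hcl' (hL.1.sub hz)
      omega)
    exact h5.trans (Finset.card_le_card inter_subset_right)
  refine ⟨?_, ?_, ?_, ?_, ?_⟩
  · rw [hstL] at hL ⊢
    exact hL
  · rw [hm2]
    congr 1
    omega
  · intro z hz hz'
    have : z ∈ ({x, y} : Finset V) := by rw [hNxy]; exact mem_sdiff.2 ⟨hz, hz'⟩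
    simpa using this
  · have h5 := Finset.card_sdiff_add_card_eq_card (stab_sub (G := G) D x)
    rw [← hNxy, Finset.card_pair h.ne] at h5
    omega
  · have : x ∈ S := hNS (h.x_new hG)
    rw [hS, mem_inter] at this
    obtain ⟨_, q, hq, hxq⟩ := mem_bd.1 this.1
    exact ⟨q, hL.1.sub hq, hxq⟩

end Pool.Agent.H23.Cubic
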