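import Mathlib
import Pool.Agent.H23.Cubic.Tight

set_option autoImplicit false

namespace Pool.Agent.H23.Cubic

open Equiv Finset

set_option linter.unusedSectionVars false
set_option linter.unusedVariables false

variable {V : Type*} [Fintype V] [DecidableEq V] {G : SimpleGraph V} [DecidableRel G.Adj]

/-- The end of the tight descent. `E = D'`, `Gam G E = {1,h}`. -/
lemma tight_end (hG : Cub G) (hC : C4F G) {D : Finset V}
    {x y u : V} (h : Step G D x y u) (hmin : MinBlock G (stab G D x) (stab G D x))
    (hone : ∀ z ∈ stab G D x, ty G (stab G D x) z = 1)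
    (hxy : ∀ z ∈ D, z ∉ stab G D x → z = x ∨ z = y)
    (hq : ∃ q ∈ stab G D x, G.Adj x q)
    {k : Perm V} (hk : k ∈ Gam G (stab G D x)) (hk2 : ∀ g ∈ Gam G (stab G D x), g = 1 ∨ g = k)
    (hkk : ∀ z, k (k z) = z) :
    (stab G D x).card ≤ 8 := by
  classical
  set E := stab G D x with hE
  have hadm' : Adm G E := adm_mono (stab_sub D x) h.adm
  have hcl' : Closed G E := closed_stab (G := G) D x
  have hkx : k x = x := (mem_Gam_stab.1 hk).2
  have hkD : k ∈ Gam G D := (mem_Gam_stab.1 hk).1
  have hky : k y = y := (h.fix_iff hG hkD).1 hkx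
  have hkm : ∀ z ∈ E, k z ≠ z := by
    intro z hz
    obtain ⟨g, hg, hgz⟩ := hcl' z hz
    rcases hk2 g hg with rfl | rfl
    · exact absurd rfl hgz
    · exact hgz
  have hxE : x ∉ E := not_mem_stab_self D x
  have hyE : y ∉ E := h.y_not_mem hG
  have huE : u ∉ E := fun h' => h.uD (stab_sub D x h')
  have hxu : x ≠ u := fun h' => h.uD (h' ▸ h.xD)
  have hyu : y ≠ u := fun h' => h.uD (h' ▸ h.yD)
  have hEtwo : ∀ z ∈ E, (G.neighborFinset z ∩ E).card = 2 := by
    intro z hz
    have h1 := ty_add hG E z
    rw [hone z hz] at h1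
    omega
  set W : Finset V := E.filter (fun z => G.Adj x z ∨ G.Adj y z) with hW
  -- |W| ≤ 4
  have hWle : W.card ≤ 4 := by
    have h1 : W ⊆ (G.neighborFinset x).erase u ∪ (G.neighborFinset y).erase u := by
      intro z hz
      rw [hW, mem_filter] at hz
      have hzu : z ≠ u := fun h' => huE (h' ▸ hz.1)
      rw [mem_union, mem_erase, mem_erase, SimpleGraph.mem_neighborFinset,
        SimpleGraph.mem_neighborFinset]
      rcases hz.2 with h2 | h2
      · exact Or.inl ⟨hzu, h2⟩
      · exact Or.inr ⟨hzu, h2⟩
    have h2 := (Finset.card_le_card h1).trans (Finset.card_union_le _ _)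
    have h3 : ((G.neighborFinset x).erase u).card = 2 := by
      rw [Finset.card_erase_of_mem (by rw [SimpleGraph.mem_neighborFinset]; exact h.ux.symm),
        hG.deg]
    have h4 : ((G.neighborFinset y).erase u).card = 2 := by
      rw [Finset.card_erase_of_mem (by rw [SimpleGraph.mem_neighborFinset]; exact h.uy.symm),
        hG.deg]
    omega
  -- claim
  have hclaim : ∀ a ∈ E, a ∉ W → ∀ a1 ∈ E, G.Adj a a1 → a1 ∈ W := by
    intro a ha haW a1 ha1 haa1
    by_contra ha1W
    -- outside neighbours
    obtain ⟨v, hv, hav⟩ := ty_pos.1 (by rw [hone a ha]; norm_num : 0 < ty G E a)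
    obtain ⟨v1, hv1, hav1⟩ := ty_pos.1 (by rw [hone a1 ha1]; norm_num : 0 < ty G E a1)
    have hvD : v ∉ D := by
      intro hvD
      rcases hxy v hvD hv with rfl | rfl
      · exact haW (by rw [hW, mem_filter]; exact ⟨ha, Or.inl hav.symm⟩)
      · exact haW (by rw [hW, mem_filter]; exact ⟨ha, Or.inr hav.symm⟩)
    have hv1D : v1 ∉ D := by
      intro hvD
      rcases hxy v1 hvD hv1 with rfl | rfl
      · exact ha1W (by rw [hW, mem_filter]; exact ⟨ha1, Or.inl hav1.symm⟩)
      · exact ha1W (by rw [hW, mem_filter]; exact ⟨ha1, Or.inr hav1.symm⟩)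
    -- the swapping element fixing a
    obtain ⟨g0, hg0, hg0x⟩ := h.exists_swap hG
    have hpair : ∀ z ∈ E, ∀ s, s ∉ D → G.Adj z s → ∀ g ∈ Gam G D, g z = z ∨ g z = k z := by
      intro z hz s hs hzs g hg
      exact pair_map hG h.adm h.cl hs (stab_sub D x hz) (stab_sub D x (mem_map hk hz))
        (Ne.symm (hkm z hz)) hzs.symm (adj_map hkD hs hzs.symm) hg
    have hexg : ∃ g ∈ Gam G D, g x = y ∧ g a = a := by
      rcases hpair a ha v hvD hav g0 hg0 with h1 | h1
      · exact ⟨g0, hg0, hg0x, h1⟩
      · refine ⟨k * g0, mul_mem hkD hg0, ?_, ?_⟩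
        · rw [Perm.mul_apply, hg0x, hky]
        · rw [Perm.mul_apply, h1, hkk]
    obtain ⟨g, hg, hgx, hga⟩ := hexg
    have hgE : ∀ z ∈ E, g z ∈ E := fun z hz => h.inv hG hg hz
    have hga1 : g a1 = a1 := by
      rcases hpair a1 ha1 v1 hv1D hav1 g hg with h1 | h1
      · exact h1
      · exfalso
        have h2 : G.Adj a (k a1) := by
          have := (Gam_adj hg).2 haa1
          rwa [hga, h1] at this
        exact hC a a1 v1 (k a1) (fun h' => hv1 (h' ▸ ha)) (Ne.symm (hkm a1 ha1)) haa1 hav1
          (adj_map hkD hv1D hav1.symm) h2.symm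
    set Y : Finset V := E.filter (fun z => g z = z ∧ ∃ z1 ∈ E, G.Adj z z1 ∧ g z1 = z1) with hY
    have haY : a ∈ Y := by
      rw [hY, mem_filter]
      exact ⟨ha, hga, a1, ha1, haa1, hga1⟩
    have hYcl : ∀ z ∈ Y, ∀ w ∈ E, G.Adj z w → w ∈ Y := by
      intro z hz w hw hzw
      rw [hY, mem_filter] at hz
      obtain ⟨hzE, hgz, z1, hz1, hzz1, hgz1⟩ := hz
      by_cases hwz1 : w = z1
      · rw [hY, mem_filter]
        refine ⟨hw, ?_, z, hzE, hzw.symm, hgz⟩
        rw [hwz1, hgz1]
      · have h1 : ({z1, w} : Finset V) ⊆ G.neighborFinset z ∩ E := by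
          intro c hc
          simp only [mem_insert, mem_singleton] at hc
          rw [mem_inter, SimpleGraph.mem_neighborFinset]
          rcases hc with rfl | rfl
          · exact ⟨hzz1, hz1⟩
          · exact ⟨hzw, hw⟩
        have h2 : ({z1, w} : Finset V) = G.neighborFinset z ∩ E := by
          apply Finset.eq_of_subset_of_card_le h1
          rw [hEtwo z hzE, Finset.card_pair (Ne.symm hwz1)]
        have h3 : g w ∈ G.neighborFinset z ∩ E := by
          rw [mem_inter, SimpleGraph.mem_neighborFinset]
          refine ⟨?_, hgE w hw⟩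
          have := (Gam_adj hg).2 hzw
          rwa [hgz] at this
        rw [← h2] at h3
        simp only [mem_insert, mem_singleton] at h3
        have h4 : g w = w := by
          rcases h3 with h3 | h3
          · exact absurd (g.injective (h3.trans hgz1.symm)) hwz1
          · exact h3
        rw [hY, mem_filter]
        exact ⟨hw, h4, z, hzE, hzw.symm, hgz⟩
    have hblock : Block G E (Y ∪ Y.image k) := by
      refine ⟨?_, ?_, ?_⟩
      · apply Finset.union_subset (Finset.filter_subset _ _)
        intro z hz
        obtain ⟨w, hw, rfl⟩ := mem_image.1 hz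
        exact mem_map hk (mem_filter.1 hw).1
      · intro g' hg' z hz
        rcases hk2 g' hg' with rfl | rfl
        · exact hz
        · rw [mem_union] at hz ⊢
          rcases hz with hz | hz
          · exact Or.inr (mem_image_of_mem _ hz)
          · obtain ⟨w, hw, rfl⟩ := mem_image.1 hz
            left
            rw [hkk]; exact hw
      · intro z hz w hw hzw
        rw [mem_union] at hz ⊢
        rcases hz with hz | hz
        · exact Or.inl (hYcl z hz w hw hzw)
        · obtain ⟨z0, hz0, rfl⟩ := mem_image.1 hz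
          right
          have h1 : G.Adj z0 (k w) := by
            have := (Gam_adj hk).2 hzw
            rwa [hkk] at this
          have h2 := hYcl z0 hz0 (k w) (mem_map hk hw) h1
          rw [mem_image]
          exact ⟨k w, h2, hkk w⟩
    have hYE : Y ∪ Y.image k = E :=
      hmin.2.2 _ hblock ⟨a, mem_union_left _ haY⟩ hblock.sub
    obtain ⟨q, hqE, hxq⟩ := hq
    have hq' : ∃ q' ∈ Y, G.Adj x q' := by
      have : q ∈ Y ∪ Y.image k := by rw [hYE]; exact hqE
      rw [mem_union] at this
      rcases this with h1 | h1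
      · exact ⟨q, h1, hxq⟩
      · obtain ⟨w, hw, hwq⟩ := mem_image.1 h1
        refine ⟨w, hw, ?_⟩
        rw [← hwq] at hxq
        have := (Gam_adj hk).2 hxq
        rwa [hkx, hkk] at this
    obtain ⟨q', hq'Y, hxq'⟩ := hq'
    rw [hY, mem_filter] at hq'Y
    have hyq' : G.Adj y q' := by
      have := (Gam_adj hg).2 hxq'
      rwa [hgx, hq'Y.2.1] at this
    exact hC x u y q' h.ne (fun h' => huE (h' ▸ hq'Y.1)) h.ux.symm h.uy hyq' hxq'.symm
  -- counting
  have hcount : (E \ W).card * 2 ≤ W.card * 2 := by
    apply Finset.card_mul_le_card_mul (r := fun a b => G.Adj a b)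
    · intro a ha
      rw [mem_sdiff] at ha
      have h1 : G.neighborFinset a ∩ E ⊆ W.bipartiteAbove (fun a b => G.Adj a b) a := by
        intro z hz
        rw [mem_inter, SimpleGraph.mem_neighborFinset] at hz
        rw [mem_bipartiteAbove]
        exact ⟨hclaim a ha.1 ha.2 z hz.2 hz.1, hz.1⟩
      have h2 := Finset.card_le_card h1
      rwa [hEtwo a ha.1] at h2
    · intro b hb
      have hbE : b ∈ E := (mem_filter.1 hb).1
      have h1 : (E \ W).bipartiteBelow (fun a b => G.Adj a b) b ⊆ G.neighborFinset b ∩ E := by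
        intro z hz
        rw [mem_bipartiteBelow, mem_sdiff] at hz
        rw [mem_inter, SimpleGraph.mem_neighborFinset]
        exact ⟨hz.2.symm, hz.1.1⟩
      have h2 := Finset.card_le_card h1
      rwa [hEtwo b hbE] at h2
  have hWE : W ⊆ E := Finset.filter_subset _ _
  have := Finset.card_sdiff_add_card_eq_card hWE
  omega

/-- Lemma T -/
theorem lemmaT (hG : Cub G) (hT : TwF G) (hTri : TriF G) (hC : C4F G) :
    ∀ D : Finset V, Closed G D → Adm G D → MinBlock G D D →
      Nat.card (Gam G D) ^ 4 = 2 ^ (ee G D + 4) → 4 ≤ Nat.card (Gam G D) →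
      ∃ i, Nat.card (Gam G D) = 2 ^ i ∧ D.card ≤ 2 * i + 6 := by
  classical
  intro D
  induction D using Finset.strongInduction with
  | H D ih =>
    intro hc hD hmin htight h4
    -- pick a step
    have h3 := two_le_bd hG hD hc hmin.1 hmin.2.1
    have h5 : (bd G D D).Nonempty := by
      rw [← Finset.card_pos]; omega
    obtain ⟨u, hu⟩ := h5
    obtain ⟨huD, x, hx, hux⟩ := mem_bd.1 hu
    obtain ⟨y, hs⟩ := exists_step hG hD hc hx huD hux
    have hcard := hs.card hG
    have h2 : 2 ≤ Nat.card (Gam G (stab G D x)) := by omega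
    have hne : (stab G D x).Nonempty := by
      rw [Finset.nonempty_iff_ne_empty]
      intro he
      rw [he, Gam_empty] at h2
      omega
    obtain ⟨hmin', htight', hxy, hDc, hq⟩ := tight_step hG hT hTri hC hs hmin htight hne
    have hss : stab G D x ⊂ D := by
      rw [Finset.ssubset_iff_of_subset (stab_sub D x)]
      exact ⟨x, hs.xD, not_mem_stab_self D x⟩
    by_cases h6 : 4 ≤ Nat.card (Gam G (stab G D x))
    · obtain ⟨i, hi, hi2⟩ := ih _ hss (closed_stab D x) (adm_mono (stab_sub D x) hD) hmin'
        htight' h6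
      refine ⟨i + 1, ?_, ?_⟩
      · rw [hcard, hi, pow_succ]; ring
      · omega
    · have h7 : Nat.card (Gam G (stab G D x)) = 2 := by
        have h8 : Nat.card (Gam G (stab G D x)) = 2 ∨ Nat.card (Gam G (stab G D x)) = 3 := by
          omega
        rcases h8 with h8 | h8
        · exact h8
        · exfalso
          rw [h8, pow_add] at htight'
          have : (3 : ℕ) ^ 4 % 2 = (2 ^ ee G (stab G D x) * 2 ^ 4) % 2 := by rw [htight']
          norm_num [Nat.mul_mod] at this
      have hee : ee G (stab G D x) = 0 := by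
        rw [h7] at htight'
        have := (Nat.pow_right_injective (le_refl 2)) htight'
        omega
      have hone : ∀ z ∈ stab G D x, ty G (stab G D x) z = 1 := by
        intro z hz
        by_contra hne
        unfold ee at hee
        rw [Finset.card_eq_zero] at hee
        have : z ∈ (stab G D x).filter (fun z => ty G (stab G D x) z ≠ 1) :=
          mem_filter.2 ⟨hz, hne⟩
        rw [hee] at this
        exact Finset.notMem_empty z this
      -- the nontrivial element
      obtain ⟨z, hz⟩ := hne
      obtain ⟨k, hk, hkz⟩ := closed_stab (G := G) D x z hz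
      have hk1 : k ≠ 1 := by
        rintro rfl
        exact hkz rfl
      have hk2 : ∀ g ∈ Gam G (stab G D x), g = 1 ∨ g = k := by
        intro g hg
        by_contra hno
        push Not at hno
        have h9 : ∃ s : Finset (Gam G (stab G D x)), s.card = 3 := by
          refine ⟨{⟨1, one_mem _⟩, ⟨k, hk⟩, ⟨g, hg⟩}, ?_⟩
          rw [Finset.card_eq_three]
          refine ⟨_, _, _, ?_, ?_, ?_, rfl⟩
          · intro h; exact hk1 (congrArg Subtype.val h).symm
          · intro h; exact hno.1 (congrArg Subtype.val h).symm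
          · intro h; exact hno.2 (congrArg Subtype.val h).symm
        obtain ⟨s, hs3⟩ := h9
        have h10 : s.card ≤ Nat.card (Gam G (stab G D x)) := by
          rw [Nat.card_eq_fintype_card]
          exact Finset.card_le_univ s
        omega
      have hkk : ∀ z, k (k z) = z := by
        intro w
        rcases hk2 (k * k) (mul_mem hk hk) with h9 | h9
        · have := congrArg (fun p : Perm V => p w) h9
          simpa using this
        · exfalso
          apply hk1
          have : k * k = k * 1 := by rw [h9, mul_one]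
          exact mul_left_cancel this
      have h8 := tight_end hG hC hs hmin' hone hxy hq hk hk2 hkk
      refine ⟨2, ?_, ?_⟩
      · rw [hcard, h7]; norm_num
      · omega

end Pool.Agent.H23.Cubic
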