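import Mathlib
import Pool.Agent.H23.Cubic.LemmaT

set_option autoImplicit false

namespace Pool.Agent.H23.Cubic

open Equiv Finset

set_option linter.unusedSectionVars false
set_option linter.unusedVariables false

variable {V : Type*} [Fintype V] [DecidableEq V] {G : SimpleGraph V} [DecidableRel G.Adj]

/-- the vertices moved by the stabilizer of `v` and `w` -/
noncomputable def D2 (G : SimpleGraph V) (v w : V) : Finset V := stab G (stab G univ v) w

lemma mem_Gam_D2 {v w : V} {g : Perm V} :
    g ∈ Gam G (D2 G v w) ↔ g ∈ Gam G univ ∧ g v = v ∧ g w = w := by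
  unfold D2
  rw [mem_Gam_stab, mem_Gam_stab]
  tauto

lemma v_notin_D2 (v w : V) : v ∉ D2 G v w :=
  fun h => not_mem_stab_self univ v (stab_sub _ _ h)

lemma w_notin_D2 (v w : V) : w ∉ D2 G v w := not_mem_stab_self _ w

lemma closed_D2 (v w : V) : Closed G (D2 G v w) := closed_stab _ _

lemma adm_D2 {v w : V} (h : G.Adj v w) : Adm G (D2 G v w) :=
  ⟨v, w, v_notin_D2 v w, w_notin_D2 v w, h⟩

lemma card_D2_le {v w : V} (h : G.Adj v w) : (D2 G v w).card + 2 ≤ Fintype.card V := by
  have h1 : D2 G v w ⊆ (univ.erase v).erase w := by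
    intro z hz
    rw [mem_erase, mem_erase]
    refine ⟨?_, ?_, mem_univ _⟩
    · rintro rfl; exact w_notin_D2 _ _ hz
    · rintro rfl; exact v_notin_D2 _ _ hz
  have h2 := Finset.card_le_card h1
  have h3 : ((univ.erase v).erase w).card + 2 = Fintype.card V := by
    rw [Finset.card_erase_of_mem (by rw [mem_erase]; exact ⟨h.ne.symm, mem_univ _⟩),
      Finset.card_erase_of_mem (mem_univ _), Finset.card_univ]
    have : 2 ≤ Fintype.card V := by
      have h4 : ({v, w} : Finset V).card ≤ Fintype.card V := Finset.card_le_univ _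
      rwa [Finset.card_pair h.ne] at h4
    omega
  omega

/-- local transitivity -/
def LT (G : SimpleGraph V) (v : V) : Prop :=
  ∀ w w', G.Adj v w → G.Adj v w' → ∃ g ∈ Gam G univ, g v = v ∧ g w = w'

/-- vertex-transitive -/
def VT (G : SimpleGraph V) : Prop := ∀ v w, ∃ g ∈ Gam G univ, g v = w

lemma mem_orb_stab {v w z : V} : z ∈ orb G (stab G univ v) w ↔
    ∃ g ∈ Gam G univ, g v = v ∧ g w = z := by
  rw [mem_orb]
  constructor
  · rintro ⟨g, hg, h⟩
    exact ⟨g, (mem_Gam_stab.1 hg).1, (mem_Gam_stab.1 hg).2, h⟩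
  · rintro ⟨g, hg, h, h'⟩
    exact ⟨g, mem_Gam_stab.2 ⟨hg, h⟩, h'⟩

lemma orb_sub_nb {v w : V} (h : G.Adj v w) : orb G (stab G univ v) w ⊆ G.neighborFinset v := by
  intro z hz
  obtain ⟨g, hg, h1, h2⟩ := mem_orb_stab.1 hz
  rw [SimpleGraph.mem_neighborFinset]
  have := (Gam_adj hg).2 h
  rwa [h1, h2] at this

lemma card_A (v w : V) : Nat.card (Gam G univ) =
    (orb G univ v).card * ((orb G (stab G univ v) w).card * Nat.card (Gam G (D2 G v w))) := by
  rw [card_stab univ v, card_stab (stab G univ v) w]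
  rfl

/-- if not locally transitive at `v`, some neighbour of `v` is fixed by the stabilizer -/
lemma exists_fixed_nb (hG : Cub G) {v : V} (h : ¬ LT G v) :
    ∃ w, G.Adj v w ∧ (orb G (stab G univ v) w).card = 1 := by
  unfold LT at h
  push Not at h
  obtain ⟨w, w', hw, hw', hno⟩ := h
  have hsymm : ∀ a b, (∃ g ∈ Gam G univ, g v = v ∧ g a = b) →
      ∃ g ∈ Gam G univ, g v = v ∧ g b = a := by
    rintro a b ⟨g, hg, h1, h2⟩
    refine ⟨g⁻¹, inv_mem hg, ?_, ?_⟩
    · rw [Perm.inv_eq_iff_eq, h1]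
    · rw [Perm.inv_eq_iff_eq, h2]
  have htrans : ∀ a b c, (∃ g ∈ Gam G univ, g v = v ∧ g a = b) →
      (∃ g ∈ Gam G univ, g v = v ∧ g b = c) → ∃ g ∈ Gam G univ, g v = v ∧ g a = c := by
    rintro a b c ⟨g, hg, h1, h2⟩ ⟨k, hk, h3, h4⟩
    refine ⟨k * g, mul_mem hk hg, ?_, ?_⟩
    · rw [Perm.mul_apply, h1, h3]
    · rw [Perm.mul_apply, h2, h4]
  have hself : ∀ a, a ∈ orb G (stab G univ v) a := fun a =>
    mem_orb_stab.2 ⟨1, one_mem _, rfl, rfl⟩
  have hne : w ≠ w' := by
    rintro rfl
    exact hno 1 (one_mem _) rfl rfl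
  -- third neighbour
  obtain ⟨w'', hw'', h1, h2⟩ : ∃ w'', G.Adj v w'' ∧ w'' ≠ w ∧ w'' ≠ w' := by
    have h3 : (((G.neighborFinset v).erase w).erase w').Nonempty := by
      rw [← Finset.card_pos]
      rw [Finset.card_erase_of_mem, Finset.card_erase_of_mem, hG.deg]
      · norm_num
      · simpa using hw
      · rw [mem_erase]; exact ⟨hne.symm, by simpa using hw'⟩
    obtain ⟨z, hz⟩ := h3
    rw [mem_erase, mem_erase, SimpleGraph.mem_neighborFinset] at hz
    exact ⟨z, hz.2.2, hz.2.1, hz.1⟩
  have hN := nb_eq_of hG hne h1.symm h2.symm hw hw' hw''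
  have hmem : ∀ z, G.Adj v z → z = w ∨ z = w' ∨ z = w'' := by
    intro z hz
    have : z ∈ G.neighborFinset v := by simpa using hz
    rw [hN] at this
    simpa using this
  have hnot : ¬ ∃ g ∈ Gam G univ, g v = v ∧ g w = w' := by
    rintro ⟨g, hg, h3, h4⟩
    exact hno g hg h3 h4
  by_cases h5 : ∃ g ∈ Gam G univ, g v = v ∧ g w = w''
  · refine ⟨w', hw', ?_⟩
    rw [Finset.card_eq_one]
    refine ⟨w', ?_⟩
    ext z
    rw [mem_singleton]
    constructor
    · intro hz
      have hz1 := orb_sub_nb hw' hz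
      rw [SimpleGraph.mem_neighborFinset] at hz1
      rcases hmem z hz1 with rfl | rfl | rfl
      · exact absurd (hsymm _ _ (mem_orb_stab.1 hz)) hnot
      · rfl
      · exact absurd (htrans _ _ _ h5 (hsymm _ _ (mem_orb_stab.1 hz))) hnot
    · rintro rfl
      exact hself _
  · refine ⟨w, hw, ?_⟩
    rw [Finset.card_eq_one]
    refine ⟨w, ?_⟩
    ext z
    rw [mem_singleton]
    constructor
    · intro hz
      have hz1 := orb_sub_nb hw hz
      rw [SimpleGraph.mem_neighborFinset] at hz1
      rcases hmem z hz1 with rfl | rfl | rfl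
      · rfl
      · exact absurd (mem_orb_stab.1 hz) hnot
      · exact absurd (mem_orb_stab.1 hz) h5
    · rintro rfl
      exact hself _

lemma orb_card_three (hG : Cub G) {v w : V} (h : LT G v) (hvw : G.Adj v w) :
    (orb G (stab G univ v) w).card = 3 := by
  have : orb G (stab G univ v) w = G.neighborFinset v := by
    apply subset_antisymm (orb_sub_nb hvw)
    intro z hz
    rw [SimpleGraph.mem_neighborFinset] at hz
    exact mem_orb_stab.2 (h w z hvw hz)
  rw [this, hG.deg]

lemma orb_symm {v w : V} (h : w ∈ orb G univ v) : v ∈ orb G univ w := by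
  rw [mem_orb] at h ⊢
  obtain ⟨g, hg, h1⟩ := h
  exact ⟨g⁻¹, inv_mem hg, by rw [Perm.inv_eq_iff_eq, h1]⟩

lemma orb_trans {v w z : V} (h : w ∈ orb G univ v) (h' : z ∈ orb G univ w) :
    z ∈ orb G univ v := by
  rw [mem_orb] at h h' ⊢
  obtain ⟨g, hg, h1⟩ := h
  obtain ⟨k, hk, h2⟩ := h'
  exact ⟨k * g, mul_mem hk hg, by rw [Perm.mul_apply, h1, h2]⟩

lemma orb_nb (hLT : ∀ v, LT G v) {v w x y : V} (hvw : G.Adj v w) (hx : x ∈ orb G univ v)
    (hxy : G.Adj x y) : y ∈ orb G univ w := by
  rw [mem_orb] at hx ⊢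
  obtain ⟨g, hg, rfl⟩ := hx
  have h1 : G.Adj v (g⁻¹ y) := by rw [← Gam_adj hg, pinv1]; exact hxy
  obtain ⟨k, hk, h2, h3⟩ := hLT v w (g⁻¹ y) hvw h1
  exact ⟨g * k, mul_mem hg hk, by rw [Perm.mul_apply, h3, pinv1]⟩

lemma two_orbits (hG : Cub G) (hLT : ∀ v, LT G v) {v w : V} (hvw : G.Adj v w) :
    orb G univ v ∪ orb G univ w = univ := by
  apply closure_univ hG
  · exact ⟨v, mem_union_left _ (mem_orb.2 ⟨1, one_mem _, rfl⟩)⟩
  · intro x hx y hxy
    rw [mem_union] at hx ⊢
    rcases hx with hx | hx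
    · exact Or.inr (orb_nb hLT hvw hx hxy)
    · exact Or.inl (orb_nb hLT hvw.symm hx hxy)

lemma VT_or_half (hG : Cub G) (hLT : ∀ v, LT G v) {v w : V} (hvw : G.Adj v w) :
    VT G ∨ 2 * (orb G univ v).card = Fintype.card V := by
  by_cases h : w ∈ orb G univ v
  · left
    have h1 : ∀ z, z ∈ orb G univ v := by
      intro z
      have : z ∈ orb G univ v ∪ orb G univ w := by rw [two_orbits hG hLT hvw]; exact mem_univ z
      rw [mem_union] at this
      rcases this with h2 | h2
      · exact h2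
      · exact orb_trans h h2
    intro a b
    exact mem_orb.1 (orb_trans (orb_symm (h1 a)) (h1 b))
  · right
    have hdis : Disjoint (orb G univ v) (orb G univ w) := by
      rw [Finset.disjoint_left]
      intro z hz hz'
      exact h (orb_trans hz (orb_symm hz'))
    have hle : ∀ a b, G.Adj a b → (orb G univ a).card * 3 ≤ (orb G univ b).card * 3 := by
      intro a b hab
      apply Finset.card_mul_le_card_mul (r := fun a b => G.Adj a b)
      · intro x hx
        rw [← hG.deg x]
        apply Finset.card_le_card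
        intro y hy
        rw [SimpleGraph.mem_neighborFinset] at hy
        rw [mem_bipartiteAbove]
        exact ⟨orb_nb hLT hab hx hy, hy⟩
      · intro y hy
        rw [← hG.deg y]
        apply Finset.card_le_card
        intro x hx
        rw [mem_bipartiteBelow] at hx
        rw [SimpleGraph.mem_neighborFinset]
        exact hx.2.symm
    have h1 := hle v w hvw
    have h2 := hle w v hvw.symm
    have h3 := Finset.card_union_of_disjoint hdis
    rw [two_orbits hG hLT hvw, Finset.card_univ] at h3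
    omega

lemma exists_nb (hG : Cub G) (v : V) : ∃ w, G.Adj v w := by
  have : (G.neighborFinset v).Nonempty := by
    rw [← Finset.card_pos, hG.deg]; norm_num
  obtain ⟨w, hw⟩ := this
  exact ⟨w, by simpa using hw⟩

/-- two more neighbours -/
lemma exists_nb2 (hG : Cub G) {v a : V} (h : G.Adj v a) :
    ∃ b c, G.Adj v b ∧ G.Adj v c ∧ a ≠ b ∧ a ≠ c ∧ b ≠ c := by
  have h1 : ((G.neighborFinset v).erase a).card = 2 := by
    rw [Finset.card_erase_of_mem (by simpa using h), hG.deg]
  rw [Finset.card_eq_two] at h1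
  obtain ⟨b, c, hbc, he⟩ := h1
  have hb : b ∈ (G.neighborFinset v).erase a := by rw [he]; simp
  have hc : c ∈ (G.neighborFinset v).erase a := by rw [he]; simp
  rw [mem_erase, SimpleGraph.mem_neighborFinset] at hb hc
  exact ⟨b, c, hb.2, hc.2, Ne.symm hb.1, Ne.symm hc.1, hbc⟩

/-- third neighbour -/
lemma exists_third (hG : Cub G) {v a b : V} (h : G.Adj v a) (h' : G.Adj v b) (hab : a ≠ b) :
    ∃ c, G.Adj v c ∧ a ≠ c ∧ b ≠ c ∧ G.neighborFinset v = {a, b, c} := by
  obtain ⟨p, q, hp, hq, hap, haq, hpq⟩ := exists_nb2 hG h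
  by_cases hbp : b = p
  · subst hbp
    exact ⟨q, hq, haq, hpq, nb_eq_of hG hab haq hpq h h' hq⟩
  · exact ⟨p, hp, hap, hbp, nb_eq_of hG hab hap hbp h h' hp⟩

/-- with all vertices locally transitive and more than 8 vertices there is no 4-cycle -/
lemma c4f_of_LT (hG : Cub G) (hT : TwF G) (hLT : ∀ v, LT G v) (hn : 8 < Fintype.card V) :
    C4F G := by
  -- transport of pairs
  have key : ∀ v p q c, G.Adj v p → G.Adj v q → p ≠ q → c ≠ v → G.Adj c p → G.Adj c q →
      ∀ p' q', G.Adj v p' → G.Adj v q' → p' ≠ q' → ∃ c', c' ≠ v ∧ G.Adj c' p' ∧ G.Adj c' q' := by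
    intro v p q c hp hq hpq hcv hcp hcq p' q' hp' hq' hpq'
    obtain ⟨r, hr, hpr, hqr, hN⟩ := exists_third hG hp hq hpq
    obtain ⟨r', hr', hpr', hqr', hN'⟩ := exists_third hG hp' hq' hpq'
    obtain ⟨g, hg, hgv, hgr⟩ := hLT v r r' hr hr'
    have hmap : ∀ z, G.Adj v z → z ≠ r → g z = p' ∨ g z = q' := by
      intro z hz hzr
      have h1 : G.Adj v (g z) := by
        have := (Gam_adj hg).2 hz
        rwa [hgv] at this
      have h2 : g z ∈ G.neighborFinset v := by simpa using h1
      rw [hN'] at h2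
      simp only [mem_insert, mem_singleton] at h2
      rcases h2 with h2 | h2 | h2
      · exact Or.inl h2
      · exact Or.inr h2
      · exact absurd (g.injective (h2.trans hgr.symm)) hzr
    have h1 := hmap p hp hpr
    have h2 := hmap q hq hqr
    have a1 : G.Adj (g c) (g p) := (Gam_adj hg).2 hcp
    have a2 : G.Adj (g c) (g q) := (Gam_adj hg).2 hcq
    refine ⟨g c, ?_, ?_, ?_⟩
    · intro h3
      exact hcv (g.injective (h3.trans hgv.symm))
    · rcases h1 with h1 | h1
      · rw [← h1]; exact a1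
      · rcases h2 with h2 | h2
        · rw [← h2]; exact a2
        · exact absurd (g.injective (h1.trans h2.symm)) hpq
    · rcases h1 with h1 | h1
      · rcases h2 with h2 | h2
        · exact absurd (g.injective (h1.trans h2.symm)) hpq
        · rw [← h2]; exact a2
      · rw [← h1]; exact a1
  intro v w1 c w2 hvc hw12 h1 h2 h3 h4
  have hvw1 : G.Adj v w1 := h1
  have hvw2 : G.Adj v w2 := h4.symm
  obtain ⟨w3, hvw3, hw13, hw23, hNv⟩ := exists_third hG hvw1 hvw2 hw12
  have hK := key v w1 w2 c hvw1 hvw2 hw12 (Ne.symm hvc) h2.symm h3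
  obtain ⟨c13, hc13, c13a, c13b⟩ := hK w1 w3 hvw1 hvw3 hw13
  obtain ⟨c23, hc23, c23a, c23b⟩ := hK w2 w3 hvw2 hvw3 hw23
  have hcc13 : c ≠ c13 := by
    rintro rfl
    exact hvc (hT _ _ (hNv.trans (nb_eq_of hG hw12 hw13 hw23 c13a h3 c13b).symm))
  have hcc23 : c ≠ c23 := by
    rintro rfl
    exact hvc (hT _ _ (hNv.trans (nb_eq_of hG hw12 hw13 hw23 h2.symm c23a c23b).symm))
  have hc1323 : c13 ≠ c23 := by
    rintro rfl
    exact hc13.symm (hT _ _ (hNv.trans (nb_eq_of hG hw12 hw13 hw23 c13a c23a c13b).symm))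
  have hN1 := nb_eq_of hG hvc hc13.symm hcc13 hvw1.symm h2 c13a.symm
  have hN2 := nb_eq_of hG hvc hc23.symm hcc23 hvw2.symm h3.symm c23a.symm
  have hN3 := nb_eq_of hG hc13.symm hc23.symm hc1323 hvw3.symm c13b.symm c23b.symm
  -- e
  obtain ⟨e, hew1, hec, hec13⟩ := key w1 v c w2 hvw1.symm h2 hvc hw12.symm hvw2.symm h3.symm
    c c13 h2 c13a.symm hcc13
  obtain ⟨e', hew2, hec', hec23⟩ := key w2 v c w1 hvw2.symm h3.symm hvc hw12 hvw1.symm h2
    c c23 h3.symm c23a.symm hcc23
  have hew2' : e ≠ w2 := by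
    rintro rfl
    have : c13 ∈ G.neighborFinset e := by simpa using hec13
    rw [hN2] at this
    simp only [mem_insert, mem_singleton] at this
    rcases this with h | h | h
    · exact hc13 h
    · exact hcc13 h.symm
    · exact hc1323 h
  have hew1' : e' ≠ w1 := by
    rintro rfl
    have : c23 ∈ G.neighborFinset e' := by simpa using hec23
    rw [hN1] at this
    simp only [mem_insert, mem_singleton] at this
    rcases this with h | h | h
    · exact hc23 h
    · exact hcc23 h.symm
    · exact hc1323 h.symm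
  have hNc := nb_eq_of hG hw12 hew1.symm hew2'.symm h2.symm h3 hec.symm
  have hee : e' = e := by
    have : e' ∈ G.neighborFinset c := by simpa using hec'.symm
    rw [hNc] at this
    simp only [mem_insert, mem_singleton] at this
    rcases this with h | h | h
    · exact absurd h hew1'
    · exact absurd h hew2
    · exact h
  subst hee
  have hew3 : e' ≠ w3 := by
    rintro rfl
    have : c ∈ G.neighborFinset e' := by simpa using hec
    rw [hN3] at this
    simp only [mem_insert, mem_singleton] at this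
    rcases this with h | h | h
    · exact hvc h.symm
    · exact hcc13 h
    · exact hcc23 h
  have hN13 := nb_eq_of hG hw13 hew1.symm hew3.symm c13a c13b hec13.symm
  have hN23 := nb_eq_of hG hw23 hew2.symm hew3.symm c23a c23b hec23.symm
  have hNe := nb_eq_of hG hcc13 hcc23 hc1323 hec hec13 hec23
  have hX : ({v, w1, w2, w3, c, c13, c23, e'} : Finset V) = univ := by
    apply closure_univ hG ⟨v, by simp⟩
    intro x hx y hxy
    have hy : y ∈ G.neighborFinset x := by simpa using hxy
    simp only [mem_insert, mem_singleton] at hx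
    rcases hx with rfl | rfl | rfl | rfl | rfl | rfl | rfl | rfl
    · rw [hNv] at hy; simp only [mem_insert, mem_singleton] at hy ⊢; tauto
    · rw [hN1] at hy; simp only [mem_insert, mem_singleton] at hy ⊢; tauto
    · rw [hN2] at hy; simp only [mem_insert, mem_singleton] at hy ⊢; tauto
    · rw [hN3] at hy; simp only [mem_insert, mem_singleton] at hy ⊢; tauto
    · rw [hNc] at hy; simp only [mem_insert, mem_singleton] at hy ⊢; tauto
    · rw [hN13] at hy; simp only [mem_insert, mem_singleton] at hy ⊢; tauto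
    · rw [hN23] at hy; simp only [mem_insert, mem_singleton] at hy ⊢; tauto
    · rw [hNe] at hy; simp only [mem_insert, mem_singleton] at hy ⊢; tauto
  have h8 : ({v, w1, w2, w3, c, c13, c23, e'} : Finset V).card ≤ 8 := by
    have h6 : ({w2, w3, c, c13, c23, e'} : Finset V).card ≤ 6 := Finset.card_le_six
    have h7 := Finset.card_insert_le w1 ({w2, w3, c, c13, c23, e'} : Finset V)
    have h9 := Finset.card_insert_le v ({w1, w2, w3, c, c13, c23, e'} : Finset V)
    omega
  rw [hX, Finset.card_univ] at h8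
  omega

end Pool.Agent.H23.Cubic
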