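import Mathlib
import Pool.Agent.H23.Cubic.Orbits

set_option autoImplicit false

namespace Pool.Agent.H23.Cubic

open Equiv Finset

set_option linter.unusedSectionVars false
set_option linter.unusedVariables false

variable {V : Type*} [Fintype V] [DecidableEq V] {G : SimpleGraph V} [DecidableRel G.Adj]

lemma card_pow_two (hG : Cub G) {v w : V} (h : G.Adj v w) :
    ∃ j, Nat.card (Gam G (D2 G v w)) = 2 ^ j := by
  have := pgroup hG (adm_D2 h)
  exact IsPGroup.iff_card.1 this

lemma D2_bound (hG : Cub G) (hT : TwF G) (hTri : TriF G) {v w : V} (h : G.Adj v w) :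
    4 * Nat.card (Gam G (D2 G v w)) ^ 4 ≤ 2 ^ Fintype.card V := by
  have h1 := thmA hG hT hTri (closed_D2 v w) (adm_D2 h)
  have h2 := card_D2_le h
  calc 4 * Nat.card (Gam G (D2 G v w)) ^ 4 ≤ 4 * 2 ^ (D2 G v w).card :=
        Nat.mul_le_mul_left _ h1
    _ = 2 ^ ((D2 G v w).card + 2) := by rw [pow_add]; ring
    _ ≤ 2 ^ Fintype.card V := Nat.pow_le_pow_right (by norm_num) h2

/-- case 1 -/
lemma case_one (hG : Cub G) (hT : TwF G) (hTri : TriF G) (h : ¬ ∀ v, LT G v) :
    Nat.card (Gam G univ) ^ 4 < Fintype.card V ^ 4 * 2 ^ Fintype.card V := by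
  push Not at h
  obtain ⟨v, hv⟩ := h
  obtain ⟨w, hvw, hw⟩ := exists_fixed_nb hG hv
  have h1 := card_A (G := G) v w
  rw [hw, one_mul] at h1
  have h2 : (orb G univ v).card ≤ Fintype.card V := Finset.card_le_univ _
  have h3 := D2_bound hG hT hTri hvw
  have hVpos : 0 < Fintype.card V := Fintype.card_pos_iff.2 ⟨v⟩
  have h4 : Nat.card (Gam G univ) ^ 4 ≤ Fintype.card V ^ 4 *
      Nat.card (Gam G (D2 G v w)) ^ 4 := by
    rw [h1, ← mul_pow]
    exact Nat.pow_le_pow_left (Nat.mul_le_mul_right _ h2) 4
  have hA : 0 < Nat.card (Gam G (D2 G v w)) := Nat.card_pos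
  have h5 : Nat.card (Gam G (D2 G v w)) ^ 4 < 2 ^ Fintype.card V := by
    have : 0 < Nat.card (Gam G (D2 G v w)) ^ 4 := by positivity
    omega
  calc Nat.card (Gam G univ) ^ 4 ≤ _ := h4
    _ < _ := Nat.mul_lt_mul_of_pos_left h5 (by positivity)

lemma D2_sharp (hG : Cub G) (hT : TwF G) (hTri : TriF G) (hC : C4F G)
    (hn : 16 ≤ Fintype.card V) {v w : V} (h : G.Adj v w) :
    8 * Nat.card (Gam G (D2 G v w)) ^ 4 ≤ 2 ^ Fintype.card V := by
  classical
  have hthm := thmA hG hT hTri (closed_D2 v w) (adm_D2 h)
  have hcard := card_D2_le h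
  by_cases hlt : (D2 G v w).card + 3 ≤ Fintype.card V
  · calc 8 * Nat.card (Gam G (D2 G v w)) ^ 4 ≤ 8 * 2 ^ (D2 G v w).card :=
        Nat.mul_le_mul_left _ hthm
      _ = 2 ^ ((D2 G v w).card + 3) := by rw [pow_add]; ring
      _ ≤ 2 ^ Fintype.card V := Nat.pow_le_pow_right (by norm_num) hlt
  · have hDc : (D2 G v w).card + 2 = Fintype.card V := by omega
    obtain ⟨j, hj⟩ := card_pow_two hG h
    have h4 : 4 * j ≤ (D2 G v w).card := by
      rw [hj, ← pow_mul, Nat.pow_le_pow_iff_right (by norm_num)] at hthm
      omega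
    by_cases hlt2 : 4 * j + 3 ≤ Fintype.card V
    · calc 8 * Nat.card (Gam G (D2 G v w)) ^ 4 = 2 ^ (4 * j + 3) := by
            rw [hj, ← pow_mul, pow_add, mul_comm j 4]; ring
        _ ≤ 2 ^ Fintype.card V := Nat.pow_le_pow_right (by norm_num) hlt2
    · exfalso
      have h4j : 4 * j = (D2 G v w).card := by omega
      have hmem : ∀ z, z ∉ D2 G v w → z = v ∨ z = w := by
        have h1 : ({v, w} : Finset V) ⊆ univ \ D2 G v w := by
          intro z hz
          simp only [mem_insert, mem_singleton] at hz
          rw [mem_sdiff]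
          rcases hz with rfl | rfl
          · exact ⟨mem_univ _, v_notin_D2 _ _⟩
          · exact ⟨mem_univ _, w_notin_D2 _ _⟩
        have h2 : ({v, w} : Finset V) = univ \ D2 G v w := by
          apply Finset.eq_of_subset_of_card_le h1
          rw [Finset.card_pair h.ne, Finset.card_sdiff_of_subset (Finset.subset_univ _),
            Finset.card_univ]
          omega
        intro z hz
        have h3 : z ∈ univ \ D2 G v w := mem_sdiff.2 ⟨mem_univ _, hz⟩
        rw [← h2] at h3
        simpa using h3
      have hcl := closed_D2 (G := G) v w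
      have hadm := adm_D2 h
      set D := D2 G v w with hD
      have hvD : v ∉ D := v_notin_D2 v w
      have hwD : w ∉ D := w_notin_D2 v w
      have hDne : D.Nonempty := by rw [← Finset.card_pos]; omega
      have hmin : MinBlock G D D := by
        refine ⟨Block.self D, hDne, ?_⟩
        intro L hL hLne hLD
        by_contra hne
        have h1 : (D \ L).Nonempty := by
          rw [Finset.sdiff_nonempty]
          intro h2
          exact hne (subset_antisymm hLD h2)
        have hv1 : ∀ L', Block G D L' → L'.Nonempty → v ∈ bd G D L' := by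
          intro L' hL' hL'ne
          have h2 := two_le_bd hG hadm hcl hL' hL'ne
          have h3 : bd G D L' ⊆ {v, w} := by
            intro z hz
            have := hmem z (mem_bd.1 hz).1
            simpa using this
          have h4 : bd G D L' = {v, w} := by
            apply Finset.eq_of_subset_of_card_le h3
            rw [Finset.card_pair h.ne]; exact h2
          rw [h4]; simp
        obtain ⟨_, q, hq, hvq⟩ := mem_bd.1 (hv1 L hL hLne)
        obtain ⟨_, r, hr, hvr⟩ := mem_bd.1 (hv1 (D \ L) hL.compl h1)
        rw [mem_sdiff] at hr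
        exact hr.2 (nb_block hG hadm hcl hL hvD hq hvq hr.1 hvr)
      have hee : ee G D + 4 = D.card := by
        have h1 : ee G D + (D.filter (fun z => ty G D z = 1)).card = D.card := by
          unfold ee
          rw [add_comm]
          exact Finset.card_filter_add_card_filter_not (fun z => ty G D z = 1)
        have h2 : D.filter (fun z => ty G D z = 1) =
            (G.neighborFinset v).erase w ∪ (G.neighborFinset w).erase v := by
          ext z
          rw [mem_filter, mem_union, mem_erase, mem_erase, SimpleGraph.mem_neighborFinset,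
            SimpleGraph.mem_neighborFinset]
          constructor
          · rintro ⟨hz, hz1⟩
            obtain ⟨s, hs, hzs⟩ := ty_pos.1 (by rw [hz1]; norm_num : 0 < ty G D z)
            rcases hmem s hs with rfl | rfl
            · exact Or.inl ⟨fun h' => hwD (h' ▸ hz), hzs.symm⟩
            · exact Or.inr ⟨fun h' => hvD (h' ▸ hz), hzs.symm⟩
          · have hz' : ∀ z, z ≠ v → z ≠ w → (G.Adj v z ∨ G.Adj w z) →
                z ∈ D ∧ ty G D z = 1 := by
              intro z hzv hzw hz
              have hzD : z ∈ D := by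
                by_contra hzD
                rcases hmem z hzD with rfl | rfl
                · exact hzv rfl
                · exact hzw rfl
              refine ⟨hzD, ?_⟩
              have h5 := ty_le_one hG hC hcl hzD
              have h6 : 0 < ty G D z := by
                rcases hz with hz | hz
                · exact ty_pos.2 ⟨v, hvD, hz.symm⟩
                · exact ty_pos.2 ⟨w, hwD, hz.symm⟩
              omega
            rintro (⟨h3, h4⟩ | ⟨h3, h4⟩)
            · exact hz' z h4.ne.symm h3 (Or.inl h4)
            · exact hz' z h3 h4.ne.symm (Or.inr h4)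
        have h3 : Disjoint ((G.neighborFinset v).erase w) ((G.neighborFinset w).erase v) := by
          rw [Finset.disjoint_left]
          intro z hz hz'
          rw [mem_erase, SimpleGraph.mem_neighborFinset] at hz hz'
          exact hTri v w z h hz'.2 hz.2
        have h4 : ((G.neighborFinset v).erase w).card = 2 := by
          rw [Finset.card_erase_of_mem (by simpa using h), hG.deg]
        have h5 : ((G.neighborFinset w).erase v).card = 2 := by
          rw [Finset.card_erase_of_mem (by simpa using h.symm), hG.deg]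
        rw [h2, Finset.card_union_of_disjoint h3, h4, h5] at h1
        omega
      have htight : Nat.card (Gam G D) ^ 4 = 2 ^ (ee G D + 4) := by
        rw [hee, hj, ← pow_mul, ← h4j, mul_comm j 4]
      have hj4 : 4 ≤ Nat.card (Gam G D) := by
        rw [hj]
        have : 2 ≤ j := by omega
        calc 4 = 2 ^ 2 := by norm_num
          _ ≤ 2 ^ j := Nat.pow_le_pow_right (by norm_num) this
      obtain ⟨i, hi, hi2⟩ := lemmaT hG hT hTri hC D hcl hadm hmin htight hj4
      have hij : i = j := by
        rw [hj] at hi
        exact ((Nat.pow_right_injective (le_refl 2)) hi).symm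
      omega

/-- case 2b -/
lemma case_half (hG : Cub G) (hT : TwF G) (hTri : TriF G) (hLT : ∀ v, LT G v)
    (hn : 16 ≤ Fintype.card V) {v w : V} (h : G.Adj v w)
    (hhalf : 2 * (orb G univ v).card = Fintype.card V) :
    Nat.card (Gam G univ) ^ 4 < Fintype.card V ^ 4 * 2 ^ Fintype.card V := by
  have hC := c4f_of_LT hG hT hLT (by omega)
  have h1 := D2_sharp hG hT hTri hC hn h
  have h2 := card_A (G := G) v w
  rw [orb_card_three hG (hLT v) h] at h2
  have h3 : 2 * Nat.card (Gam G univ) = 3 * Fintype.card V * Nat.card (Gam G (D2 G v w)) := by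
    rw [h2, ← hhalf]; ring
  have h4 : 16 * Nat.card (Gam G univ) ^ 4 =
      81 * (Fintype.card V ^ 4 * Nat.card (Gam G (D2 G v w)) ^ 4) := by
    have : (2 * Nat.card (Gam G univ)) ^ 4 =
        (3 * Fintype.card V * Nat.card (Gam G (D2 G v w))) ^ 4 := by rw [h3]
    nlinarith [this]
  have h5 : Fintype.card V ^ 4 * (8 * Nat.card (Gam G (D2 G v w)) ^ 4) ≤
      Fintype.card V ^ 4 * 2 ^ Fintype.card V := Nat.mul_le_mul_left _ h1
  have h6 : 0 < Fintype.card V ^ 4 * 2 ^ Fintype.card V := by positivity
  nlinarith [h4, h5, h6]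

end Pool.Agent.H23.Cubic
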