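import Mathlib
import Pool.Agent.H23.Cubic.Semi

set_option autoImplicit false

namespace Pool.Agent.H23.Cubic

open Equiv Finset

set_option linter.unusedSectionVars false
set_option linter.unusedVariables false

variable {V : Type*} [Fintype V] [DecidableEq V] {G : SimpleGraph V} [DecidableRel G.Adj]

/-- `s`-arcs (only the values `p 0, …, p s` matter) -/
def Arc (G : SimpleGraph V) (s : ℕ) (p : ℕ → V) : Prop :=
  (∀ i < s, G.Adj (p i) (p (i + 1))) ∧ ∀ i, i + 2 ≤ s → p i ≠ p (i + 2)

/-- `s`-arc-transitivity -/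
def AT (G : SimpleGraph V) (s : ℕ) : Prop :=
  ∀ p q, Arc G s p → Arc G s q → ∃ g ∈ Gam G univ, ∀ i ≤ s, g (p i) = q i

/-- extend an arc -/
def extd (s : ℕ) (p : ℕ → V) (z : V) : ℕ → V := fun i => if i ≤ s then p i else z

lemma extd_le {s : ℕ} {p : ℕ → V} {z : V} {i : ℕ} (h : i ≤ s) : extd s p z i = p i := if_pos h

lemma extd_gt {s : ℕ} {p : ℕ → V} {z : V} {i : ℕ} (h : s < i) : extd s p z i = z :=
  if_neg (by omega)

lemma Arc.extd {s : ℕ} {p : ℕ → V} {z : V} (h : Arc G (s + 1) p) (hz : G.Adj (p (s + 1)) z)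
    (hne : p s ≠ z) : Arc G (s + 2) (extd (s + 1) p z) := by
  refine ⟨?_, ?_⟩
  · intro i hi
    by_cases h1 : i < s + 1
    · rw [extd_le (by omega), extd_le (by omega)]; exact h.1 i h1
    · have : i = s + 1 := by omega
      subst this
      rw [extd_le (by omega), extd_gt (by omega)]; exact hz
  · intro i hi
    by_cases h1 : i + 2 ≤ s + 1
    · rw [extd_le (by omega), extd_le (by omega)]; exact h.2 i h1
    · have : i = s := by omega
      subst this
      rw [extd_le (by omega), extd_gt (by omega)]; exact hne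

lemma Arc.mono {s t : ℕ} {p : ℕ → V} (h : Arc G s p) (hts : t ≤ s) : Arc G t p :=
  ⟨fun i hi => h.1 i (by omega), fun i hi => h.2 i (by omega)⟩

lemma Arc.shift {s : ℕ} {p : ℕ → V} (h : Arc G (s + 1) p) : Arc G s (fun i => p (i + 1)) :=
  ⟨fun i hi => h.1 (i + 1) (by omega), fun i hi => h.2 (i + 1) (by omega)⟩

lemma Arc.rev {s : ℕ} {p : ℕ → V} (h : Arc G s p) : Arc G s (fun i => p (s - i)) := by
  refine ⟨?_, ?_⟩
  · intro i hi
    have := h.1 (s - (i + 1)) (by omega)
    rw [show s - (i + 1) + 1 = s - i by omega] at this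
    exact this.symm
  · intro i hi
    have := h.2 (s - (i + 2)) (by omega)
    rw [show s - (i + 2) + 2 = s - i by omega] at this
    exact this.symm

/-- every arc extends -/
lemma Arc.exists_extd (hG : Cub G) {s : ℕ} {p : ℕ → V} (h : Arc G (s + 1) p) :
    ∃ z, Arc G (s + 2) (Pool.Agent.H23.Cubic.extd (s + 1) p z) := by
  obtain ⟨b, c, hb, hc, h1, h2, h3⟩ := exists_nb2 hG (h.1 s (by omega)).symm
  exact ⟨b, h.extd hb h1⟩

lemma AT_mono_succ (hG : Cub G) {s : ℕ} (h : AT G (s + 2)) : AT G (s + 1) := by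
  intro p q hp hq
  obtain ⟨z, hz⟩ := hp.exists_extd hG
  obtain ⟨w, hw⟩ := hq.exists_extd hG
  obtain ⟨g, hg, h1⟩ := h _ _ hz hw
  refine ⟨g, hg, fun i hi => ?_⟩
  have := h1 i (by omega)
  rwa [extd_le hi, extd_le hi] at this

lemma AT_mono (hG : Cub G) {s t : ℕ} (h : AT G s) (hts : t ≤ s) (ht : 1 ≤ t) : AT G t := by
  obtain ⟨d, rfl⟩ := Nat.exists_eq_add_of_le hts
  induction d with
  | zero => exact h
  | succ d ih =>
    apply ih _ (by omega)
    obtain ⟨t', rfl⟩ : ∃ t', t = t' + 1 := ⟨t - 1, by omega⟩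
    have : t' + 1 + d = (t' + d) + 1 := by omega
    rw [this]
    apply AT_mono_succ hG
    rw [show t' + d + 2 = t' + 1 + (d + 1) by omega]
    exact h

/-- apply an automorphism to an arc -/
lemma Arc.map {D : Finset V} {g : Perm V} (hg : g ∈ Gam G D) {s : ℕ} {p : ℕ → V}
    (h : Arc G s p) : Arc G s (fun i => g (p i)) :=
  ⟨fun i hi => (Gam_adj hg).2 (h.1 i hi), fun i hi h' => h.2 i hi (g.injective h')⟩

/-- dichotomy -/
lemma dich (hG : Cub G) {s : ℕ} (h : AT G (s + 1)) {p : ℕ → V} (hp : Arc G (s + 1) p)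
    {g : Perm V} (hg : g ∈ Gam G univ) (hgp : ∀ i ≤ s + 1, g (p i) = p i) (hg1 : g ≠ 1) :
    AT G (s + 2) := by
  by_cases hex : ∃ q, Arc G (s + 1) q ∧ ∃ k ∈ Gam G univ, (∀ i ≤ s + 1, k (q i) = q i) ∧
      ∃ z, G.Adj (q (s + 1)) z ∧ k z ≠ z
  · obtain ⟨q, hq, k, hk, hkq, z, hqz, hkz⟩ := hex
    intro a b ha hb
    obtain ⟨σ, hσ, hσa⟩ := h a b (ha.mono (by omega)) (hb.mono (by omega))
    obtain ⟨τ, hτ, hτa⟩ := h q b hq (hb.mono (by omega))
    set k' := τ * k * τ⁻¹ with hk'
    have hk'm : k' ∈ Gam G univ := mul_mem (mul_mem hτ hk) (inv_mem hτ)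
    have hk'b : ∀ i ≤ s + 1, k' (b i) = b i := by
      intro i hi
      rw [hk', Perm.mul_apply, Perm.mul_apply, ← hτa i hi, pinv2, hkq i hi]
    have hk'z : k' (τ z) ≠ τ z := by
      rw [hk', Perm.mul_apply, Perm.mul_apply, pinv2]
      intro h'
      exact hkz (τ.injective h')
    have hbz : G.Adj (b (s + 1)) (τ z) := by
      have := (Gam_adj hτ).2 hqz
      rwa [hτa (s + 1) le_rfl] at this
    have hbz1 : b s ≠ τ z := by
      intro h'
      apply hk'z
      rw [← h', hk'b s (by omega)]
    have hb2 : b s ≠ b (s + 2) := hb.2 s le_rfl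
    have hbz2 : G.Adj (b (s + 1)) (k' (τ z)) := by
      have := (Gam_adj hk'm).2 hbz
      rwa [hk'b (s + 1) le_rfl] at this
    have hbz3 : b s ≠ k' (τ z) := by
      intro h'
      apply hbz1
      apply k'.injective
      rw [← h', hk'b s (by omega)]
    have hN := nb_eq_of hG hbz1 hbz3 (Ne.symm hk'z) (hb.1 s (by omega)).symm hbz hbz2
    -- `k'` swaps the two
    have hsw : k' (k' (τ z)) = τ z := by
      have h1 : G.Adj (b (s + 1)) (k' (k' (τ z))) := by
        have := (Gam_adj hk'm).2 hbz2
        rwa [hk'b (s + 1) le_rfl] at this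
      have h2 : k' (k' (τ z)) ∈ G.neighborFinset (b (s + 1)) := by simpa using h1
      rw [hN] at h2
      simp only [mem_insert, mem_singleton] at h2
      rcases h2 with h2 | h2 | h2
      · exfalso
        apply hbz3
        apply k'.injective
        rw [h2, hk'b s (by omega)]
      · exact h2
      · exact absurd (k'.injective h2) hk'z
    have hm1 : ∀ w, G.Adj (b (s + 1)) w → b s ≠ w → w = τ z ∨ w = k' (τ z) := by
      intro w hw hne
      have h2 : w ∈ G.neighborFinset (b (s + 1)) := by simpa using hw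
      rw [hN] at h2
      simp only [mem_insert, mem_singleton] at h2
      rcases h2 with h2 | h2
      · exact absurd h2.symm hne
      · exact h2
    have hσ1 : G.Adj (b (s + 1)) (σ (a (s + 2))) := by
      have := (Gam_adj hσ).2 (ha.1 (s + 1) (by omega))
      rwa [hσa (s + 1) le_rfl] at this
    have hσ2 : b s ≠ σ (a (s + 2)) := by
      rw [← hσa s (by omega)]
      intro h'
      exact ha.2 s le_rfl (σ.injective h')
    have e1 := hm1 _ hσ1 hσ2
    have e2 := hm1 _ (hb.1 (s + 1) (by omega)) hb2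
    by_cases he : σ (a (s + 2)) = b (s + 2)
    · refine ⟨σ, hσ, fun i hi => ?_⟩
      rcases Nat.lt_or_ge (s + 1) i with h1 | h1
      · have : i = s + 2 := by omega
        rw [this, he]
      · exact hσa i h1
    · refine ⟨k' * σ, mul_mem hk'm hσ, fun i hi => ?_⟩
      rcases Nat.lt_or_ge (s + 1) i with h1 | h1
      · have : i = s + 2 := by omega
        rw [this, Perm.mul_apply]
        show k' (σ (a (s + 2))) = b (s + 2)
        rcases e1 with e1 | e1
        · rcases e2 with e2 | e2
          · exact absurd (e1.trans e2.symm) he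
          · rw [e1]; exact e2.symm
        · rcases e2 with e2 | e2
          · rw [e1, hsw]; exact e2.symm
          · exact absurd (e1.trans e2.symm) he
      · rw [Perm.mul_apply, hσa i h1, hk'b i h1]
  · classical
    exfalso
    push Not at hex
    apply hg1
    have hX : (univ.filter (fun z => g z = z ∧ ∃ q, Arc G (s + 1) q ∧
        (∀ i ≤ s + 1, g (q i) = q i) ∧ q (s + 1) = z)) = univ := by
      apply closure_univ hG
      · refine ⟨p (s + 1), ?_⟩
        rw [mem_filter]
        exact ⟨mem_univ _, hgp _ le_rfl, p, hp, hgp, rfl⟩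
      · intro z hz y hzy
        rw [mem_filter] at hz ⊢
        obtain ⟨_, hgz, q, hq, hgq, hqz⟩ := hz
        refine ⟨mem_univ _, ?_, ?_⟩
        · rw [← hqz] at hzy
          exact hex q hq g hg hgq y hzy
        · have hgy : g y = y := by
            rw [← hqz] at hzy
            exact hex q hq g hg hgq y hzy
          by_cases hy : q s = y
          · -- backwards
            have hr := hq.rev
            obtain ⟨z0, c, hz0, _, hne, _, _⟩ := exists_nb2 hG (hr.1 s (by omega)).symm
            -- reversed arc ends at q 0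
            have hg0 : g z0 = z0 := by
              apply hex _ hr g hg
              · intro i hi
                exact hgq _ (by omega)
              · exact hz0
            have he := hr.extd hz0 hne
            have he2 := he.rev.mono (show s + 1 ≤ s + 2 by omega)
            refine ⟨_, he2, ?_, ?_⟩
            · intro i hi
              by_cases hi0 : s + 2 - i ≤ s + 1
              · rw [extd_le hi0]
                exact hgq _ (by omega)
              · rw [extd_gt (by omega)]
                exact hg0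
            · show extd (s + 1) _ z0 (s + 2 - (s + 1)) = y
              rw [show s + 2 - (s + 1) = 1 by omega, extd_le (by omega), ← hy]
              congr 1
          · rw [← hqz] at hzy
            have he := (hq.extd hzy hy).shift
            refine ⟨_, he, ?_, ?_⟩
            · intro i hi
              by_cases hi0 : i + 1 ≤ s + 1
              · rw [extd_le hi0]
                exact hgq _ (by omega)
              · rw [extd_gt (by omega)]
                exact hgy
            · rw [extd_gt (by omega)]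
    ext z
    have : z ∈ univ.filter (fun z => g z = z ∧ ∃ q, Arc G (s + 1) q ∧
        (∀ i ≤ s + 1, g (q i) = q i) ∧ q (s + 1) = z) := by rw [hX]; exact mem_univ z
    rw [mem_filter] at this
    simpa using this.2.1

/-- supports of arc stabilizers -/
noncomputable def SS (G : SimpleGraph V) (p : ℕ → V) : ℕ → Finset V
  | 0 => stab G univ (p 0)
  | (i + 1) => stab G (SS G p i) (p (i + 1))

lemma mem_SS {p : ℕ → V} {s : ℕ} {g : Perm V} :
    g ∈ Gam G (SS G p s) ↔ g ∈ Gam G univ ∧ ∀ i ≤ s, g (p i) = p i := by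
  induction s with
  | zero =>
    rw [SS, mem_Gam_stab]
    constructor
    · rintro ⟨h1, h2⟩
      refine ⟨h1, fun i hi => ?_⟩
      have : i = 0 := by omega
      rw [this, h2]
    · rintro ⟨h1, h2⟩
      exact ⟨h1, h2 0 le_rfl⟩
  | succ s ih =>
    rw [SS, mem_Gam_stab, ih]
    constructor
    · rintro ⟨⟨h1, h2⟩, h3⟩
      refine ⟨h1, fun i hi => ?_⟩
      rcases Nat.lt_or_ge s i with h4 | h4
      · have : i = s + 1 := by omega
        rw [this, h3]
      · exact h2 i h4
    · rintro ⟨h1, h2⟩
      exact ⟨⟨h1, fun i hi => h2 i (by omega)⟩, h2 (s + 1) le_rfl⟩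

/-- one more step of the arc stabilizer -/
lemma card_SS_succ (hG : Cub G) {s : ℕ} (h : AT G (s + 2)) {p : ℕ → V} (hp : Arc G (s + 2) p) :
    Nat.card (Gam G (SS G p (s + 1))) = 2 * Nat.card (Gam G (SS G p (s + 2))) := by
  rw [card_stab (SS G p (s + 1)) (p (s + 2))]
  show _ = 2 * Nat.card (Gam G (stab G (SS G p (s + 1)) (p (s + 2))))
  congr 1
  have hadj := (hp.1 s (by omega)).symm
  have : orb G (SS G p (s + 1)) (p (s + 2)) = (G.neighborFinset (p (s + 1))).erase (p s) := by
    ext z
    rw [mem_orb, mem_erase, SimpleGraph.mem_neighborFinset]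
    constructor
    · rintro ⟨g, hg, rfl⟩
      rw [mem_SS] at hg
      refine ⟨?_, ?_⟩
      · rw [← hg.2 s (by omega)]
        intro h'
        exact hp.2 s le_rfl (g.injective h').symm
      · have := (Gam_adj hg.1).2 (hp.1 (s + 1) (by omega))
        rwa [hg.2 (s + 1) le_rfl] at this
    · rintro ⟨h1, h2⟩
      have h3 := (hp.mono (show s + 1 ≤ s + 2 by omega)).extd h2 h1.symm
      obtain ⟨g, hg, h4⟩ := h _ _ hp h3
      refine ⟨g, ?_, ?_⟩
      · rw [mem_SS]
        refine ⟨hg, fun i hi => ?_⟩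
        rw [h4 i (by omega), extd_le hi]
      · rw [h4 (s + 2) le_rfl, extd_gt (by omega)]
  rw [this, Finset.card_erase_of_mem (by simpa using hadj), hG.deg]

lemma exists_arc (hG : Cub G) (v : V) (s : ℕ) : ∃ p, Arc G (s + 1) p ∧ p 0 = v := by
  induction s with
  | zero =>
    obtain ⟨w, hvw⟩ := exists_nb hG v
    refine ⟨fun i => if i = 0 then v else w, ⟨fun i hi => ?_, fun i hi => ?_⟩, rfl⟩
    · have : i = 0 := by omega
      subst this
      simpa using hvw
    · omega
  | succ s ih =>
    obtain ⟨p, hp, hp0⟩ := ih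
    obtain ⟨z, hz⟩ := hp.exists_extd hG
    exact ⟨_, hz, by rw [extd_le (by omega)]; exact hp0⟩

/-- `|A_vw| = 2^j` implies `(j+1)`-arc-transitivity -/
lemma AT_of_card [Nonempty V] (hG : Cub G) (h1 : AT G 1) {j : ℕ}
    (hj : ∀ v w, G.Adj v w → Nat.card (Gam G (D2 G v w)) = 2 ^ j) :
    ∀ i ≤ j, AT G (i + 1) ∧ ∀ p, Arc G (i + 1) p → Nat.card (Gam G (SS G p (i + 1))) = 2 ^ (j - i) := by
  intro i
  induction i with
  | zero =>
    intro _
    refine ⟨h1, fun p hp => ?_⟩
    have := hj (p 0) (p 1) (hp.1 0 (by omega))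
    exact this
  | succ i ih =>
    intro hi
    obtain ⟨hA, hB⟩ := ih (by omega)
    obtain ⟨p, hp, -⟩ := exists_arc hG (Classical.arbitrary V) i
    have hcard := hB p hp
    have h2 : 2 ≤ Nat.card (Gam G (SS G p (i + 1))) := by
      rw [hcard]
      calc 2 = 2 ^ 1 := by norm_num
        _ ≤ 2 ^ (j - i) := Nat.pow_le_pow_right (by norm_num) (by omega)
    have hne : ∃ g ∈ Gam G (SS G p (i + 1)), g ≠ 1 := by
      by_contra hno
      push Not at hno
      have : Nat.card (Gam G (SS G p (i + 1))) = 1 := by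
        rw [Nat.card_eq_one_iff_unique]
        refine ⟨⟨fun a b => ?_⟩, ⟨1⟩⟩
        apply Subtype.ext
        rw [hno a.1 a.2, hno b.1 b.2]
      omega
    obtain ⟨g, hg, hg1⟩ := hne
    rw [mem_SS] at hg
    have hA2 := dich hG hA hp hg.1 hg.2 hg1
    refine ⟨hA2, fun q hq => ?_⟩
    have h3 := card_SS_succ hG hA2 hq
    have h4 := hB q (hq.mono (by omega))
    rw [h4] at h3
    have h5 : 2 ^ (j - i) = 2 * 2 ^ (j - (i + 1)) := by
      rw [← pow_succ']
      congr 1
      omega
    rw [h5] at h3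
    exact (Nat.eq_of_mul_eq_mul_left (by norm_num) h3).symm

end Pool.Agent.H23.Cubic
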