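import Mathlib
import Pool.Agent.H23.Cubic.Arcs

set_option autoImplicit false

namespace Pool.Agent.H23.Cubic

open Equiv Finset

set_option linter.unusedSectionVars false
set_option linter.unusedVariables false

variable {V : Type*} [Fintype V] [DecidableEq V] {G : SimpleGraph V} [DecidableRel G.Adj]

lemma conn [Nonempty V] (hG : Cub G) : G.Connected := by
  classical
  rw [SimpleGraph.connected_iff]
  refine ⟨?_, inferInstance⟩
  intro v w
  have h : (univ.filter (fun z => G.Reachable v z)) = univ := by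
    apply closure_univ hG
    · exact ⟨v, by rw [mem_filter]; exact ⟨mem_univ _, SimpleGraph.Reachable.refl v⟩⟩
    · intro x hx y hxy
      rw [mem_filter] at hx ⊢
      exact ⟨mem_univ _, hx.2.trans hxy.reachable⟩
  have : w ∈ univ.filter (fun z => G.Reachable v z) := by rw [h]; exact mem_univ w
  exact (mem_filter.1 this).2

lemma dist_adj_le [Nonempty V] (hG : Cub G) (v : V) {y z : V} (h : G.Adj y z) :
    G.dist v z ≤ G.dist v y + 1 := by
  have := (conn hG).dist_triangle (u := v) (v := y) (w := z)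
  rwa [SimpleGraph.dist_eq_one_iff_adj.2 h] at this

lemma exists_pred [Nonempty V] (hG : Cub G) {v z : V} {d : ℕ} (h : G.dist v z = d + 1) :
    ∃ y, G.Adj y z ∧ G.dist v y = d := by
  obtain ⟨p, hp⟩ := (conn hG).exists_walk_length_eq_dist z v
  rw [SimpleGraph.dist_comm, h] at hp
  cases p with
  | nil => simp at hp
  | cons hadj q =>
    rename_i y
    refine ⟨y, hadj.symm, ?_⟩
    have h1 : G.dist y v ≤ q.length := SimpleGraph.dist_le q
    rw [SimpleGraph.Walk.length_cons] at hp
    have h2 := dist_adj_le hG v hadj.symm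
    rw [SimpleGraph.dist_comm] at h1
    omega

lemma dist_map_le [Nonempty V] (hG : Cub G) {g : Perm V} (hg : g ∈ Gam G univ) (v w : V) :
    G.dist (g v) (g w) ≤ G.dist v w := by
  obtain ⟨p, hp⟩ := (conn hG).exists_walk_length_eq_dist v w
  let f : G →g G := ⟨g, fun {a b} h => (Gam_adj hg).2 h⟩
  have := SimpleGraph.dist_le (p.map f)
  rw [SimpleGraph.Walk.length_map, hp] at this
  exact this

lemma dist_map [Nonempty V] (hG : Cub G) {g : Perm V} (hg : g ∈ Gam G univ) (v w : V) :
    G.dist (g v) (g w) = G.dist v w := by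
  apply le_antisymm (dist_map_le hG hg v w)
  have := dist_map_le hG (inv_mem hg) (g v) (g w)
  rwa [pinv2, pinv2] at this

/-- geodesic arcs with a prescribed last step -/
lemma exists_geo [Nonempty V] (hG : Cub G) {v : V} (d : ℕ) : ∀ y z, G.Adj y z →
    G.dist v y = d → G.dist v z = d + 1 →
    ∃ p, Arc G (d + 1) p ∧ p 0 = v ∧ p d = y ∧ p (d + 1) = z ∧ ∀ i ≤ d + 1, G.dist v (p i) = i := by
  induction d with
  | zero =>
    intro y z hyz hy hz
    have hvy : v = y := ((conn hG).dist_eq_zero_iff).1 hy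
    subst hvy
    refine ⟨fun i => if i = 0 then v else z, ⟨fun i hi => ?_, fun i hi => ?_⟩, rfl, rfl, rfl, ?_⟩
    · have : i = 0 := by omega
      subst this
      simpa using hyz
    · omega
    · intro i hi
      by_cases h0 : i = 0
      · simp [h0]
      · have : i = 1 := by omega
        subst this
        simpa using hz
  | succ d ih =>
    intro y z hyz hy hz
    obtain ⟨y', hy', hy'd⟩ := exists_pred hG hy
    obtain ⟨p, hp, hp0, hpd, hpd1, hpdist⟩ := ih y' y hy' hy'd hy
    have hne : p d ≠ z := by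
      intro h'
      rw [hpd] at h'
      rw [h'] at hy'd
      omega
    refine ⟨extd (d + 1) p z, hp.extd (by rw [hpd1]; exact hyz) hne, ?_, ?_, ?_, ?_⟩
    · rw [extd_le (by omega), hp0]
    · rw [extd_le (by omega), hpd1]
    · rw [extd_gt (by omega)]
    · intro i hi
      by_cases h1 : i ≤ d + 1
      · rw [extd_le h1]; exact hpdist i h1
      · have : i = d + 1 + 1 := by omega
        rw [extd_gt (by omega), hz, this]

/-- all `k`-arcs are geodesic -/
def Geo (G : SimpleGraph V) (k : ℕ) : Prop := ∀ p, Arc G k p → G.dist (p 0) (p k) = k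

lemma geo_one (hG : Cub G) : Geo G 1 := by
  intro p hp
  exact SimpleGraph.dist_eq_one_iff_adj.2 (hp.1 0 (by omega))

lemma geo_two [Nonempty V] (hG : Cub G) (hTri : TriF G) : Geo G 2 := by
  intro p hp
  have h1 := hp.1 0 (by omega)
  have h2 := hp.1 1 (by omega)
  have h3 := hp.2 0 (by omega)
  have h4 : ¬ G.Adj (p 0) (p 2) := fun h => hTri _ _ _ h1 h2 h
  have h5 := dist_adj_le hG (p 0) h2
  rw [SimpleGraph.dist_eq_one_iff_adj.2 h1] at h5
  have h6 := (conn hG).one_lt_dist_of_ne_of_not_adj h3 h4
  simp only [Nat.reduceAdd] at h5 h6 ⊢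
  omega

lemma geo_step [Nonempty V] (hG : Cub G) {k : ℕ} (hk : 2 ≤ k) (hg : Geo G k)
    (hA : AT G (k + 2)) : Geo G (k + 1) := by
  intro p hp
  by_contra hne
  obtain ⟨m, rfl⟩ : ∃ m, k = m + 1 := ⟨k - 1, by omega⟩
  have hA1 : AT G (m + 1 + 1) := AT_mono hG hA (by omega) (by omega)
  have hpk := hg p (hp.mono (by omega))
  have hlast := hp.1 (m + 1) (by omega)
  have hd1 := dist_adj_le hG (p 0) hlast
  have hd2 := dist_adj_le hG (p 0) hlast.symm
  obtain ⟨e, he⟩ : ∃ e, G.dist (p 0) (p (m + 1 + 1)) = e + 1 :=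
    ⟨G.dist (p 0) (p (m + 1 + 1)) - 1, by omega⟩
  have hem : e + 1 = m ∨ e + 1 = m + 1 := by omega
  -- all (k+1)-arcs have end distance e + 1
  have hall1 : ∀ q, Arc G (m + 1 + 1) q → G.dist (q 0) (q (m + 1 + 1)) = e + 1 := by
    intro q hq
    obtain ⟨g, hg', hgp⟩ := hA1 p q hp hq
    rw [← hgp 0 (by omega), ← hgp (m + 1 + 1) le_rfl, dist_map hG hg', he]
  obtain ⟨z, hz, hzd⟩ := exists_pred hG he
  have hzne : p (m + 1) ≠ z := by
    intro h'
    rw [h'] at hpk
    omega
  have hp1 := hp.extd hz.symm hzne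
  have hall2 : ∀ q, Arc G (m + 1 + 2) q → G.dist (q 0) (q (m + 1 + 2)) = e := by
    intro q hq
    obtain ⟨g, hg', hgp⟩ := hA _ q hp1 hq
    rw [← hgp 0 (by omega), ← hgp (m + 1 + 2) le_rfl, dist_map hG hg', extd_le (by omega),
      extd_gt (by omega), hzd]
  obtain ⟨z', hz', h1, h2, _⟩ := exists_third hG hlast.symm hz.symm hzne
  have hz'd := hall2 _ (hp.extd hz' h1)
  rw [extd_le (by omega), extd_gt (by omega)] at hz'd
  obtain ⟨r, hr, hr0, hre, hre1, hrd⟩ := exists_geo hG e z _ hz hzd he
  have hr2 := hr.extd (by rw [hre1]; exact hz') (by rw [hre]; exact h2)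
  rcases hem with hem | hem
  · have h3 := hg (extd (e + 1) r z') (by rw [show m + 1 = e + 2 by omega]; exact hr2)
    rw [extd_le (by omega), extd_gt (by omega), hr0, hz'd] at h3
    omega
  · have h3 := hall1 (extd (e + 1) r z') (by rw [show m + 1 + 1 = e + 2 by omega]; exact hr2)
    rw [extd_le (by omega), extd_gt (by omega), hr0, hz'd] at h3
    omega

lemma geo_all [Nonempty V] (hG : Cub G) (hTri : TriF G) {s : ℕ} (hA : AT G (s + 1)) :
    ∀ k, 1 ≤ k → k ≤ s → (k ≤ 2 ∨ 3 ≤ s) → Geo G k := by
  intro k hk1 hks h3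
  induction k with
  | zero => omega
  | succ k ih =>
    rcases Nat.lt_or_ge k 2 with h | h
    · interval_cases k
      · exact geo_one hG
      · exact geo_two hG hTri
    · exact geo_step hG h (ih (by omega) (by omega) (by omega)) (AT_mono hG hA (by omega) (by omega))

/-- spheres -/
noncomputable def Sph (G : SimpleGraph V) (v : V) (i : ℕ) : Finset V :=
  univ.filter (fun z => G.dist v z = i)

lemma mem_Sph {v z : V} {i : ℕ} : z ∈ Sph G v i ↔ G.dist v z = i := by
  simp [Sph]

/-- from a vertex at distance `i ≥ 1`, two neighbours at distance `i+1` -/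
lemma sph_up [Nonempty V] (hG : Cub G) {v y : V} {i : ℕ} (hg : Geo G (i + 2))
    (hy : G.dist v y = i + 1) : ∃ y', G.Adj y y' ∧ G.dist v y' = i ∧
      ∀ z, G.Adj y z → z ≠ y' → G.dist v z = i + 2 := by
  obtain ⟨y', hy', hd⟩ := exists_pred hG hy
  refine ⟨y', hy'.symm, hd, fun z hz hne => ?_⟩
  obtain ⟨p, hp, hp0, hpi, hpi1, _⟩ := exists_geo hG i y' y hy' hd hy
  have h1 := hp.extd (by rw [hpi1]; exact hz) (by rw [hpi]; exact hne.symm)
  have h2 := hg _ h1
  rwa [extd_le (by omega), extd_gt (by omega), hp0] at h2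

lemma sph_count [Nonempty V] (hG : Cub G) {v : V} {i : ℕ} (hg : Geo G (i + 2)) {m : ℕ}
    (hm : ∀ z ∈ Sph G v (i + 2), ((Sph G v (i + 1)).filter (fun y => G.Adj y z)).card ≤ m) :
    (Sph G v (i + 1)).card * 2 ≤ (Sph G v (i + 2)).card * m := by
  apply Finset.card_mul_le_card_mul (r := fun a b => G.Adj a b)
  · intro y hy
    rw [mem_Sph] at hy
    obtain ⟨y', hyy', hd, hall⟩ := sph_up hG hg hy
    have h1 : (G.neighborFinset y).erase y' ⊆
        (Sph G v (i + 2)).bipartiteAbove (fun a b => G.Adj a b) y := by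
      intro z hz
      rw [mem_erase, SimpleGraph.mem_neighborFinset] at hz
      rw [mem_bipartiteAbove, mem_Sph]
      exact ⟨hall z hz.2 hz.1, hz.2⟩
    have h2 := Finset.card_le_card h1
    rwa [Finset.card_erase_of_mem (by simpa using hyy'), hG.deg] at h2
  · intro z hz
    exact hm z hz

lemma sph_count_up [Nonempty V] (hG : Cub G) {v : V} {i : ℕ} {m : ℕ}
    (hm : ∀ z ∈ Sph G v (i + 2), m ≤ ((Sph G v (i + 1)).filter (fun y => G.Adj y z)).card)
    : (Sph G v (i + 2)).card * m ≤ (Sph G v (i + 1)).card * 2 := by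
  apply Finset.card_mul_le_card_mul' (r := fun a b => G.Adj a b)
  · intro z hz
    exact hm z hz
  · intro y hy
    rw [mem_Sph] at hy
    obtain ⟨y', hy', hd⟩ := exists_pred hG hy
    have h1 : (Sph G v (i + 2)).bipartiteAbove (fun a b => G.Adj a b) y ⊆
        (G.neighborFinset y).erase y' := by
      intro z hz
      rw [mem_bipartiteAbove, mem_Sph] at hz
      rw [mem_erase, SimpleGraph.mem_neighborFinset]
      refine ⟨?_, hz.2⟩
      rintro rfl
      omega
    have h2 := Finset.card_le_card h1
    rwa [Finset.card_erase_of_mem (by simpa using hy'.symm), hG.deg] at h2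

lemma sph_one (hG : Cub G) (v : V) : (Sph G v 1).card = 3 := by
  rw [← hG.deg v]
  congr 1
  ext z
  rw [mem_Sph, SimpleGraph.mem_neighborFinset, SimpleGraph.dist_eq_one_iff_adj]

lemma sph_zero [Nonempty V] (hG : Cub G) (v : V) : (Sph G v 0).card = 1 := by
  rw [Finset.card_eq_one]
  refine ⟨v, ?_⟩
  ext z
  rw [mem_Sph, mem_singleton, (conn hG).dist_eq_zero_iff]
  exact ⟨fun h => h.symm, fun h => h.symm⟩

/-- doubling of spheres -/
lemma sph_double [Nonempty V] (hG : Cub G) {v : V} {i : ℕ} (hg : Geo G (i + 2))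
    (hg' : Geo G (i + 3)) : (Sph G v (i + 1)).card * 2 ≤ (Sph G v (i + 2)).card := by
  have := sph_count hG hg (v := v) (m := 1) (by
    intro z hz
    rw [mem_Sph] at hz
    obtain ⟨y', hzy', hd, hall⟩ := sph_up hG hg' hz
    rw [Finset.card_le_one]
    intro a ha b hb
    rw [mem_filter, mem_Sph] at ha hb
    have h1 : a = y' := by
      by_contra hne
      have := hall a ha.2.symm hne
      omega
    have h2 : b = y' := by
      by_contra hne
      have := hall b hb.2.symm hne
      omega
    rw [h1, h2])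
  omega

/-- balls -/
noncomputable def Bal (G : SimpleGraph V) (v : V) (i : ℕ) : Finset V :=
  univ.filter (fun z => G.dist v z ≤ i)

lemma mem_Bal {v z : V} {i : ℕ} : z ∈ Bal G v i ↔ G.dist v z ≤ i := by
  simp [Bal]

lemma bal_succ (v : V) (i : ℕ) : (Bal G v (i + 1)).card = (Bal G v i).card +
    (Sph G v (i + 1)).card := by
  rw [← Finset.card_union_of_disjoint]
  · congr 1
    ext z
    rw [mem_union, mem_Bal, mem_Bal, mem_Sph]
    omega
  · rw [Finset.disjoint_left]
    intro z hz hz'
    rw [mem_Bal] at hz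
    rw [mem_Sph] at hz'
    omega

lemma bal_zero [Nonempty V] (hG : Cub G) (v : V) : (Bal G v 0).card = 1 := by
  rw [← sph_zero hG v]
  congr 1
  ext z
  rw [mem_Bal, mem_Sph]
  omega

/-- growth -/
lemma growth [Nonempty V] (hG : Cub G) {v : V} (m : ℕ) (hg : ∀ k, 1 ≤ k → k ≤ m + 2 → Geo G k) :
    3 * 2 ^ m ≤ (Sph G v (m + 1)).card ∧ 3 * 2 ^ (m + 1) ≤ (Bal G v (m + 1)).card + 2 := by
  induction m with
  | zero =>
    have h1 := sph_one hG v
    have h2 := bal_succ (G := G) v 0
    rw [bal_zero hG v] at h2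
    simp only [zero_add] at h2 ⊢
    omega
  | succ m ih =>
    obtain ⟨h1, h2⟩ := ih (fun k hk hk' => hg k hk (by omega))
    have h3 := sph_double hG (v := v) (hg (m + 2) (by omega) (by omega)) (hg (m + 3) (by omega) (by omega))
    have h4 := bal_succ (G := G) v (m + 1)
    have h5 : 2 ^ (m + 1) = 2 * 2 ^ m := by rw [pow_succ]; ring
    have h6 : 2 ^ (m + 1 + 1) = 2 * 2 ^ (m + 1) := by rw [pow_succ]; ring
    constructor
    · rw [h5]
      show 3 * (2 * 2 ^ m) ≤ (Sph G v (m + 2)).card
      omega
    · rw [h6, h4]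
      show 3 * (2 * 2 ^ (m + 1)) ≤ (Bal G v (m + 1)).card + (Sph G v (m + 2)).card + 2
      omega

/-- the bound in the arc-transitive case -/
lemma at_bound [Nonempty V] (hG : Cub G) (hTri : TriF G) (hn : 16 ≤ Fintype.card V) {j : ℕ}
    (hj : 3 ≤ j) (hA : AT G (j + 1)) : 4 * j + 8 ≤ Fintype.card V := by
  classical
  have v : V := Classical.arbitrary V
  have hgeo : ∀ k, 1 ≤ k → k ≤ j → Geo G k := fun k h1 h2 =>
    geo_all hG hTri hA k h1 h2 (Or.inr hj)
  obtain ⟨m, rfl⟩ : ∃ m, j = m + 2 := ⟨j - 2, by omega⟩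
  obtain ⟨h1, h2⟩ := growth hG (v := v) m hgeo
  -- m ≥ 1, spheres up to m + 1 = j - 1 are full
  have h3 : (Bal G v (m + 2)).card ≤ Fintype.card V := Finset.card_le_univ _
  have h4 := bal_succ (G := G) v (m + 1)
  have h4' : (Bal G v (m + 2)).card = (Bal G v (m + 1)).card + (Sph G v (m + 2)).card := h4
  rcases Nat.lt_or_ge m 2 with hm | hm
  · have hm1 : m = 1 := by omega
    subst hm1
    -- j = 3
    by_cases hex : ∃ z ∈ Sph G v 3, 2 ≤ ((Sph G v 2).filter (fun y => G.Adj y z)).card
    · exfalso
      obtain ⟨z, hz, hz2⟩ := hex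
      rw [mem_Sph] at hz
      -- a 4-arc with end distance 2
      obtain ⟨y, hy, hyd⟩ := exists_pred hG (show G.dist v z = 2 + 1 from hz)
      obtain ⟨y2, hy2, hy2ne⟩ := Finset.exists_mem_ne (by omega : 1 <
        ((Sph G v 2).filter (fun y => G.Adj y z)).card) y
      rw [mem_filter, mem_Sph] at hy2
      obtain ⟨p, hp, hp0, hp2, hp3, _⟩ := exists_geo hG 2 y z hy hyd hz
      have hp4 := hp.extd (z := y2) (by rw [hp3]; exact hy2.2.symm)
        (by rw [hp2]; exact hy2ne.symm)
      have hall : ∀ q, Arc G 4 q → G.dist (q 0) (q 4) = 2 := by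
        intro q hq
        obtain ⟨g, hg, hgp⟩ := hA _ q hp4 hq
        rw [← hgp 0 (by omega), ← hgp 4 le_rfl, dist_map hG hg, extd_le (by omega),
          extd_gt (by omega), hp0, hy2.1]
      -- all neighbours of vertices at distance 3 are at distance 2
      have hnb : ∀ w, G.dist v w = 3 → ∀ x, G.Adj w x → G.dist v x = 2 := by
        intro w hw x hx
        obtain ⟨a, ha, had⟩ := exists_pred hG (show G.dist v w = 2 + 1 from hw)
        by_cases hxa : x = a
        · rw [hxa]; exact had
        · obtain ⟨r, hr, hr0, hr2, hr3, _⟩ := exists_geo hG 2 a w ha had hw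
          have hr4 := hr.extd (z := x) (by rw [hr3]; exact hx) (by rw [hr2]; exact Ne.symm hxa)
          have := hall _ hr4
          rwa [extd_le (by omega), extd_gt (by omega), hr0] at this
      have hball : Bal G v 3 = univ := by
        apply closure_univ hG
        · exact ⟨v, by rw [mem_Bal]; simp⟩
        · intro x hx y hxy
          rw [mem_Bal] at hx ⊢
          rcases Nat.lt_or_ge (G.dist v x) 3 with h5 | h5
          · have := dist_adj_le hG v hxy
            omega
          · have := hnb x (by omega) y hxy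
            omega
      have c2 : (Sph G v 2).card * 1 ≤ (Sph G v 1).card * 2 := by
        apply sph_count_up hG (i := 0)
        intro z hz
        rw [mem_Sph] at hz
        obtain ⟨y, hy, hyd⟩ := exists_pred hG (show G.dist v z = 1 + 1 from hz)
        rw [Nat.one_le_iff_ne_zero, ← Nat.pos_iff_ne_zero, Finset.card_pos]
        exact ⟨y, by rw [mem_filter, mem_Sph]; exact ⟨hyd, hy⟩⟩
      have c3 : (Sph G v 3).card * 3 ≤ (Sph G v 2).card * 2 := by
        apply sph_count_up hG (i := 1)
        intro z hz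
        rw [mem_Sph] at hz
        rw [← hG.deg z]
        apply Finset.card_le_card
        intro y hy
        rw [SimpleGraph.mem_neighborFinset] at hy
        rw [mem_filter, mem_Sph]
        exact ⟨hnb z hz y hy, hy.symm⟩
      have b1 := bal_succ (G := G) v 0
      have b2 := bal_succ (G := G) v 1
      have b3 := bal_succ (G := G) v 2
      rw [bal_zero hG v] at b1
      simp only [Nat.reduceAdd, zero_add] at b1 b2 b3
      rw [sph_one hG v] at b1 c2
      rw [hball, Finset.card_univ] at b3
      omega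
    · push Not at hex
      have c := sph_count hG (v := v) (i := 1) (hgeo 3 (by omega) (by omega)) (m := 1)
        (fun z hz => by
          have := hex z hz
          show ((Sph G v 2).filter (fun y => G.Adj y z)).card ≤ 1
          omega)
      simp only [Nat.reduceAdd] at c h1 h2 h3 h4 h4' ⊢
      omega
  · have c := sph_count hG (v := v) (i := m) (hgeo (m + 2) (by omega) (by omega)) (m := 3)
      (fun z hz => by
        rw [← hG.deg z]
        apply Finset.card_le_card
        intro y hy
        rw [mem_filter] at hy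
        rw [SimpleGraph.mem_neighborFinset]
        exact hy.2.symm)
    have h5 : m + 2 ≤ 2 ^ m := by
      clear h1 h2 c h3 h4 h4' hgeo hA hj
      induction m with
      | zero => omega
      | succ m ih =>
        rcases Nat.lt_or_ge m 2 with h | h
        · interval_cases m
          · omega
          · norm_num
        · have := ih h
          rw [pow_succ]; omega
    have h6 : 2 ^ (m + 1) = 2 * 2 ^ m := by rw [pow_succ]; ring
    rw [h6] at h2
    omega

end Pool.Agent.H23.Cubic
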