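import Mathlib
import Pool.Agent.H23.Cubic.Geo

set_option autoImplicit false

namespace Pool.Agent.H23.Cubic

open Equiv Finset

set_option linter.unusedSectionVars false
set_option linter.unusedVariables false

variable {V : Type*} [Fintype V] [DecidableEq V] {G : SimpleGraph V} [DecidableRel G.Adj]

/-- the claim proved by induction -/
def Claim (G : SimpleGraph V) : Prop :=
  Nat.card (Gam G univ) ^ 4 < (max 16 (Fintype.card V)) ^ 4 * 2 ^ Fintype.card V ∨
  (Fintype.card V < 16 ∧ VT G ∧ Nat.card (Gam G univ) ^ 4 < 32 ^ 4 * 2 ^ Fintype.card V ∧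
    Nat.card (Gam G univ) ^ 4 < (5 * Fintype.card V) ^ 4 * 2 ^ Fintype.card V)

lemma orb_of_VT (h : VT G) (v : V) : (orb G univ v).card = Fintype.card V := by
  rw [← Finset.card_univ]
  congr 1
  ext z
  simp only [mem_univ, iff_true]
  rw [mem_orb]
  exact h v z

lemma case_VT [Nonempty V] (hG : Cub G) (hT : TwF G) (hTri : TriF G) (hLT : ∀ v, LT G v)
    (hVT : VT G) (hn : 16 ≤ Fintype.card V) :
    Nat.card (Gam G univ) ^ 4 < Fintype.card V ^ 4 * 2 ^ Fintype.card V := by
  have hA : ∀ v w, G.Adj v w → Nat.card (Gam G univ) =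
      Fintype.card V * (3 * Nat.card (Gam G (D2 G v w))) := by
    intro v w hvw
    have := card_A (G := G) v w
    rwa [orb_card_three hG (hLT v) hvw, orb_of_VT hVT v] at this
  obtain ⟨w0, h0⟩ := exists_nb hG (Classical.arbitrary V)
  obtain ⟨j, hj⟩ := card_pow_two hG h0
  have hA0 := hA _ _ h0
  have hjall : ∀ v w, G.Adj v w → Nat.card (Gam G (D2 G v w)) = 2 ^ j := by
    intro v w hvw
    have h1 := hA v w hvw
    rw [hA0, hj] at h1
    have h2 := Nat.eq_of_mul_eq_mul_left (by omega) h1
    exact (Nat.eq_of_mul_eq_mul_left (by norm_num) h2).symm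
  have hAT : AT G 1 := by
    intro p q hp hq
    obtain ⟨g, hg, hg0⟩ := hVT (p 0) (q 0)
    have h1 : G.Adj (q 0) (g (p 1)) := by
      have := (Gam_adj hg).2 (hp.1 0 (by omega))
      rwa [hg0] at this
    obtain ⟨k, hk, hk0, hk1⟩ := hLT (q 0) (g (p 1)) (q 1) h1 (hq.1 0 (by omega))
    refine ⟨k * g, mul_mem hk hg, fun i hi => ?_⟩
    rw [Perm.mul_apply]
    have : i = 0 ∨ i = 1 := by omega
    rcases this with rfl | rfl
    · rw [hg0, hk0]
    · exact hk1
  have hcard : Nat.card (Gam G univ) ^ 4 = 81 * (Fintype.card V ^ 4 * 2 ^ (4 * j)) := by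
    rw [hA0, hj, mul_pow, mul_pow, ← pow_mul, mul_comm j 4]
    ring
  have hVpos : 0 < Fintype.card V ^ 4 := by positivity
  rw [hcard]
  rcases Nat.lt_or_ge j 3 with h3 | h3
  · have h4 : 2 ^ (4 * j) ≤ 2 ^ 8 := Nat.pow_le_pow_right (by norm_num) (by omega)
    have h5 : 2 ^ 16 ≤ 2 ^ Fintype.card V := Nat.pow_le_pow_right (by norm_num) hn
    have h6 : 81 * 2 ^ (4 * j) < 2 ^ Fintype.card V := by
      norm_num at h4 h5
      omega
    calc 81 * (Fintype.card V ^ 4 * 2 ^ (4 * j)) = Fintype.card V ^ 4 * (81 * 2 ^ (4 * j)) := by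
          ring
      _ < _ := Nat.mul_lt_mul_of_pos_left h6 hVpos
  · have h4 := at_bound hG hTri hn h3 (AT_of_card hG hAT hjall j le_rfl).1
    have h5 : 2 ^ (4 * j) * 256 ≤ 2 ^ Fintype.card V := by
      calc 2 ^ (4 * j) * 256 = 2 ^ (4 * j + 8) := by rw [pow_add]; norm_num
        _ ≤ _ := Nat.pow_le_pow_right (by norm_num) h4
    have h6 : 81 * 2 ^ (4 * j) < 2 ^ Fintype.card V := by
      have : 0 < 2 ^ (4 * j) := by positivity
      omega
    calc 81 * (Fintype.card V ^ 4 * 2 ^ (4 * j)) = Fintype.card V ^ 4 * (81 * 2 ^ (4 * j)) := by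
          ring
      _ < _ := Nat.mul_lt_mul_of_pos_left h6 hVpos

/-- Theorem B, large case -/
theorem thmB_large [Nonempty V] (hG : Cub G) (hT : TwF G) (hTri : TriF G)
    (hn : 16 ≤ Fintype.card V) :
    Nat.card (Gam G univ) ^ 4 < Fintype.card V ^ 4 * 2 ^ Fintype.card V := by
  by_cases hLT : ∀ v, LT G v
  · obtain ⟨w, hw⟩ := exists_nb hG (Classical.arbitrary V)
    rcases VT_or_half hG hLT hw with h | h
    · exact case_VT hG hT hTri hLT h hn
    · exact case_half hG hT hTri hLT hn hw h
  · exact case_one hG hT hTri hLT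

/-- Theorem B -/
theorem thmB [Nonempty V] (hG : Cub G) (hT : TwF G) (hTri : TriF G) : Claim G := by
  unfold Claim
  rcases Nat.lt_or_ge (Fintype.card V) 16 with hn | hn
  · have hmax : max 16 (Fintype.card V) = 16 := max_eq_left hn.le
    rw [hmax]
    have hp : 0 < 2 ^ Fintype.card V := by positivity
    have h4 : Fintype.card V ^ 4 ≤ 15 ^ 4 := Nat.pow_le_pow_left (by omega) 4
    have hVpos : 0 < Fintype.card V := Fintype.card_pos
    have hVpos4 : 0 < Fintype.card V ^ 4 := by positivity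
    by_cases hLT : ∀ v, LT G v
    · obtain ⟨w, hw⟩ := exists_nb hG (Classical.arbitrary V)
      have hb := D2_bound hG hT hTri hw
      have hA := card_A (G := G) (Classical.arbitrary V) w
      rw [orb_card_three hG (hLT _) hw] at hA
      set a := Nat.card (Gam G (D2 G (Classical.arbitrary V) w)) with ha
      set n := Fintype.card V with hnn
      have hb' : n ^ 4 * (4 * a ^ 4) ≤ n ^ 4 * 2 ^ n := Nat.mul_le_mul_left _ hb
      have hb2 : n ^ 4 * 2 ^ n ≤ 15 ^ 4 * 2 ^ n := Nat.mul_le_mul_right _ h4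
      rcases VT_or_half hG hLT hw with h | h
      · right
        rw [orb_of_VT h] at hA
        refine ⟨hn, h, ?_, ?_⟩
        · have e : Nat.card (Gam G univ) ^ 4 = 81 * (n ^ 4 * a ^ 4) := by
            rw [hA]; ring
          rw [e]
          norm_num at hb2 ⊢
          nlinarith
        · have e : Nat.card (Gam G univ) ^ 4 = 81 * (n ^ 4 * a ^ 4) := by
            rw [hA]; ring
          have e2 : (5 * n) ^ 4 * 2 ^ n = 625 * (n ^ 4 * 2 ^ n) := by ring
          rw [e, e2]
          have : 0 < n ^ 4 * 2 ^ n := by positivity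
          nlinarith
      · left
        have h3 : 2 * Nat.card (Gam G univ) = 3 * n * a := by
          rw [hA, hnn, ← h]; ring
        have h5 : 16 * Nat.card (Gam G univ) ^ 4 = 81 * (n ^ 4 * a ^ 4) := by
          have : (2 * Nat.card (Gam G univ)) ^ 4 = (3 * n * a) ^ 4 := by rw [h3]
          nlinarith [this]
        norm_num at hb2 ⊢
        nlinarith
    · left
      have h1 := case_one hG hT hTri hLT
      refine h1.trans_le ?_
      apply Nat.mul_le_mul_right
      exact Nat.pow_le_pow_left (by omega) 4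
  · left
    rw [max_eq_right hn]
    exact thmB_large hG hT hTri hn

end Pool.Agent.H23.Cubic
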