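import Mathlib
import Pool.Agent.H23.Cubic.ThmB

set_option autoImplicit false

namespace Pool.Agent.H23.Cubic

open Equiv Finset

set_option linter.unusedSectionVars false
set_option linter.unusedVariables false

variable {V : Type*} [Fintype V] [DecidableEq V] {G : SimpleGraph V} [DecidableRel G.Adj]

/-- arcs from `P` to `Q` -/
def ar (G : SimpleGraph V) [DecidableRel G.Adj] (P Q : Finset V) : Finset (V × V) :=
  (P ×ˢ Q).filter (fun e => G.Adj e.1 e.2)

lemma mem_ar {P Q : Finset V} {e : V × V} :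
    e ∈ ar G P Q ↔ (e.1 ∈ P ∧ e.2 ∈ Q) ∧ G.Adj e.1 e.2 := by
  simp [ar]

lemma out_eq (X : Finset V) : out G X = (ar G X (univ \ X)).card := by
  unfold out ar
  rw [Finset.card_filter, Finset.sum_product]
  apply Finset.sum_congr rfl
  intro x hx
  rw [← Finset.card_filter]
  congr 1
  ext y
  simp only [mem_sdiff, SimpleGraph.mem_neighborFinset, mem_filter, mem_univ, true_and]
  tauto

section
variable {W : Type*} [Fintype W] [DecidableEq W] {f : V → W}

/-- fibre -/
def fib (f : V → W) (w : W) : Finset V := univ.filter (fun x => f x = w)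

lemma mem_fib {w : W} {x : V} : x ∈ fib f w ↔ f x = w := by simp [fib]

/-- a contraction onto at least three classes, each with exactly three leaving edges -/
structure Contr (G : SimpleGraph V) [DecidableRel G.Adj] (f : V → W) : Prop where
  surj : Function.Surjective f
  out3 : ∀ w, out G (fib f w) = 3
  card3 : 3 ≤ Fintype.card W

/-- the quotient graph -/
def quo (G : SimpleGraph V) (f : V → W) : SimpleGraph W where
  Adj a b := a ≠ b ∧ ∃ x y, f x = a ∧ f y = b ∧ G.Adj x y
  symm := ⟨fun a b h => ⟨h.1.symm, by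
    obtain ⟨x, y, h1, h2, h3⟩ := h.2
    exact ⟨y, x, h2, h1, h3.symm⟩⟩⟩
  loopless := ⟨fun a h => h.1 rfl⟩

lemma quo_adj {a b : W} : (quo G f).Adj a b ↔ a ≠ b ∧ ∃ x y, f x = a ∧ f y = b ∧ G.Adj x y :=
  Iff.rfl

/-- (Q1) at most one edge between two classes -/
lemma Contr.unique (hG : Cub G) (hf : Contr G f) {x y x' y' : V} (h : G.Adj x y)
    (h' : G.Adj x' y') (hx : f x = f x') (hy : f y = f y') (hne : f x ≠ f y) :
    x = x' ∧ y = y' := by
  by_contra hcon
  have hpair : (x, y) ≠ (x', y') := by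
    intro h1
    rw [Prod.mk.injEq] at h1
    exact hcon h1
  set P := fib f (f x) with hP
  set Q := fib f (f y) with hQ
  have hsub : (ar G (P ∪ Q) (univ \ (P ∪ Q)) ∪ ar G P Q) ∪ ar G Q P ⊆
      ar G P (univ \ P) ∪ ar G Q (univ \ Q) := by
    intro e he
    simp only [mem_union, mem_ar, mem_sdiff, mem_univ, true_and] at he ⊢
    have hd : ∀ z, z ∈ P → z ∈ Q → False := by
      intro z hz hz'
      rw [hP, mem_fib] at hz
      rw [hQ, mem_fib] at hz'
      exact hne (hz.symm.trans hz')
    rcases he with (⟨⟨h1, h2⟩, h3⟩ | ⟨⟨h1, h2⟩, h3⟩) | ⟨⟨h1, h2⟩, h3⟩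
    · rcases h1 with h1 | h1
      · left; exact ⟨⟨h1, fun h4 => h2 (Or.inl h4)⟩, h3⟩
      · right; exact ⟨⟨h1, fun h4 => h2 (Or.inr h4)⟩, h3⟩
    · left; exact ⟨⟨h1, fun h4 => hd _ h4 h2⟩, h3⟩
    · right; exact ⟨⟨h1, fun h4 => hd _ h2 h4⟩, h3⟩
  have hd1 : Disjoint (ar G (P ∪ Q) (univ \ (P ∪ Q))) (ar G P Q) := by
    rw [Finset.disjoint_left]
    intro e he he'
    simp only [mem_union, mem_ar, mem_sdiff, mem_univ, true_and] at he he'
    exact he.1.2 (Or.inr he'.1.2)
  have hd2 : Disjoint (ar G (P ∪ Q) (univ \ (P ∪ Q)) ∪ ar G P Q) (ar G Q P) := by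
    rw [Finset.disjoint_left]
    intro e he he'
    simp only [mem_union, mem_ar, mem_sdiff, mem_univ, true_and] at he he'
    rcases he with he | he
    · exact he.1.2 (Or.inl he'.1.2)
    · have h1 := he.1.1
      have h2 := he'.1.1
      rw [hP, mem_fib] at h1
      rw [hQ, mem_fib] at h2
      exact hne (h1.symm.trans h2)
  have hc := Finset.card_le_card hsub
  rw [Finset.card_union_of_disjoint hd2, Finset.card_union_of_disjoint hd1] at hc
  have hc2 := Finset.card_union_le (ar G P (univ \ P)) (ar G Q (univ \ Q))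
  rw [← out_eq, ← out_eq, hf.out3, hf.out3] at hc2
  rw [← out_eq] at hc
  have h2a : 2 ≤ (ar G P Q).card := by
    have : ({(x, y), (x', y')} : Finset (V × V)) ⊆ ar G P Q := by
      intro e he
      simp only [mem_insert, mem_singleton] at he
      rw [mem_ar, hP, hQ, mem_fib, mem_fib]
      rcases he with rfl | rfl
      · exact ⟨⟨rfl, rfl⟩, h⟩
      · exact ⟨⟨hx.symm, hy.symm⟩, h'⟩
    have h3 := Finset.card_le_card this
    rwa [Finset.card_pair hpair] at h3
  have h2b : 2 ≤ (ar G Q P).card := by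
    have : ({(y, x), (y', x')} : Finset (V × V)) ⊆ ar G Q P := by
      intro e he
      simp only [mem_insert, mem_singleton] at he
      rw [mem_ar, hP, hQ, mem_fib, mem_fib]
      rcases he with rfl | rfl
      · exact ⟨⟨rfl, rfl⟩, h.symm⟩
      · exact ⟨⟨hy.symm, hx.symm⟩, h'.symm⟩
    have h3 := Finset.card_le_card this
    have h4 : (y, x) ≠ (y', x') := by
      intro h5
      rw [Prod.mk.injEq] at h5
      exact hcon ⟨h5.2, h5.1⟩
    rwa [Finset.card_pair h4] at h3
  have hlt : out G (P ∪ Q) < 3 := by omega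
  have huniv : P ∪ Q = univ := by
    by_contra hne'
    have := hG.e3 (P ∪ Q) ⟨x, by rw [mem_union, hP, mem_fib]; exact Or.inl rfl⟩ hne'
    omega
  have hW : (univ : Finset W) ⊆ {f x, f y} := by
    intro w _
    obtain ⟨z, rfl⟩ := hf.surj w
    have : z ∈ P ∪ Q := by rw [huniv]; exact mem_univ z
    rw [mem_union, hP, hQ, mem_fib, mem_fib] at this
    simp only [mem_insert, mem_singleton]
    exact this
  have h3 := Finset.card_le_card hW
  rw [Finset.card_univ] at h3
  have h4 := hf.card3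
  have h5 : ({f x, f y} : Finset W).card ≤ 2 := Finset.card_le_two
  omega

lemma Contr.cub (hG : Cub G) (hf : Contr G f) [DecidableRel (quo G f).Adj] :
    Cub (quo G f) := by
  classical
  refine ⟨?_, ?_⟩
  · intro w
    rw [← hf.out3 w, out_eq]
    have himg : (quo G f).neighborFinset w = (ar G (fib f w) (univ \ fib f w)).image
        (fun e => f e.2) := by
      ext a
      rw [SimpleGraph.mem_neighborFinset, quo_adj, mem_image]
      constructor
      · rintro ⟨hne, x, y, rfl, rfl, hxy⟩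
        refine ⟨(x, y), ?_, rfl⟩
        rw [mem_ar]
        refine ⟨⟨mem_fib.2 rfl, ?_⟩, hxy⟩
        rw [mem_sdiff, mem_fib]
        exact ⟨mem_univ _, fun h => hne h.symm⟩
      · rintro ⟨⟨x, y⟩, he, rfl⟩
        rw [mem_ar] at he
        obtain ⟨⟨h1, h2⟩, h3⟩ := he
        simp only at h1 h2 h3 ⊢
        rw [mem_sdiff, mem_fib] at h2
        rw [mem_fib] at h1
        exact ⟨fun h => h2.2 h.symm, x, y, h1, rfl, h3⟩
    rw [himg]
    apply Finset.card_image_of_injOn
    rintro ⟨x, y⟩ he ⟨x', y'⟩ he' heq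
    rw [Finset.mem_coe, mem_ar] at he he'
    obtain ⟨⟨h1, h2⟩, h3⟩ := he
    obtain ⟨⟨h1', h2'⟩, h3'⟩ := he'
    simp only at h1 h2 h3 h1' h2' h3' heq
    rw [mem_fib] at h1 h1'
    rw [mem_sdiff, mem_fib] at h2 h2'
    have := hf.unique hG h3 h3' (h1.trans h1'.symm) heq (fun h => h2.2 (h.symm.trans h1))
    rw [this.1, this.2]
  · intro X hX hne
    have hX' : (univ.filter (fun x => f x ∈ X)).Nonempty := by
      obtain ⟨w, hw⟩ := hX
      obtain ⟨x, rfl⟩ := hf.surj w
      exact ⟨x, by rw [mem_filter]; exact ⟨mem_univ _, hw⟩⟩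
    have hne' : (univ.filter (fun x => f x ∈ X)) ≠ univ := by
      intro h
      apply hne
      ext w
      simp only [mem_univ, iff_true]
      obtain ⟨x, rfl⟩ := hf.surj w
      have : x ∈ univ.filter (fun x => f x ∈ X) := by rw [h]; exact mem_univ x
      exact (mem_filter.1 this).2
    refine (hG.e3 _ hX' hne').trans ?_
    rw [out_eq, out_eq]
    apply Finset.card_le_card_of_injOn (fun e => (f e.1, f e.2))
    · rintro ⟨x, y⟩ he
      rw [Finset.mem_coe, mem_ar] at he ⊢
      obtain ⟨⟨h1, h2⟩, h3⟩ := he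
      simp only [mem_filter, mem_univ, true_and, mem_sdiff] at h1 h2 h3 ⊢
      refine ⟨⟨h1, h2⟩, ?_⟩
      rw [quo_adj]
      refine ⟨fun h => h2 (h ▸ h1), x, y, rfl, rfl, h3⟩
    · rintro ⟨x, y⟩ he ⟨x', y'⟩ he' heq
      rw [Finset.mem_coe, mem_ar] at he he'
      obtain ⟨⟨h1, h2⟩, h3⟩ := he
      obtain ⟨⟨h1', h2'⟩, h3'⟩ := he'
      simp only [mem_filter, mem_univ, true_and, mem_sdiff] at h1 h2 h3 h1' h2' h3'
      simp only [Prod.mk.injEq] at heq
      have := hf.unique hG h3 h3' heq.1 heq.2 (fun h => h2 (h ▸ h1))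
      rw [this.1, this.2]

/-- compatibility of the partition with the automorphisms -/
def Compat (G : SimpleGraph V) (f : V → W) : Prop :=
  ∀ g ∈ Gam G univ, ∀ x y, f x = f y → f (g x) = f (g y)

lemma exists_ind (hf : Contr G f) (hc : Compat G f) (g : Gam G univ) :
    ∃ k : Gam (quo G f) univ, ∀ x, k.1 (f x) = f (g.1 x) := by
  classical
  obtain ⟨g, hg⟩ := g
  have h1 : ∀ k ∈ Gam G univ, ∀ x, f (k (Function.surjInv hf.surj (f x))) = f (k x) := by
    intro k hk x
    exact hc k hk _ _ (Function.surjInv_eq hf.surj (f x))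
  let F : W → W := fun w => f (g (Function.surjInv hf.surj w))
  let F' : W → W := fun w => f (g⁻¹ (Function.surjInv hf.surj w))
  have hF : ∀ x, F (f x) = f (g x) := fun x => h1 g hg x
  have hF' : ∀ x, F' (f x) = f (g⁻¹ x) := fun x => h1 g⁻¹ (inv_mem hg) x
  let k : Perm W := ⟨F, F', by
    intro w
    obtain ⟨x, rfl⟩ := hf.surj w
    rw [hF, hF', pinv2], by
    intro w
    obtain ⟨x, rfl⟩ := hf.surj w
    rw [hF', hF, pinv1]⟩
  have hk : ∀ x, k (f x) = f (g x) := hF
  refine ⟨⟨k, ⟨?_, fun w hw => absurd (mem_univ w) hw⟩⟩, hk⟩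
  intro a b
  constructor
  · rintro ⟨hne, x, y, hx, hy, hxy⟩
    refine ⟨fun h => hne (by rw [h]), g⁻¹ x, g⁻¹ y, ?_, ?_, ?_⟩
    · apply k.injective
      rw [hk, pinv1, hx]
    · apply k.injective
      rw [hk, pinv1, hy]
    · exact (Gam_adj (inv_mem hg)).2 hxy
  · rintro ⟨hne, x, y, rfl, rfl, hxy⟩
    refine ⟨fun h => hne (k.injective h), g x, g y, (hk x).symm, (hk y).symm, ?_⟩
    exact (Gam_adj hg).2 hxy

/-- the induced homomorphism -/
noncomputable def indHom (hf : Contr G f) (hc : Compat G f) :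
    Gam G univ →* Gam (quo G f) univ :=
  MonoidHom.mk' (fun g => Classical.choose (exists_ind hf hc g)) (by
    intro a b
    apply Subtype.ext
    ext w
    obtain ⟨x, rfl⟩ := hf.surj w
    rw [Classical.choose_spec (exists_ind hf hc (a * b)) x]
    rw [Subgroup.coe_mul, Perm.mul_apply, Subgroup.coe_mul, Perm.mul_apply,
      Classical.choose_spec (exists_ind hf hc b) x,
      Classical.choose_spec (exists_ind hf hc a)])

lemma indHom_apply (hf : Contr G f) (hc : Compat G f) (g : Gam G univ) (x : V) :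
    (indHom hf hc g).1 (f x) = f (g.1 x) :=
  Classical.choose_spec (exists_ind hf hc g) x

/-- a vertex with a neighbour in another class is fixed by the kernel -/
lemma ker_fix (hG : Cub G) (hf : Contr G f) (hc : Compat G f) {g : Gam G univ}
    (hg : g ∈ (indHom hf hc).ker) {x y : V} (hxy : G.Adj x y) (hne : f x ≠ f y) :
    g.1 x = x := by
  have hk : ∀ z, f (g.1 z) = f z := by
    intro z
    rw [← indHom_apply hf hc g z]
    rw [MonoidHom.mem_ker] at hg
    rw [hg]; rfl
  exact (hf.unique hG hxy ((Gam_adj g.2).2 hxy) (hk x).symm (hk y).symm hne).1.symm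

lemma ker_class (hf : Contr G f) (hc : Compat G f) {g : Gam G univ}
    (hg : g ∈ (indHom hf hc).ker) (z : V) : f (g.1 z) = f z := by
  rw [← indHom_apply hf hc g z]
  rw [MonoidHom.mem_ker] at hg
  rw [hg]; rfl

lemma card_ker_range (hf : Contr G f) (hc : Compat G f) :
    Nat.card (Gam G univ) = Nat.card (indHom hf hc).ker * Nat.card (indHom hf hc).range := by
  rw [← Subgroup.index_ker, Subgroup.card_mul_index]

/-- the set of non-trivial classes -/
def TT (f : V → W) : Finset W := univ.filter (fun w => 1 < (fib f w).card)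

lemma mem_TT {w : W} : w ∈ TT f ↔ 1 < (fib f w).card := by simp [TT]

lemma TT_inv (hf : Contr G f) (hc : Compat G f) (g : Gam G univ) {w : W} (hw : w ∈ TT f) :
    (indHom hf hc g).1 w ∈ TT f := by
  rw [mem_TT] at hw ⊢
  refine hw.trans_le ?_
  rw [← Finset.card_image_of_injective (fib f w) g.1.injective]
  apply Finset.card_le_card
  intro z hz
  obtain ⟨x, hx, rfl⟩ := mem_image.1 hz
  rw [mem_fib] at hx ⊢
  rw [← indHom_apply hf hc g x, hx]

lemma card_le_of_ker (hf : Contr G f) (hc : Compat G f) {k : ℕ}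
    (hk : Nat.card (indHom hf hc).ker ≤ k) :
    Nat.card (Gam G univ) ≤ k * Nat.card (Gam (quo G f) univ) := by
  rw [card_ker_range hf hc]
  exact Nat.mul_le_mul hk (Subgroup.card_le_card_group _)

lemma card_le_half (hf : Contr G f) (hc : Compat G f) {k : ℕ}
    (hk : Nat.card (indHom hf hc).ker ≤ k) (hVT : VT (quo G f)) (h1 : (TT f).Nonempty)
    (h2 : TT f ≠ univ) :
    2 * Nat.card (Gam G univ) ≤ k * Nat.card (Gam (quo G f) univ) := by
  have hne : (indHom hf hc).range ≠ ⊤ := by
    intro htop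
    obtain ⟨w, hw⟩ := h1
    have h3 : ∃ w', w' ∉ TT f := by
      by_contra hno
      push Not at hno
      exact h2 (Finset.eq_univ_iff_forall.2 hno)
    obtain ⟨w', hw'⟩ := h3
    obtain ⟨r, hr, hrw⟩ := hVT w w'
    have h4 : (⟨r, hr⟩ : Gam (quo G f) univ) ∈ (indHom hf hc).range := by
      rw [htop]; exact Subgroup.mem_top _
    obtain ⟨g, hg⟩ := h4
    have h5 := TT_inv hf hc g hw
    rw [hg] at h5
    simp only at h5
    rw [hrw] at h5
    exact hw' h5
  have hidx := Subgroup.one_lt_index_of_ne_top hne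
  have hc2 := (indHom hf hc).range.card_mul_index
  rw [card_ker_range hf hc, ← hc2]
  have h6 : Nat.card (indHom hf hc).range * 2 ≤
      Nat.card (indHom hf hc).range * (indHom hf hc).range.index :=
    Nat.mul_le_mul_left _ hidx
  calc 2 * (Nat.card (indHom hf hc).ker * Nat.card (indHom hf hc).range)
      = Nat.card (indHom hf hc).ker * (Nat.card (indHom hf hc).range * 2) := by ring
    _ ≤ k * (Nat.card (indHom hf hc).range * (indHom hf hc).range.index) :=
        Nat.mul_le_mul hk h6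

lemma card_V_eq (f : V → W) : Fintype.card V = ∑ w, (fib f w).card := by
  rw [← Finset.card_univ]
  exact Finset.card_eq_sum_card_fiberwise (fun x _ => mem_coe.2 (mem_univ (f x)))

lemma card_W_le (hf : Contr G f) : Fintype.card W ≤ Fintype.card V :=
  Fintype.card_le_of_surjective f hf.surj

/-- bound on the kernel -/
lemma ker_card_le (hf : Contr G f) (hc : Compat G f)
    (hK : ∀ g ∈ (indHom hf hc).ker, ∀ h ∈ (indHom hf hc).ker, ∀ w,
      ((∃ x, f x = w ∧ g.1 x ≠ x) ↔ (∃ x, f x = w ∧ h.1 x ≠ x)) →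
      ∀ x, f x = w → g.1 x = h.1 x) :
    Nat.card (indHom hf hc).ker ≤ 2 ^ (TT f).card := by
  classical
  rw [← Finset.card_powerset]
  let ψ : (indHom hf hc).ker → Finset W := fun g => univ.filter (fun w => ∃ x, f x = w ∧ g.1.1 x ≠ x)
  have hψ : Function.Injective ψ := by
    intro g h hgh
    apply Subtype.ext
    apply Subtype.ext
    ext x
    apply hK g.1 g.2 h.1 h.2 (f x) _ x rfl
    have h1 : f x ∈ ψ g ↔ f x ∈ ψ h := by rw [hgh]
    simp only [ψ, mem_filter, mem_univ, true_and] at h1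
    exact h1
  have hrange : ∀ g, ψ g ∈ (TT f).powerset := by
    intro g
    rw [Finset.mem_powerset]
    intro w hw
    simp only [ψ, mem_filter, mem_univ, true_and] at hw
    obtain ⟨x, hx, hgx⟩ := hw
    rw [mem_TT, Finset.one_lt_card]
    refine ⟨x, mem_fib.2 hx, g.1.1 x, ?_, Ne.symm hgx⟩
    rw [mem_fib, ker_class hf hc g.2, hx]
  rw [Nat.card_eq_fintype_card, ← Finset.card_univ]
  exact Finset.card_le_card_of_injOn ψ (fun g _ => mem_coe.2 (hrange g)) (fun a _ b _ h => hψ h)

end

end Pool.Agent.H23.Cubic
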