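import Mathlib
import Pool.Agent.H23.Cubic.Contract

set_option autoImplicit false

namespace Pool.Agent.H23.Cubic

open Equiv Finset

set_option linter.unusedSectionVars false
set_option linter.unusedVariables false

universe u

variable {V : Type u} [Fintype V] [DecidableEq V] {G : SimpleGraph V} [DecidableRel G.Adj]

lemma sd_one (hG : Cub G) {v a b : V} {X : Finset V} (ha : a ∈ X) (hb : b ∈ X) (hab : a ≠ b)
    (h1 : G.Adj v a) (h2 : G.Adj v b) : (G.neighborFinset v \ X).card ≤ 1 := by
  have h3 : ({a, b} : Finset V) ⊆ G.neighborFinset v ∩ X := by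
    intro z hz
    simp only [mem_insert, mem_singleton] at hz
    rw [mem_inter, SimpleGraph.mem_neighborFinset]
    rcases hz with rfl | rfl
    · exact ⟨h1, ha⟩
    · exact ⟨h2, hb⟩
  have h4 := Finset.card_le_card h3
  rw [Finset.card_pair hab] at h4
  have h5 := Finset.card_sdiff_add_card_inter (G.neighborFinset v) X
  rw [hG.deg] at h5
  omega

lemma sd_zero (hG : Cub G) {v a b c : V} {X : Finset V} (ha : a ∈ X) (hb : b ∈ X) (hc : c ∈ X)
    (hab : a ≠ b) (hac : a ≠ c) (hbc : b ≠ c)
    (h1 : G.Adj v a) (h2 : G.Adj v b) (h3 : G.Adj v c) : (G.neighborFinset v \ X).card = 0 := by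
  rw [nb_eq_of hG hab hac hbc h1 h2 h3, Finset.card_eq_zero,
    Finset.sdiff_eq_empty_iff_subset]
  intro z hz
  simp only [mem_insert, mem_singleton] at hz
  rcases hz with rfl | rfl | rfl <;> assumption

lemma no_diamond (hG : Cub G) (hn : 5 ≤ Fintype.card V) {a b x z : V} (hab : G.Adj a b)
    (hxa : G.Adj x a) (hxb : G.Adj x b) (hza : G.Adj z a) (hzb : G.Adj z b) (hxz : x ≠ z) :
    False := by
  have hne : ({a, b, x, z} : Finset V) ≠ univ := by
    intro h
    have h4 : ({a, b, x, z} : Finset V).card ≤ 4 := Finset.card_le_four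
    rw [h, Finset.card_univ] at h4
    omega
  have h3 := hG.e3 {a, b, x, z} ⟨a, by simp⟩ hne
  unfold out at h3
  rw [Finset.sum_insert (by simp [hab.ne, hxa.ne.symm, hza.ne.symm]),
    Finset.sum_insert (by simp [hxb.ne.symm, hzb.ne.symm]),
    Finset.sum_insert (by simp [hxz]), Finset.sum_singleton] at h3
  have e1 := sd_zero hG (v := a) (X := {a, b, x, z}) (a := b) (b := x) (c := z) (by simp)
    (by simp) (by simp) hxb.ne.symm hzb.ne.symm hxz hab hxa.symm hza.symm
  have e2 := sd_zero hG (v := b) (X := {a, b, x, z}) (a := a) (b := x) (c := z) (by simp)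
    (by simp) (by simp) hxa.ne.symm hza.ne.symm hxz hab.symm hxb.symm hzb.symm
  have e3 := sd_one hG (v := x) (X := {a, b, x, z}) (a := a) (b := b) (by simp)
    (by simp) hab.ne hxa hxb
  have e4 := sd_one hG (v := z) (X := {a, b, x, z}) (a := a) (b := b) (by simp)
    (by simp) hab.ne hza hzb
  omega

lemma out_single (hG : Cub G) (x : V) : out G {x} = 3 := by
  unfold out
  rw [Finset.sum_singleton]
  have : G.neighborFinset x \ {x} = G.neighborFinset x := by
    rw [Finset.sdiff_eq_self_iff_disjoint, Finset.disjoint_singleton_right]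
    simp
  rw [this, hG.deg]

lemma sd_tri (hG : Cub G) {x a b : V} (h1 : G.Adj x a) (h2 : G.Adj x b) (h3 : G.Adj a b) :
    (G.neighborFinset x \ {x, a, b}).card = 1 := by
  obtain ⟨c, hc, hac, hbc, hN⟩ := exists_third hG h1 h2 h3.ne
  rw [hN]
  have : ({a, b, c} : Finset V) \ {x, a, b} = {c} := by
    ext z
    simp only [mem_sdiff, mem_insert, mem_singleton]
    constructor
    · tauto
    · rintro rfl
      refine ⟨Or.inr (Or.inr rfl), ?_⟩
      rintro (h | h | h)
      · exact hc.ne h.symm
      · exact hac h.symm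
      · exact hbc h.symm
  rw [this, Finset.card_singleton]

lemma out_tri (hG : Cub G) {x a b : V} (h1 : G.Adj x a) (h2 : G.Adj x b) (h3 : G.Adj a b) :
    out G {x, a, b} = 3 := by
  unfold out
  rw [Finset.sum_insert (by simp [h1.ne, h2.ne]), Finset.sum_insert (by simp [h3.ne]),
    Finset.sum_singleton, sd_tri hG h1 h2 h3]
  have e2 := sd_tri hG h1.symm h3 h2
  have e3 := sd_tri hG h2.symm h3.symm h1
  rw [show ({x, a, b} : Finset V) = {a, x, b} from Finset.insert_comm x a {b}, e2,
    show ({a, x, b} : Finset V) = {b, x, a} by ext z; simp; tauto, e3]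
  norm_num

/-- being in a common triangle -/
def RT (G : SimpleGraph V) (x y : V) : Prop :=
  x = y ∨ (G.Adj x y ∧ ∃ z, G.Adj x z ∧ G.Adj y z)

lemma RT_symm {x y : V} (h : RT G x y) : RT G y x := by
  rcases h with h | ⟨h, z, h1, h2⟩
  · exact Or.inl h.symm
  · exact Or.inr ⟨h.symm, z, h2, h1⟩

/-- in a cubic graph with at least 5 vertices, the class of a vertex of a triangle -/
lemma RT_class (hG : Cub G) (hn : 5 ≤ Fintype.card V) {x a b : V} (h1 : G.Adj x a)
    (h2 : G.Adj x b) (h3 : G.Adj a b) (y : V) : RT G y x ↔ y ∈ ({x, a, b} : Finset V) := by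
  simp only [mem_insert, mem_singleton]
  constructor
  · rintro (h | ⟨h, z, hz1, hz2⟩)
    · exact Or.inl h
    · right
      by_contra hno
      push Not at hno
      have hN := nb_eq_of hG h3.ne (Ne.symm hno.1) (Ne.symm hno.2) h1 h2 h.symm
      have : z ∈ G.neighborFinset x := by simpa using hz2
      rw [hN] at this
      simp only [mem_insert, mem_singleton] at this
      rcases this with rfl | rfl | rfl
      · exact no_diamond hG hn h1 h hz1 h2.symm h3.symm hno.2
      · exact no_diamond hG hn h2 h hz1 h1.symm h3 hno.1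
      · exact hz1.ne rfl
  · rintro (rfl | rfl | rfl)
    · exact Or.inl rfl
    · exact Or.inr ⟨h1.symm, b, h3, h2⟩
    · exact Or.inr ⟨h2.symm, a, h3.symm, h1⟩

lemma RT_class_self {x : V} (h : ¬ ∃ a b, G.Adj x a ∧ G.Adj x b ∧ G.Adj a b) (y : V) :
    RT G y x ↔ y ∈ ({x} : Finset V) := by
  rw [mem_singleton]
  constructor
  · rintro (h' | ⟨h', z, hz1, hz2⟩)
    · exact h'
    · exact absurd ⟨y, z, h'.symm, hz2, hz1⟩ h
  · intro h'
    exact Or.inl h'

lemma RT_trans (hG : Cub G) (hn : 5 ≤ Fintype.card V) {x y z : V} (h : RT G x y)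
    (h' : RT G y z) : RT G x z := by
  rcases h' with rfl | ⟨h1, w, h2, h3⟩
  · exact h
  · -- y, z, w triangle
    rw [RT_class hG hn h1 h2 h3] at h
    have h4 := (RT_class hG hn h1.symm h3 h2 x).2
    apply h4
    simp only [mem_insert, mem_singleton] at h ⊢
    tauto

/-- the setoid -/
def ST (hG : Cub G) (hn : 5 ≤ Fintype.card V) : Setoid V where
  r := RT G
  iseqv := ⟨fun x => Or.inl rfl, fun h => RT_symm h, fun h h' => RT_trans hG hn h h'⟩

lemma RT_map {g : Perm V} (hg : g ∈ Gam G univ) {x y : V} (h : RT G x y) :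
    RT G (g x) (g y) := by
  rcases h with rfl | ⟨h1, z, h2, h3⟩
  · exact Or.inl rfl
  · exact Or.inr ⟨(Gam_adj hg).2 h1, g z, (Gam_adj hg).2 h2, (Gam_adj hg).2 h3⟩

section arith
variable {α β : Type*} [Fintype α] [Fintype β]

lemma arith_i {a a' n n' k t : ℕ} (hk : a ≤ k * a') (hk2 : k = 2 ^ t) (hn : n' + 4 * t ≤ n)
    (h : a' ^ 4 < (max 16 n') ^ 4 * 2 ^ n') : a ^ 4 < (max 16 n) ^ 4 * 2 ^ n := by
  calc a ^ 4 ≤ (k * a') ^ 4 := Nat.pow_le_pow_left hk 4
    _ = k ^ 4 * a' ^ 4 := by rw [mul_pow]
    _ < k ^ 4 * ((max 16 n') ^ 4 * 2 ^ n') := by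
        apply Nat.mul_lt_mul_of_pos_left h
        rw [hk2]; positivity
    _ = (max 16 n') ^ 4 * 2 ^ (n' + 4 * t) := by
        rw [hk2, pow_add, ← pow_mul, mul_comm t 4]; ring
    _ ≤ (max 16 n) ^ 4 * 2 ^ n := by
        apply Nat.mul_le_mul
        · exact Nat.pow_le_pow_left (max_le_max le_rfl (by omega)) 4
        · exact Nat.pow_le_pow_right (by norm_num) hn

lemma arith_ii {a a' n n' k t : ℕ} (hk : 2 * a ≤ k * a') (hk2 : k = 2 ^ t) (hn : n' + 4 * t ≤ n)
    (h : a' ^ 4 < 32 ^ 4 * 2 ^ n') : a ^ 4 < (max 16 n) ^ 4 * 2 ^ n := by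
  have h1 : 16 * a ^ 4 ≤ k ^ 4 * a' ^ 4 := by
    have := Nat.pow_le_pow_left hk 4
    rw [mul_pow, mul_pow] at this
    norm_num at this ⊢
    exact this
  have h2 : k ^ 4 * a' ^ 4 < k ^ 4 * (32 ^ 4 * 2 ^ n') := by
    apply Nat.mul_lt_mul_of_pos_left h
    rw [hk2]; positivity
  have h3 : k ^ 4 * (32 ^ 4 * 2 ^ n') = 16 * (16 ^ 4 * 2 ^ (n' + 4 * t)) := by
    rw [hk2, pow_add, ← pow_mul, mul_comm t 4]; ring
  have h4 : 16 ^ 4 * 2 ^ (n' + 4 * t) ≤ (max 16 n) ^ 4 * 2 ^ n := by
    apply Nat.mul_le_mul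
    · exact Nat.pow_le_pow_left (le_max_left _ _) 4
    · exact Nat.pow_le_pow_right (by norm_num) hn
  omega

end arith

/-- contraction of triangles -/
theorem claim_tri (hG : Cub G) (hn : 7 ≤ Fintype.card V) (htri : ¬ TriF G)
    (ih : ∀ (W : Type u) [Fintype W] [DecidableEq W] (H : SimpleGraph W) [DecidableRel H.Adj],
      Fintype.card W < Fintype.card V → Cub H → Claim H) : Claim G := by
  classical
  have hn5 : 5 ≤ Fintype.card V := by omega
  let s : Setoid V := ST hG hn5
  let f : V → Quotient s := Quotient.mk s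
  have hfeq : ∀ x y, f x = f y ↔ RT G x y := fun x y => Quotient.eq (r := s)
  have hsurj : Function.Surjective f := Quotient.exists_rep
  have hclass : ∀ w, (fib f w).card = 1 ∧ out G (fib f w) = 3 ∨
      (fib f w).card = 3 ∧ out G (fib f w) = 3 := by
    intro w
    obtain ⟨x, rfl⟩ := hsurj w
    by_cases h : ∃ a b, G.Adj x a ∧ G.Adj x b ∧ G.Adj a b
    · right
      obtain ⟨a, b, h1, h2, h3⟩ := h
      have : fib f (f x) = {x, a, b} := by
        ext y
        rw [mem_fib, hfeq, RT_class hG hn5 h1 h2 h3]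
      rw [this]
      refine ⟨?_, out_tri hG h1 h2 h3⟩
      rw [Finset.card_eq_three]
      exact ⟨x, a, b, h1.ne, h2.ne, h3.ne, rfl⟩
    · left
      have : fib f (f x) = {x} := by
        ext y
        rw [mem_fib, hfeq, RT_class_self h]
      rw [this]
      exact ⟨Finset.card_singleton x, out_single hG x⟩
  have hle3 : ∀ w, (fib f w).card ≤ 3 := by
    intro w
    rcases hclass w with h | h <;> omega
  have hcardV := card_V_eq f
  have hW3 : 3 ≤ Fintype.card (Quotient s) := by
    have h1 : ∑ w, (fib f w).card ≤ ∑ w : Quotient s, 3 := Finset.sum_le_sum (fun w _ => hle3 w)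
    rw [Finset.sum_const, Finset.card_univ, smul_eq_mul] at h1
    omega
  have hf : Contr G f := ⟨hsurj, fun w => by rcases hclass w with h | h <;> exact h.2, hW3⟩
  have hc : Compat G f := by
    intro g hg x y h
    rw [hfeq] at h ⊢
    exact RT_map hg h
  have hTT : (TT f).Nonempty := by
    unfold TriF at htri
    push Not at htri
    obtain ⟨x, y, z, h1, h2, h3, _⟩ := htri
    refine ⟨f x, ?_⟩
    rw [mem_TT, Finset.one_lt_card]
    refine ⟨x, mem_fib.2 rfl, y, mem_fib.2 ?_, h1.ne⟩
    rw [hfeq]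
    exact Or.inr ⟨h1.symm, z, h2, h3⟩
  have hlt : Fintype.card (Quotient s) < Fintype.card V := by
    obtain ⟨w, hw⟩ := hTT
    rw [mem_TT] at hw
    rw [hcardV]
    calc Fintype.card (Quotient s) = ∑ w : Quotient s, 1 := by
          rw [Finset.sum_const, Finset.card_univ, smul_eq_mul, mul_one]
      _ < ∑ w, (fib f w).card := by
          apply Finset.sum_lt_sum
          · intro w' _
            rcases hclass w' with h | h <;> omega
          · exact ⟨w, mem_univ _, hw⟩
  have hker : Nat.card (indHom hf hc).ker ≤ 1 := by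
    have : (indHom hf hc).ker = ⊥ := by
      rw [Subgroup.eq_bot_iff_forall]
      intro g hg
      apply Subtype.ext
      ext x
      -- a neighbour outside the class
      have hex : ∃ y, G.Adj x y ∧ f x ≠ f y := by
        by_contra hno
        push Not at hno
        have h1 : insert x (G.neighborFinset x) ⊆ fib f (f x) := by
          intro y hy
          rw [mem_insert, SimpleGraph.mem_neighborFinset] at hy
          rw [mem_fib]
          rcases hy with rfl | hy
          · rfl
          · exact (hno y hy).symm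
        have h2 := Finset.card_le_card h1
        rw [Finset.card_insert_of_notMem (by simp), hG.deg] at h2
        have := hle3 (f x)
        omega
      obtain ⟨y, hy1, hy2⟩ := hex
      exact ker_fix hG hf hc hg hy1 hy2
    rw [this, Subgroup.card_bot]
  have hcub : Cub (quo G f) := hf.cub hG
  have hle := card_le_of_ker hf hc hker
  rcases ih (Quotient s) (quo G f) hlt hcub with h | ⟨h16, hVT, hb1, hb2⟩
  · left
    exact arith_i (t := 0) hle (by norm_num) (by omega) h
  · by_cases hT : TT f = univ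
    · left
      have hall : ∀ w, (fib f w).card = 3 := by
        intro w
        have : w ∈ TT f := by rw [hT]; exact mem_univ w
        rw [mem_TT] at this
        rcases hclass w with h | h <;> omega
      have hcard3 : Fintype.card V = 3 * Fintype.card (Quotient s) := by
        rw [hcardV, Finset.sum_congr rfl (fun w _ => hall w), Finset.sum_const,
          Finset.card_univ, smul_eq_mul, mul_comm]
      set n' := Fintype.card (Quotient s) with hn'
      have h64 : 64 ≤ 2 ^ (2 * n') := by
        calc 64 = 2 ^ (2 * 3) := by norm_num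
          _ ≤ _ := Nat.pow_le_pow_right (by norm_num) (by omega)
      have h5 : (5 * n') ^ 4 * 2 ^ n' ≤ (3 * n') ^ 4 * 2 ^ (3 * n') := by
        have e1 : (3 * n') ^ 4 * 2 ^ (3 * n') = 81 * (n' ^ 4 * 2 ^ n') * 2 ^ (2 * n') := by
          rw [show 3 * n' = n' + 2 * n' by ring, pow_add]
          rw [show n' + 2 * n' = 3 * n' by ring]
          ring
        have e2 : (5 * n') ^ 4 * 2 ^ n' = 625 * (n' ^ 4 * 2 ^ n') := by ring
        rw [e1, e2]
        have : 81 * (n' ^ 4 * 2 ^ n') * 64 ≤ 81 * (n' ^ 4 * 2 ^ n') * 2 ^ (2 * n') :=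
          Nat.mul_le_mul_left _ h64
        nlinarith [Nat.zero_le (n' ^ 4 * 2 ^ n')]
      rw [one_mul] at hle
      calc Nat.card (Gam G univ) ^ 4 ≤ Nat.card (Gam (quo G f) univ) ^ 4 :=
            Nat.pow_le_pow_left hle 4
        _ < (5 * n') ^ 4 * 2 ^ n' := hb2
        _ ≤ (3 * n') ^ 4 * 2 ^ (3 * n') := h5
        _ = Fintype.card V ^ 4 * 2 ^ Fintype.card V := by rw [hcard3]
        _ ≤ _ := by
          apply Nat.mul_le_mul_right
          exact Nat.pow_le_pow_left (le_max_right _ _) 4
    · left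
      have hhalf := card_le_half hf hc hker hVT hTT hT
      exact arith_ii (t := 0) hhalf (by norm_num) (by omega) hb1

end Pool.Agent.H23.Cubic
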