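import Mathlib
import Pool.Agent.H23.Cubic.Tri

set_option autoImplicit false

namespace Pool.Agent.H23.Cubic

open Equiv Finset

set_option linter.unusedSectionVars false
set_option linter.unusedVariables false

universe u

variable {V : Type u} [Fintype V] [DecidableEq V] {G : SimpleGraph V} [DecidableRel G.Adj]

/-- twins -/
def Tw (G : SimpleGraph V) [DecidableRel G.Adj] (p q : V) : Prop :=
  p ≠ q ∧ G.neighborFinset p = G.neighborFinset q

lemma Tw.symm {p q : V} (h : Tw G p q) : Tw G q p := ⟨h.1.symm, h.2.symm⟩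

lemma Tw.adj {p q a : V} (h : Tw G p q) : G.Adj p a ↔ G.Adj q a := by
  rw [← SimpleGraph.mem_neighborFinset, h.2, SimpleGraph.mem_neighborFinset]

lemma Tw.map {p q : V} (h : Tw G p q) {g : Perm V} (hg : g ∈ Gam G univ) : Tw G (g p) (g q) :=
  ⟨fun h' => h.1 (g.injective h'), by rw [nb_map hg, nb_map hg, h.2]⟩

lemma tw_unique (hG : Cub G) (hn : 7 ≤ Fintype.card V) {p q r : V} (h : Tw G p q)
    (h' : Tw G p r) : q = r := by
  by_contra hqr
  obtain ⟨a, ha⟩ := exists_nb hG p
  obtain ⟨b, c, hb, hc, hab, hac, hbc⟩ := exists_nb2 hG ha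
  have hN := nb_eq_of hG hab hac hbc ha hb hc
  have hz : ∀ z, G.Adj p z → G.neighborFinset z = {p, q, r} := by
    intro z hz
    exact nb_eq_of hG h.1 h'.1 hqr hz.symm (h.adj.1 hz).symm (h'.adj.1 hz).symm
  have hX : ({p, q, r, a, b, c} : Finset V) = univ := by
    apply closure_univ hG ⟨p, by simp⟩
    intro x hx y hxy
    have hy : y ∈ G.neighborFinset x := by simpa using hxy
    simp only [mem_insert, mem_singleton] at hx
    rcases hx with rfl | rfl | rfl | rfl | rfl | rfl
    · rw [hN] at hy; simp only [mem_insert, mem_singleton] at hy ⊢; tauto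
    · rw [← h.2, hN] at hy; simp only [mem_insert, mem_singleton] at hy ⊢; tauto
    · rw [← h'.2, hN] at hy; simp only [mem_insert, mem_singleton] at hy ⊢; tauto
    · rw [hz _ ha] at hy; simp only [mem_insert, mem_singleton] at hy ⊢; tauto
    · rw [hz _ hb] at hy; simp only [mem_insert, mem_singleton] at hy ⊢; tauto
    · rw [hz _ hc] at hy; simp only [mem_insert, mem_singleton] at hy ⊢; tauto
  have h6 : ({p, q, r, a, b, c} : Finset V).card ≤ 6 := Finset.card_le_six
  rw [hX, Finset.card_univ] at h6
  omega

lemma out_le_two {X : Finset V} {r c : V}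
    (h0 : ∀ v ∈ X, v ≠ r → v ≠ c → (G.neighborFinset v \ X).card = 0)
    (h1 : ∀ v ∈ X, (G.neighborFinset v \ X).card ≤ 1) : out G X ≤ 2 := by
  unfold out
  calc ∑ x ∈ X, (G.neighborFinset x \ X).card ≤ ∑ x ∈ X, (if x = r ∨ x = c then 1 else 0) := by
        apply Finset.sum_le_sum
        intro v hv
        by_cases h : v = r ∨ v = c
        · rw [if_pos h]; exact h1 v hv
        · rw [if_neg h]
          push Not at h
          rw [h0 v hv h.1 h.2]
    _ = (X.filter (fun x => x = r ∨ x = c)).card := by rw [Finset.card_filter]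
    _ ≤ ({r, c} : Finset V).card := by
        apply Finset.card_le_card
        intro x hx
        rw [mem_filter] at hx
        simp only [mem_insert, mem_singleton]
        exact hx.2
    _ ≤ 2 := Finset.card_le_two

lemma no_tw_adj (hG : Cub G) (hTri : TriF G) (hn : 7 ≤ Fintype.card V) {p q p' q' : V}
    (h : Tw G p q) (h' : Tw G p' q') (hadj : G.Adj p p') : False := by
  have h1 : G.Adj p q' := (h'.adj.1 hadj.symm).symm
  have h2 : G.Adj q p' := h.adj.1 hadj
  have h3 : G.Adj q q' := h.adj.1 h1
  obtain ⟨c, hc, hc1, hc2, hNp⟩ := exists_third hG hadj h1 h'.1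
  obtain ⟨r, hr, hr1, hr2, hNp'⟩ := exists_third hG hadj.symm h2.symm h.1
  have hX : ({p, q, p', q', r, c} : Finset V) ≠ univ := by
    intro hX
    have h6 : ({p, q, p', q', r, c} : Finset V).card ≤ 6 := Finset.card_le_six
    rw [hX, Finset.card_univ] at h6
    omega
  have h3' := hG.e3 _ ⟨p, by simp⟩ hX
  have hle : out G ({p, q, p', q', r, c} : Finset V) ≤ 2 := by
    have hp0 : (G.neighborFinset p \ ({p, q, p', q', r, c} : Finset V)).card = 0 := by
      rw [hNp, Finset.card_eq_zero, Finset.sdiff_eq_empty_iff_subset]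
      intro z hz
      simp only [mem_insert, mem_singleton] at hz ⊢
      tauto
    have hq0 : (G.neighborFinset q \ ({p, q, p', q', r, c} : Finset V)).card = 0 := by
      rw [← h.2]; exact hp0
    have hp0' : (G.neighborFinset p' \ ({p, q, p', q', r, c} : Finset V)).card = 0 := by
      rw [hNp', Finset.card_eq_zero, Finset.sdiff_eq_empty_iff_subset]
      intro z hz
      simp only [mem_insert, mem_singleton] at hz ⊢
      tauto
    have hq0' : (G.neighborFinset q' \ ({p, q, p', q', r, c} : Finset V)).card = 0 := by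
      rw [← h'.2]; exact hp0'
    apply out_le_two (r := r) (c := c)
    · intro v hv hvr hvc
      simp only [mem_insert, mem_singleton] at hv
      rcases hv with rfl | rfl | rfl | rfl | rfl | rfl
      · exact hp0
      · exact hq0
      · exact hp0'
      · exact hq0'
      · exact absurd rfl hvr
      · exact absurd rfl hvc
    · intro v hv
      simp only [mem_insert, mem_singleton] at hv
      rcases hv with rfl | rfl | rfl | rfl | rfl | rfl
      · rw [hp0]; exact Nat.zero_le _
      · rw [hq0]; exact Nat.zero_le _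
      · rw [hp0']; exact Nat.zero_le _
      · rw [hq0']; exact Nat.zero_le _
      · exact sd_one hG (a := p') (b := q') (by simp) (by simp) h'.1 hr.symm (h'.adj.1 hr).symm
      · exact sd_one hG (a := p) (b := q) (by simp) (by simp) h.1 hc.symm (h.adj.1 hc).symm
  omega

/-- the block of a twin pair -/
def blk (G : SimpleGraph V) [DecidableRel G.Adj] (p q : V) : Finset V :=
  insert p (insert q (G.neighborFinset p))

lemma mem_blk {p q z : V} : z ∈ blk G p q ↔ z = p ∨ z = q ∨ G.Adj p z := by
  simp [blk]

lemma blk_symm {p q : V} (h : Tw G p q) : blk G p q = blk G q p := by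
  ext z
  rw [mem_blk, mem_blk, h.adj]
  tauto

lemma blk_card (hG : Cub G) {p q : V} (h : Tw G p q) : (blk G p q).card = 5 := by
  unfold blk
  have h1 : q ∉ G.neighborFinset p := by rw [h.2]; simp
  have h2 : p ∉ insert q (G.neighborFinset p) := by
    rw [mem_insert]
    push Not
    exact ⟨h.1, by simp⟩
  rw [Finset.card_insert_of_notMem h2, Finset.card_insert_of_notMem h1, hG.deg]

/-- each element of `N(p)` has exactly one neighbour outside the block -/
lemma blk_third (hG : Cub G) (hTri : TriF G) {p q a : V} (h : Tw G p q) (ha : G.Adj p a) :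
    ∃ a', G.Adj a a' ∧ a' ∉ blk G p q ∧ G.neighborFinset a = {p, q, a'} := by
  obtain ⟨a', ha', h1, h2, hN⟩ := exists_third hG ha.symm (h.adj.1 ha).symm h.1
  refine ⟨a', ha', ?_, hN⟩
  rw [mem_blk]
  rintro (h3 | h3 | h3)
  · exact h1 h3.symm
  · exact h2 h3.symm
  · exact hTri p a a' ha ha' h3

lemma blk_out (hG : Cub G) (hTri : TriF G) {p q : V} (h : Tw G p q) :
    out G (blk G p q) = 3 := by
  have h1 : q ∉ G.neighborFinset p := by rw [h.2]; simp
  have h2 : p ∉ insert q (G.neighborFinset p) := by
    rw [mem_insert]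
    push Not
    exact ⟨h.1, by simp⟩
  have hp0 : (G.neighborFinset p \ blk G p q).card = 0 := by
    rw [Finset.card_eq_zero, Finset.sdiff_eq_empty_iff_subset]
    intro z hz
    rw [SimpleGraph.mem_neighborFinset] at hz
    rw [mem_blk]
    exact Or.inr (Or.inr hz)
  have hq0 : (G.neighborFinset q \ blk G p q).card = 0 := by
    rw [← h.2]; exact hp0
  have ha1 : ∀ a ∈ G.neighborFinset p, (G.neighborFinset a \ blk G p q).card = 1 := by
    intro a ha
    rw [SimpleGraph.mem_neighborFinset] at ha
    obtain ⟨a', haa', ha', hN⟩ := blk_third hG hTri h ha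
    rw [Finset.card_eq_one]
    refine ⟨a', ?_⟩
    ext z
    rw [mem_sdiff, hN]
    simp only [mem_insert, mem_singleton]
    constructor
    · rintro ⟨h3 | h3 | h3, h4⟩
      · exact absurd (by rw [mem_blk]; exact Or.inl h3) h4
      · exact absurd (by rw [mem_blk]; exact Or.inr (Or.inl h3)) h4
      · exact h3
    · rintro rfl
      exact ⟨Or.inr (Or.inr rfl), ha'⟩
  have hsum : out G (blk G p q) = ∑ x ∈ insert p (insert q (G.neighborFinset p)),
      (G.neighborFinset x \ blk G p q).card := rfl
  rw [hsum, Finset.sum_insert h2, Finset.sum_insert h1, hp0, hq0, Finset.sum_congr rfl ha1,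
    Finset.sum_const, hG.deg]
  norm_num

/-- two blocks meeting are equal -/
lemma blk_eq (hG : Cub G) (hTri : TriF G) (hn : 7 ≤ Fintype.card V) {p q p' q' z : V}
    (h : Tw G p q) (h' : Tw G p' q') (hz : z ∈ blk G p q) (hz' : z ∈ blk G p' q') :
    blk G p q = blk G p' q' := by
  have base : ∀ a b b', Tw G a b → Tw G a b' → blk G a b = blk G a b' := by
    intro a b b' h1 h2
    rw [tw_unique hG hn h1 h2]
  have key : ∀ a b a' b', Tw G a b → Tw G a' b' → (a = a' ∨ a = b') →
      blk G a b = blk G a' b' := by
    intro a b a' b' h1 h2 h3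
    rcases h3 with rfl | rfl
    · exact base _ _ _ h1 h2
    · rw [blk_symm h2]; exact base _ _ _ h1 h2.symm
  have key2 : ∀ a b a' b', Tw G a b → Tw G a' b' → ((a = a' ∨ a = b') ∨ (b = a' ∨ b = b')) →
      blk G a b = blk G a' b' := by
    intro a b a' b' h1 h2 h3
    rcases h3 with h3 | h3
    · exact key _ _ _ _ h1 h2 h3
    · rw [blk_symm h1]; exact key _ _ _ _ h1.symm h2 h3
  rw [mem_blk] at hz hz'
  rcases hz with rfl | rfl | hz
  · rcases hz' with hz' | hz' | hz'
    · exact key2 _ _ _ _ h h' (Or.inl (Or.inl hz'))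
    · exact key2 _ _ _ _ h h' (Or.inl (Or.inr hz'))
    · exact (no_tw_adj hG hTri hn h' h hz').elim
  · rcases hz' with hz' | hz' | hz'
    · exact key2 _ _ _ _ h h' (Or.inr (Or.inl hz'))
    · exact key2 _ _ _ _ h h' (Or.inr (Or.inr hz'))
    · exact (no_tw_adj hG hTri hn h' h.symm hz').elim
  · rcases hz' with rfl | rfl | hz'
    · exact (no_tw_adj hG hTri hn h h' hz).elim
    · exact (no_tw_adj hG hTri hn h h'.symm hz).elim
    · apply key2 _ _ _ _ h h'
      by_contra hno
      push Not at hno
      obtain ⟨c, hc, hc1, hc2, hN⟩ := exists_third hG hz.symm (h.adj.1 hz).symm h.1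
      have e1 : p' ∈ G.neighborFinset z := by simpa using hz'.symm
      have e2 : q' ∈ G.neighborFinset z := by simpa using (h'.adj.1 hz').symm
      rw [hN] at e1 e2
      simp only [mem_insert, mem_singleton] at e1 e2
      rcases e1 with e1 | e1 | e1
      · exact hno.1.1 e1.symm
      · exact hno.2.1 e1.symm
      · rcases e2 with e2 | e2 | e2
        · exact hno.1.2 e2.symm
        · exact hno.2.2 e2.symm
        · exact h'.1 (e1.trans e2.symm)

/-- being in a common block -/
def RB (G : SimpleGraph V) [DecidableRel G.Adj] (x y : V) : Prop :=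
  x = y ∨ ∃ p q, Tw G p q ∧ x ∈ blk G p q ∧ y ∈ blk G p q

lemma RB_class (hG : Cub G) (hTri : TriF G) (hn : 7 ≤ Fintype.card V) {p q x : V}
    (h : Tw G p q) (hx : x ∈ blk G p q) (y : V) : RB G y x ↔ y ∈ blk G p q := by
  constructor
  · rintro (rfl | ⟨p', q', h', hy, hx'⟩)
    · exact hx
    · rw [blk_eq hG hTri hn h h' hx hx']; exact hy
  · intro hy
    exact Or.inr ⟨p, q, h, hy, hx⟩

lemma RB_class_self {x : V} (h : ¬ ∃ p q, Tw G p q ∧ x ∈ blk G p q) (y : V) :
    RB G y x ↔ y ∈ ({x} : Finset V) := by
  rw [mem_singleton]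
  constructor
  · rintro (h' | ⟨p, q, h1, h2, h3⟩)
    · exact h'
    · exact absurd ⟨p, q, h1, h3⟩ h
  · intro h'
    exact Or.inl h'

lemma RB_symm {x y : V} (h : RB G x y) : RB G y x := by
  rcases h with h | ⟨p, q, h, h1, h2⟩
  · exact Or.inl h.symm
  · exact Or.inr ⟨p, q, h, h2, h1⟩

lemma RB_trans (hG : Cub G) (hTri : TriF G) (hn : 7 ≤ Fintype.card V) {x y z : V}
    (h : RB G x y) (h' : RB G y z) : RB G x z := by
  rcases h' with rfl | ⟨p, q, h1, h2, h3⟩
  · exact h
  · rw [RB_class hG hTri hn h1 h2] at h
    exact Or.inr ⟨p, q, h1, h, h3⟩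

/-- the setoid -/
def SB (hG : Cub G) (hTri : TriF G) (hn : 7 ≤ Fintype.card V) : Setoid V where
  r := RB G
  iseqv := ⟨fun x => Or.inl rfl, fun h => RB_symm h, fun h h' => RB_trans hG hTri hn h h'⟩

lemma RB_map {g : Perm V} (hg : g ∈ Gam G univ) {x y : V} (h : RB G x y) :
    RB G (g x) (g y) := by
  have hb : ∀ p q z, z ∈ blk G p q → g z ∈ blk G (g p) (g q) := by
    intro p q z hz
    rw [mem_blk] at hz ⊢
    rcases hz with rfl | rfl | hz
    · exact Or.inl rfl
    · exact Or.inr (Or.inl rfl)
    · exact Or.inr (Or.inr ((Gam_adj hg).2 hz))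
  rcases h with rfl | ⟨p, q, h, h1, h2⟩
  · exact Or.inl rfl
  · exact Or.inr ⟨g p, g q, h.map hg, hb _ _ _ h1, hb _ _ _ h2⟩

/-- bound of an orbit by a superset -/
lemma orb_card_le {D S : Finset V} {x : V} (h : ∀ g ∈ Gam G D, g x ∈ S) :
    (orb G D x).card ≤ S.card := by
  apply Finset.card_le_card
  intro z hz
  rw [mem_orb] at hz
  obtain ⟨g, hg, rfl⟩ := hz
  exact h g hg

/-- a twin is fixed when its twin is -/
lemma tw_fix (hG : Cub G) (hn : 7 ≤ Fintype.card V) {p q : V} (h : Tw G p q) {g : Perm V}
    (hg : g ∈ Gam G univ) (hp : g p = p) : g q = q := by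
  have := h.map hg
  rw [hp] at this
  exact (tw_unique hG hn h this).symm

/-- the special case of two blocks -/
lemma two_blocks (hG : Cub G) (hTri : TriF G) (hn : 7 ≤ Fintype.card V) {p q p' q' : V}
    (h : Tw G p q) (h' : Tw G p' q') (hcov : ∀ z, z ∈ blk G p q ∨ z ∈ blk G p' q')
    (hdis : ∀ z, z ∈ blk G p q → z ∈ blk G p' q' → False) :
    Nat.card (Gam G univ) ≤ 48 := by
  have htw : ∀ z w, Tw G z w → z ∈ ({p, q, p', q'} : Finset V) := by
    intro z w hzw
    simp only [mem_insert, mem_singleton]
    rcases hcov z with hz | hz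
    · rw [mem_blk] at hz
      rcases hz with hz | hz | hz
      · exact Or.inl hz
      · exact Or.inr (Or.inl hz)
      · exact (no_tw_adj hG hTri hn h hzw hz).elim
    · rw [mem_blk] at hz
      rcases hz with hz | hz | hz
      · exact Or.inr (Or.inr (Or.inl hz))
      · exact Or.inr (Or.inr (Or.inr hz))
      · exact (no_tw_adj hG hTri hn h' hzw hz).elim
  obtain ⟨a, ha⟩ := exists_nb hG p
  obtain ⟨b, c, hb, hc, hab, hac, hbc⟩ := exists_nb2 hG ha
  have hN := nb_eq_of hG hab hac hbc ha hb hc
  -- the chain
  set D1 := stab G univ p with hD1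
  set D2 := stab G D1 a with hD2
  set D3 := stab G D2 b with hD3
  set D4 := stab G D3 p' with hD4
  have m1 : ∀ g, g ∈ Gam G D1 ↔ g ∈ Gam G univ ∧ g p = p := fun g => mem_Gam_stab
  have m2 : ∀ g, g ∈ Gam G D2 ↔ (g ∈ Gam G univ ∧ g p = p) ∧ g a = a := by
    intro g; rw [← m1]; exact mem_Gam_stab
  have m3 : ∀ g, g ∈ Gam G D3 ↔ ((g ∈ Gam G univ ∧ g p = p) ∧ g a = a) ∧ g b = b := by
    intro g; rw [← m2]; exact mem_Gam_stab
  have m4 : ∀ g, g ∈ Gam G D4 ↔
      (((g ∈ Gam G univ ∧ g p = p) ∧ g a = a) ∧ g b = b) ∧ g p' = p' := by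
    intro g; rw [← m3]; exact mem_Gam_stab
  have o1 : (orb G univ p).card ≤ 4 := by
    refine (orb_card_le (S := {p, q, p', q'}) ?_).trans Finset.card_le_four
    intro g hg
    exact htw _ _ (h.map hg)
  have hnbp : ∀ g ∈ Gam G univ, g p = p → ∀ z, G.Adj p z → g z ∈ G.neighborFinset p := by
    intro g hg hgp z hz
    have := (Gam_adj hg).2 hz
    rw [hgp] at this
    simpa using this
  have o2 : (orb G D1 a).card ≤ 3 := by
    rw [← hG.deg p]
    apply orb_card_le
    intro g hg
    rw [m1] at hg
    exact hnbp g hg.1 hg.2 a ha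
  have o3 : (orb G D2 b).card ≤ 2 := by
    have : ((G.neighborFinset p).erase a).card = 2 := by
      rw [Finset.card_erase_of_mem (by simpa using ha), hG.deg]
    rw [← this]
    apply orb_card_le
    intro g hg
    rw [m2] at hg
    rw [mem_erase]
    refine ⟨?_, hnbp g hg.1.1 hg.1.2 b hb⟩
    intro h1
    exact hab (g.injective (h1.trans hg.2.symm)).symm
  have o4 : (orb G D3 p').card ≤ 2 := by
    have h2 : ({p', q'} : Finset V).card ≤ 2 := Finset.card_le_two
    refine (orb_card_le (S := {p', q'}) ?_).trans h2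
    intro g hg
    rw [m3] at hg
    have h1 := htw _ _ (h'.map hg.1.1.1)
    have hq := tw_fix hG hn h hg.1.1.1 hg.1.1.2
    simp only [mem_insert, mem_singleton] at h1 ⊢
    rcases h1 with h1 | h1 | h1
    · exfalso
      have := g.injective (h1.trans hg.1.1.2.symm)
      exact hdis p' (by rw [mem_blk]; exact Or.inl this) (by rw [mem_blk]; exact Or.inl rfl)
    · exfalso
      have := g.injective (h1.trans hq.symm)
      exact hdis p' (by rw [mem_blk]; exact Or.inr (Or.inl this))
        (by rw [mem_blk]; exact Or.inl rfl)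
    · exact h1
  have t4 : Nat.card (Gam G D4) = 1 := by
    rw [Nat.card_eq_one_iff_unique]
    refine ⟨⟨fun x y => ?_⟩, ⟨1⟩⟩
    have key : ∀ g ∈ Gam G D4, ∀ z, g z = z := by
      intro g hg z
      rw [m4] at hg
      obtain ⟨⟨⟨⟨hgA, hgp⟩, hga⟩, hgb⟩, hgp'⟩ := hg
      have hgq := tw_fix hG hn h hgA hgp
      have hgq' := tw_fix hG hn h' hgA hgp'
      have hgc : g c = c := third_fixed hG hgA hgp hga hgb hab ha hb hc
      have hgN : ∀ z, G.Adj p z → g z = z := by
        intro z hz
        have : z ∈ G.neighborFinset p := by simpa using hz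
        rw [hN] at this
        simp only [mem_insert, mem_singleton] at this
        rcases this with rfl | rfl | rfl <;> assumption
      rcases hcov z with hz | hz
      · rw [mem_blk] at hz
        rcases hz with rfl | rfl | hz
        · exact hgp
        · exact hgq
        · exact hgN z hz
      · rw [mem_blk] at hz
        rcases hz with rfl | rfl | hz
        · exact hgp'
        · exact hgq'
        · obtain ⟨w, hzw, hw, hNz⟩ := blk_third hG hTri h' hz
          have hw2 : w ∈ blk G p q := (hcov w).resolve_right hw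
          have hzn : z ∉ blk G p q := fun h5 => hdis z h5 (by rw [mem_blk]; exact Or.inr (Or.inr hz))
          have hpw : G.Adj p w := by
            rw [mem_blk] at hw2
            rcases hw2 with rfl | rfl | hw2
            · exact absurd (by rw [mem_blk]; exact Or.inr (Or.inr hzw.symm)) hzn
            · exact absurd (by rw [mem_blk]; exact Or.inr (Or.inr (h.adj.2 hzw.symm))) hzn
            · exact hw2
          have hgw := hgN w hpw
          exact third_fixed hG hgA hgw hgp hgq h.1 hpw.symm (h.adj.1 hpw).symm hzw.symm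
    apply Subtype.ext
    ext z
    rw [key x.1 x.2, key y.1 y.2]
  rw [card_stab univ p, card_stab D1 a, card_stab D2 b, card_stab D3 p', t4]
  calc (orb G univ p).card * ((orb G D1 a).card * ((orb G D2 b).card * ((orb G D3 p').card * 1)))
      ≤ 4 * (3 * (2 * (2 * 1))) := by
        gcongr
    _ = 48 := by norm_num

/-- contraction of twin blocks -/
theorem claim_twins (hG : Cub G) (hn : 7 ≤ Fintype.card V) (hTri : TriF G) (htw : ¬ TwF G)
    (ih : ∀ (W : Type u) [Fintype W] [DecidableEq W] (H : SimpleGraph W) [DecidableRel H.Adj],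
      Fintype.card W < Fintype.card V → Cub H → Claim H) : Claim G := by
  classical
  let s : Setoid V := SB hG hTri hn
  let f : V → Quotient s := Quotient.mk s
  have hfeq : ∀ x y, f x = f y ↔ RB G x y := fun x y => Quotient.eq (r := s)
  have hsurj : Function.Surjective f := Quotient.exists_rep
  have hblkfib : ∀ p q, Tw G p q → ∀ x ∈ blk G p q, fib f (f x) = blk G p q := by
    intro p q h x hx
    ext y
    rw [mem_fib, hfeq, RB_class hG hTri hn h hx]
  have hclass : ∀ x, ((¬ ∃ p q, Tw G p q ∧ x ∈ blk G p q) ∧ fib f (f x) = {x}) ∨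
      ∃ p q, Tw G p q ∧ x ∈ blk G p q ∧ fib f (f x) = blk G p q := by
    intro x
    by_cases h : ∃ p q, Tw G p q ∧ x ∈ blk G p q
    · obtain ⟨p, q, h1, h2⟩ := h
      exact Or.inr ⟨p, q, h1, h2, hblkfib p q h1 x h2⟩
    · left
      refine ⟨h, ?_⟩
      ext y
      rw [mem_fib, hfeq, RB_class_self h]
  have hcards : ∀ w, (fib f w).card = 1 ∨ (fib f w).card = 5 := by
    intro w
    obtain ⟨x, rfl⟩ := hsurj w
    rcases hclass x with ⟨_, h⟩ | ⟨p, q, h1, h2, h3⟩
    · left; rw [h, Finset.card_singleton]
    · right; rw [h3, blk_card hG h1]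
  have hcardV := card_V_eq f
  unfold TwF at htw
  push Not at htw
  obtain ⟨p, q, hNpq, hpq⟩ := htw
  have hTw : Tw G p q := ⟨hpq, hNpq⟩
  have hpb : p ∈ blk G p q := by rw [mem_blk]; exact Or.inl rfl
  by_cases hW3 : 3 ≤ Fintype.card (Quotient s)
  · have hf : Contr G f := by
      refine ⟨hsurj, fun w => ?_, hW3⟩
      obtain ⟨x, rfl⟩ := hsurj w
      rcases hclass x with ⟨_, h⟩ | ⟨p, q, h1, h2, h3⟩
      · rw [h]; exact out_single hG x
      · rw [h3]; exact blk_out hG hTri h1
    have hc : Compat G f := by
      intro g hg x y h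
      rw [hfeq] at h ⊢
      exact RB_map hg h
    have hTT : (TT f).Nonempty := by
      refine ⟨f p, ?_⟩
      rw [mem_TT, hblkfib p q hTw p hpb, blk_card hG hTw]
      norm_num
    have hsize : Fintype.card V = Fintype.card (Quotient s) + 4 * (TT f).card := by
      rw [hcardV]
      have h1 : ∀ w ∈ (univ : Finset (Quotient s)), (fib f w).card =
          1 + (if 1 < (fib f w).card then 4 else 0) := by
        intro w _
        rcases hcards w with h | h <;> rw [h] <;> norm_num
      rw [Finset.sum_congr rfl h1, Finset.sum_add_distrib, Finset.sum_const, Finset.card_univ,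
        smul_eq_mul, mul_one]
      congr 1
      unfold TT
      rw [Finset.card_filter, Finset.mul_sum]
      apply Finset.sum_congr rfl
      intro w _
      split_ifs <;> norm_num
    have hTpos : 0 < (TT f).card := Finset.card_pos.2 hTT
    have hlt : Fintype.card (Quotient s) < Fintype.card V := by omega
    -- kernel
    have hkerN : ∀ g ∈ (indHom hf hc).ker, ∀ p q, Tw G p q → ∀ a, G.Adj p a → g.1 a = a := by
      intro g hg p q h a ha
      obtain ⟨a', haa', ha', _⟩ := blk_third hG hTri h ha
      have hab : a ∈ blk G p q := by rw [mem_blk]; exact Or.inr (Or.inr ha)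
      apply ker_fix hG hf hc hg haa'
      intro h1
      apply ha'
      rw [← hblkfib p q h a hab, mem_fib]
      exact h1.symm
    have hkerT : ∀ g ∈ (indHom hf hc).ker, ∀ p q, Tw G p q → g.1 p = p ∨ g.1 p = q := by
      intro g hg p q h
      by_cases h1 : g.1 p = p
      · exact Or.inl h1
      · right
        have h2 : Tw G p (g.1 p) := by
          refine ⟨Ne.symm h1, ?_⟩
          rw [nb_map g.2]
          ext z
          rw [mem_image]
          constructor
          · intro hz
            exact ⟨z, hz, hkerN g hg p q h z (by simpa using hz)⟩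
          · rintro ⟨y, hy, rfl⟩
            rw [hkerN g hg p q h y (by simpa using hy)]
            exact hy
        exact tw_unique hG hn h2 h
    have hker : Nat.card (indHom hf hc).ker ≤ 2 ^ (TT f).card := by
      apply ker_card_le hf hc
      intro g hg k hk w hiff x hx
      rcases hclass x with ⟨_, h⟩ | ⟨p, q, h1, h2, h3⟩
      · have e1 : g.1 x ∈ fib f (f x) := by rw [mem_fib]; exact ker_class hf hc hg x
        have e2 : k.1 x ∈ fib f (f x) := by rw [mem_fib]; exact ker_class hf hc hk x
        rw [h, mem_singleton] at e1 e2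
        rw [e1, e2]
      · -- `f p = w`
        have hpw : ∀ z ∈ blk G p q, f z = w := by
          intro z hz
          rw [← h3, mem_fib] at hz
          rw [hz, hx]
        have hpw' : ∀ z, f z = w → z ∈ blk G p q := by
          intro z hz
          rw [← h3, mem_fib, hz, hx]
        have hpB : p ∈ blk G p q := by rw [mem_blk]; exact Or.inl rfl
        have hqB : q ∈ blk G p q := by rw [mem_blk]; exact Or.inr (Or.inl rfl)
        -- moved iff `p` moved
        have hmoved : ∀ g ∈ (indHom hf hc).ker, (∃ x, f x = w ∧ g.1 x ≠ x) ↔ g.1 p ≠ p := by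
          intro g hg
          constructor
          · rintro ⟨z, hz, hgz⟩ hgp
            apply hgz
            have hzB := hpw' z hz
            rw [mem_blk] at hzB
            rcases hzB with rfl | rfl | hzB
            · exact hgp
            · exact tw_fix hG hn h1 g.2 hgp
            · exact hkerN g hg p q h1 z hzB
          · intro hgp
            exact ⟨p, hpw p hpB, hgp⟩
        rw [hmoved g hg, hmoved k hk] at hiff
        have hvals : ∀ g ∈ (indHom hf hc).ker, g.1 p ≠ p → g.1 p = q ∧ g.1 q = p := by
          intro g hg hgp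
          have e1 := (hkerT g hg p q h1).resolve_left hgp
          refine ⟨e1, ?_⟩
          rcases hkerT g hg q p h1.symm with e2 | e2
          · exact absurd (g.1.injective (e1.trans e2.symm)) h1.1
          · exact e2
        have hxB := h2
        rw [mem_blk] at hxB
        by_cases hgp : g.1 p = p
        · have hkp : k.1 p = p := by
            by_contra h5
            exact hiff.2 h5 hgp
          rcases hxB with rfl | rfl | hxB
          · rw [hgp, hkp]
          · rw [tw_fix hG hn h1 g.2 hgp, tw_fix hG hn h1 k.2 hkp]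
          · rw [hkerN g hg p q h1 x hxB, hkerN k hk p q h1 x hxB]
        · have hkp := hiff.1 hgp
          have v1 := hvals g hg hgp
          have v2 := hvals k hk hkp
          rcases hxB with rfl | rfl | hxB
          · rw [v1.1, v2.1]
          · rw [v1.2, v2.2]
          · rw [hkerN g hg p q h1 x hxB, hkerN k hk p q h1 x hxB]
    have hcub : Cub (quo G f) := hf.cub hG
    have hle := card_le_of_ker hf hc hker
    rcases ih (Quotient s) (quo G f) hlt hcub with h | ⟨h16, hVT, hb1, hb2⟩
    · left
      exact arith_i hle rfl hsize.ge h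
    · by_cases hT : TT f = univ
      · left
        have ht : (TT f).card = Fintype.card (Quotient s) := by rw [hT, Finset.card_univ]
        rw [ht] at hsize hle
        set n' := Fintype.card (Quotient s) with hn'
        have h5 : Fintype.card V = 5 * n' := by omega
        calc Nat.card (Gam G univ) ^ 4 ≤ (2 ^ n' * Nat.card (Gam (quo G f) univ)) ^ 4 :=
              Nat.pow_le_pow_left hle 4
          _ = (2 ^ n') ^ 4 * Nat.card (Gam (quo G f) univ) ^ 4 := by rw [mul_pow]
          _ < (2 ^ n') ^ 4 * ((5 * n') ^ 4 * 2 ^ n') := by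
              apply Nat.mul_lt_mul_of_pos_left hb2
              positivity
          _ = Fintype.card V ^ 4 * 2 ^ Fintype.card V := by
              rw [h5, show 5 * n' = n' * 4 + n' by ring, pow_add 2, pow_mul]
              ring
          _ ≤ _ := by
            apply Nat.mul_le_mul_right
            exact Nat.pow_le_pow_left (le_max_right _ _) 4
      · left
        have hhalf := card_le_half hf hc hker hVT hTT hT
        exact arith_ii hhalf rfl hsize.ge hb1
  · -- two classes
    left
    have hx : ∃ x, x ∉ blk G p q := by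
      by_contra hno
      push Not at hno
      have : (univ : Finset V).card ≤ (blk G p q).card := Finset.card_le_card (fun x _ => hno x)
      rw [blk_card hG hTw, Finset.card_univ] at this
      omega
    obtain ⟨x, hx⟩ := hx
    have hne : f p ≠ f x := by
      intro h
      apply hx
      rw [← hblkfib p q hTw p hpb, mem_fib, h]
    have hWall : ∀ w, w = f p ∨ w = f x := by
      intro w
      by_contra hno
      push Not at hno
      have h3 : ({f p, f x, w} : Finset (Quotient s)).card = 3 := by
        rw [Finset.card_eq_three]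
        exact ⟨_, _, _, hne, Ne.symm hno.1, Ne.symm hno.2, rfl⟩
      have h4 : ({f p, f x, w} : Finset (Quotient s)).card ≤ Fintype.card (Quotient s) :=
        Finset.card_le_univ _
      omega
    have huniv : (univ : Finset (Quotient s)) = {f p, f x} := by
      ext w
      simp only [mem_univ, mem_insert, mem_singleton, true_iff]
      exact hWall w
    have hsum : Fintype.card V = (fib f (f p)).card + (fib f (f x)).card := by
      rw [hcardV, huniv, Finset.sum_pair hne]
    rw [hblkfib p q hTw p hpb, blk_card hG hTw] at hsum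
    rcases hclass x with ⟨_, h⟩ | ⟨p', q', h1, h2, h3⟩
    · rw [h, Finset.card_singleton] at hsum
      omega
    · rw [h3, blk_card hG h1] at hsum
      have h48 : Nat.card (Gam G univ) ≤ 48 := by
        apply two_blocks hG hTri hn hTw h1
        · intro z
          rcases hWall (f z) with h | h
          · left; rw [← hblkfib p q hTw p hpb, mem_fib, h]
          · right; rw [← h3, mem_fib, h]
        · intro z hz hz'
          apply hne
          rw [← hblkfib p q hTw p hpb, mem_fib] at hz
          rw [← h3, mem_fib] at hz'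
          rw [← hz, ← hz']
      calc Nat.card (Gam G univ) ^ 4 ≤ 48 ^ 4 := Nat.pow_le_pow_left h48 4
        _ < (max 16 (Fintype.card V)) ^ 4 * 2 ^ Fintype.card V := by
          rw [hsum]; norm_num

end Pool.Agent.H23.Cubic
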