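import Mathlib
import Pool.Agent.H23.Cubic.Twins

set_option autoImplicit false

namespace Pool.Agent.H23.Cubic

open Equiv Finset

set_option linter.unusedSectionVars false
set_option linter.unusedVariables false

universe u

variable {V : Type u} [Fintype V] [DecidableEq V] {G : SimpleGraph V} [DecidableRel G.Adj]

lemma card_le_factorial : Nat.card (Gam G univ) ≤ (Fintype.card V).factorial := by
  rw [← Fintype.card_perm, ← Nat.card_eq_fintype_card]
  exact Subgroup.card_le_card_group _

/-- six vertices: `|A| ≤ 12 |orbit|` -/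
lemma six (hG : Cub G) (hn : Fintype.card V = 6) (v : V) :
    Nat.card (Gam G univ) ≤ (orb G univ v).card * 12 := by
  obtain ⟨w, hvw⟩ := exists_nb hG v
  obtain ⟨a, b, ha, hb, hwa, hwb, hab⟩ := exists_nb2 hG hvw
  have hN := nb_eq_of hG hwa hwb hab hvw ha hb
  have hA := card_A (G := G) v w
  have h3 : (orb G (stab G univ v) w).card ≤ 3 := by
    rw [← hG.deg v]
    exact Finset.card_le_card (orb_sub_nb hvw)
  have hS : (univ \ ({v, w, a, b} : Finset V)).card = 2 := by
    rw [Finset.card_sdiff_of_subset (Finset.subset_univ _), Finset.card_univ, hn]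
    have : ({v, w, a, b} : Finset V).card = 4 := by
      rw [Finset.card_insert_of_notMem, Finset.card_insert_of_notMem, Finset.card_pair hab]
      · simp [hwa, hwb]
      · simp [hvw.ne, ha.ne, hb.ne]
    rw [this]
  obtain ⟨c, d, hcd, hScd⟩ := Finset.card_eq_two.1 hS
  have hcS : c ∈ univ \ ({v, w, a, b} : Finset V) := by rw [hScd]; simp
  have hdS : d ∈ univ \ ({v, w, a, b} : Finset V) := by rw [hScd]; simp
  set E0 := D2 G v w with hE0
  set E1 := stab G E0 a with hE1
  set E2 := stab G E1 c with hE2
  have m0 : ∀ g, g ∈ Gam G E0 ↔ g ∈ Gam G univ ∧ g v = v ∧ g w = w := fun g => mem_Gam_D2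
  have m1 : ∀ g, g ∈ Gam G E1 ↔ (g ∈ Gam G univ ∧ g v = v ∧ g w = w) ∧ g a = a := by
    intro g; rw [← m0]; exact mem_Gam_stab
  have m2 : ∀ g, g ∈ Gam G E2 ↔ ((g ∈ Gam G univ ∧ g v = v ∧ g w = w) ∧ g a = a) ∧ g c = c := by
    intro g; rw [← m1]; exact mem_Gam_stab
  have hfixb : ∀ g ∈ Gam G E1, g b = b := by
    intro g hg
    rw [m1] at hg
    exact third_fixed hG hg.1.1 hg.1.2.1 hg.1.2.2 hg.2 hwa hvw ha hb
  have hmapS : ∀ g ∈ Gam G E1, ∀ z ∈ univ \ ({v, w, a, b} : Finset V),
      g z ∈ univ \ ({v, w, a, b} : Finset V) := by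
    intro g hg z hz
    have hgb := hfixb g hg
    rw [m1] at hg
    simp only [mem_sdiff, mem_univ, true_and, mem_insert, mem_singleton, not_or] at hz ⊢
    refine ⟨fun h => hz.1 (g.injective (h.trans hg.1.2.1.symm)),
      fun h => hz.2.1 (g.injective (h.trans hg.1.2.2.symm)),
      fun h => hz.2.2.1 (g.injective (h.trans hg.2.symm)),
      fun h => hz.2.2.2 (g.injective (h.trans hgb.symm))⟩
  have o1 : (orb G E0 a).card ≤ 2 := by
    have h2 : ({a, b} : Finset V).card ≤ 2 := Finset.card_le_two
    refine (orb_card_le (S := {a, b}) ?_).trans h2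
    intro g hg
    rw [m0] at hg
    have h1 : g a ∈ G.neighborFinset v := by
      have := (Gam_adj hg.1).2 ha
      rw [hg.2.1] at this
      simpa using this
    rw [hN] at h1
    simp only [mem_insert, mem_singleton] at h1 ⊢
    rcases h1 with h1 | h1
    · exact absurd (g.injective (h1.trans hg.2.2.symm)).symm hwa
    · exact h1
  have o2 : (orb G E1 c).card ≤ 2 := by
    rw [← hS]
    apply orb_card_le
    intro g hg
    exact hmapS g hg c hcS
  have t2 : Nat.card (Gam G E2) = 1 := by
    rw [Nat.card_eq_one_iff_unique]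
    refine ⟨⟨fun x y => ?_⟩, ⟨1⟩⟩
    have key : ∀ g ∈ Gam G E2, ∀ z, g z = z := by
      intro g hg z
      have hg1 : g ∈ Gam G E1 := Gam_mono (stab_sub E1 c) hg
      have hgb := hfixb g hg1
      rw [m2] at hg
      by_cases hz : z ∈ univ \ ({v, w, a, b} : Finset V)
      · have hgz := hmapS g hg1 z hz
        have hgd := hmapS g hg1 d hdS
        rw [hScd] at hz hgz hgd
        simp only [mem_insert, mem_singleton] at hz hgz hgd
        rcases hz with rfl | rfl
        · exact hg.2
        · rcases hgd with h | h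
          · exact absurd (g.injective (h.trans hg.2.symm)).symm hcd
          · exact h
      · simp only [mem_sdiff, mem_univ, true_and, mem_insert, mem_singleton, not_or] at hz
        by_cases h1 : z = v
        · rw [h1, hg.1.1.2.1]
        by_cases h2 : z = w
        · rw [h2, hg.1.1.2.2]
        by_cases h3 : z = a
        · rw [h3, hg.1.2]
        by_cases h4 : z = b
        · rw [h4, hgb]
        exact absurd ⟨h1, h2, h3, h4⟩ hz
    apply Subtype.ext
    ext z
    rw [key x.1 x.2, key y.1 y.2]
  have h4 : Nat.card (Gam G E0) ≤ 4 := by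
    rw [card_stab E0 a, card_stab E1 c, t2]
    calc (orb G E0 a).card * ((orb G E1 c).card * 1) ≤ 2 * (2 * 1) := by gcongr
      _ = 4 := by norm_num
  rw [hA]
  apply Nat.mul_le_mul_left
  calc (orb G (stab G univ v) w).card * Nat.card (Gam G E0) ≤ 3 * 4 := Nat.mul_le_mul h3 h4
    _ = 12 := by norm_num

lemma card_even (hG : Cub G) : Even (Fintype.card V) := by
  have h := G.sum_degrees_eq_twice_card_edges
  have h1 : ∑ v, G.degree v = 3 * Fintype.card V := by
    rw [Finset.sum_congr rfl (fun v _ => by
      rw [← SimpleGraph.card_neighborFinset_eq_degree, hG.deg v]), Finset.sum_const,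
      Finset.card_univ, smul_eq_mul, mul_comm]
  rw [h1] at h
  rw [Nat.even_iff]
  omega

/-- small cases -/
theorem claim_small (hG : Cub G) (hn : Fintype.card V ≤ 6) : Claim G := by
  have hf := card_le_factorial (G := G)
  have hev := card_even hG
  rcases Nat.lt_or_ge (Fintype.card V) 5 with h5 | h5
  · left
    rw [max_eq_left (by omega)]
    have h1 := Nat.pow_le_pow_left hf 4
    refine h1.trans_lt ?_
    generalize Fintype.card V = n at h5
    interval_cases n <;> norm_num [Nat.factorial]
  · have h6 : Fintype.card V = 6 := by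
      rw [Nat.even_iff] at hev
      omega
    by_cases hVT : VT G
    · right
      have : Nonempty V := Fintype.card_pos_iff.1 (by omega)
      have h1 := six hG h6 (Classical.arbitrary V)
      rw [orb_of_VT hVT, h6] at h1
      have h2 := Nat.pow_le_pow_left h1 4
      refine ⟨by omega, hVT, h2.trans_lt ?_, h2.trans_lt ?_⟩
      · rw [h6]; norm_num
      · rw [h6]; norm_num
    · left
      unfold VT at hVT
      push Not at hVT
      obtain ⟨v, w, hno⟩ := hVT
      have hdis : Disjoint (orb G univ v) (orb G univ w) := by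
        rw [Finset.disjoint_left]
        intro z hz hz'
        obtain ⟨g, hg, hgv⟩ := mem_orb.1 (orb_trans hz (orb_symm hz'))
        exact hno g hg hgv
      have h1 := Finset.card_union_of_disjoint hdis
      have h2 : (orb G univ v ∪ orb G univ w).card ≤ 6 := by
        rw [← h6]; exact Finset.card_le_univ _
      have h3 : ∃ z, (orb G univ z).card ≤ 3 := by
        by_contra hno
        push Not at hno
        have := hno v
        have := hno w
        omega
      obtain ⟨z, hz⟩ := h3
      have h4 := six hG h6 z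
      have h5 : Nat.card (Gam G univ) ≤ 36 := by omega
      refine (Nat.pow_le_pow_left h5 4).trans_lt ?_
      rw [h6]; norm_num

/-- the claim holds for all cubic 3-edge-connected graphs -/
theorem claim_all : ∀ n : ℕ, ∀ (V : Type u) [Fintype V] [DecidableEq V] (G : SimpleGraph V)
    [DecidableRel G.Adj], Fintype.card V = n → Cub G → Claim G := by
  intro n
  induction n using Nat.strong_induction_on with
  | _ n ih =>
    intro V _ _ G _ hn hG
    rcases Nat.lt_or_ge (Fintype.card V) 7 with h7 | h7
    · exact claim_small hG (by omega)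
    · have ih' : ∀ (W : Type u) [Fintype W] [DecidableEq W] (H : SimpleGraph W)
          [DecidableRel H.Adj], Fintype.card W < Fintype.card V → Cub H → Claim H := by
        intro W _ _ H _ hW hH
        exact ih (Fintype.card W) (by omega) W H rfl hH
      by_cases hTri : TriF G
      · by_cases hT : TwF G
        · have : Nonempty V := Fintype.card_pos_iff.1 (by omega)
          exact thmB hG hT hTri
        · exact claim_twins hG h7 hTri hT ih'
      · exact claim_tri hG h7 hTri ih'

/-- 3-connected cubic graphs satisfy `Cub` -/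
theorem cub_of_conn (hreg : G.IsRegularOfDegree 3)
    (hconn : ∀ S : Finset V, S.card ≤ 2 → (G.induce ((S : Set V)ᶜ)).Connected) : Cub G := by
  have hdeg : ∀ v, (G.neighborFinset v).card = 3 := by
    intro v
    rw [SimpleGraph.card_neighborFinset_eq_degree]
    exact hreg v
  refine ⟨hdeg, ?_⟩
  intro X hX hne
  by_contra hlt
  push Not at hlt
  rw [out_eq] at hlt
  set S : Finset V := (ar G X (univ \ X)).image Prod.fst with hS
  have hScard : S.card ≤ 2 := Finset.card_image_le.trans (by omega)
  have hSX : S ⊆ X := by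
    intro z hz
    rw [hS, mem_image] at hz
    obtain ⟨e, he, rfl⟩ := hz
    exact (mem_ar.1 he).1.1
  by_cases hXS : X ⊆ S
  · have hXc : X.card ≤ 2 := (Finset.card_le_card hXS).trans hScard
    have h1 : ∀ x ∈ X, 4 - X.card ≤ (G.neighborFinset x \ X).card := by
      intro x hx
      have h2 : G.neighborFinset x ∩ X ⊆ X.erase x := by
        intro z hz
        rw [mem_inter, SimpleGraph.mem_neighborFinset] at hz
        rw [mem_erase]
        exact ⟨hz.1.ne.symm, hz.2⟩
      have h3 := Finset.card_le_card h2
      rw [Finset.card_erase_of_mem hx] at h3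
      have h4 := Finset.card_sdiff_add_card_inter (G.neighborFinset x) X
      rw [hdeg] at h4
      have h5 : 0 < X.card := Finset.card_pos.2 ⟨x, hx⟩
      omega
    have h2 := Finset.sum_le_sum h1
    rw [Finset.sum_const, smul_eq_mul] at h2
    have h3 : out G X ≤ 2 := by rw [out_eq]; omega
    have h4 : 0 < X.card := Finset.card_pos.2 hX
    have h5 : X.card * (4 - X.card) ≤ 2 := h2.trans h3
    have h6 : X.card = 1 ∨ X.card = 2 := by omega
    rcases h6 with h6 | h6 <;> rw [h6] at h5 <;> omega
  · rw [Finset.not_subset] at hXS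
    obtain ⟨x, hxX, hxS⟩ := hXS
    have hy : ∃ y, y ∉ X := by
      by_contra hno
      push Not at hno
      exact hne (Finset.eq_univ_iff_forall.2 hno)
    obtain ⟨y, hyX⟩ := hy
    have hyS : y ∉ S := fun h => hyX (hSX h)
    have hc := hconn S hScard
    have hx' : x ∈ ((S : Set V)ᶜ) := by simpa using hxS
    have hy' : y ∈ ((S : Set V)ᶜ) := by simpa using hyS
    obtain ⟨p⟩ := hc.preconnected ⟨x, hx'⟩ ⟨y, hy'⟩
    have key : ∀ (a b : ((S : Set V)ᶜ : Set V)) (p : (G.induce ((S : Set V)ᶜ)).Walk a b),
        a.1 ∈ X → b.1 ∈ X := by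
      intro a b p
      induction p with
      | nil => exact id
      | @cons a c b hadj q ih =>
        intro ha
        apply ih
        by_contra hcX
        have hadj' : G.Adj a.1 c.1 := hadj
        have h1 : a.1 ∈ S := by
          apply mem_image.2
          refine ⟨(a.1, c.1), ?_, rfl⟩
          rw [mem_ar]
          exact ⟨⟨ha, mem_sdiff.2 ⟨mem_univ _, hcX⟩⟩, hadj'⟩
        exact a.2 (by simpa using h1)
    exact hyX (key _ _ p hxX)

/-- automorphisms as elements of `Gam G univ` -/
lemma card_aut : Nat.card (G ≃g G) = Nat.card (Gam G univ) := by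
  apply Nat.card_congr
  refine ⟨fun e => ⟨e.toEquiv, fun x y => e.map_rel_iff, fun x hx => absurd (mem_univ x) hx⟩,
    fun g => ⟨g.1, fun {a b} => g.2.1 a b⟩, ?_, ?_⟩
  · intro e; rfl
  · intro g; rfl

/-- final bound over ℕ -/
theorem final_nat (hn : 16 ≤ Fintype.card V) (hG : Cub G) :
    Nat.card (G ≃g G) ^ 4 < Fintype.card V ^ 4 * 2 ^ Fintype.card V := by
  rw [card_aut]
  rcases claim_all (Fintype.card V) V G rfl hG with h | h
  · rwa [max_eq_right hn] at h
  · omega

theorem final_real (hn : 16 ≤ Fintype.card V) (hG : Cub G) :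
    (Nat.card (G ≃g G) : ℝ) < (Fintype.card V : ℝ) * (2 : ℝ) ^ ((Fintype.card V : ℝ) / 4) := by
  have h := final_nat hn hG
  by_contra hle
  push Not at hle
  have h1 : ((Fintype.card V : ℝ) * (2 : ℝ) ^ ((Fintype.card V : ℝ) / 4)) ^ 4 ≤
      (Nat.card (G ≃g G) : ℝ) ^ 4 := by
    apply pow_le_pow_left₀ (by positivity) hle
  have h2 : ((2 : ℝ) ^ ((Fintype.card V : ℝ) / 4)) ^ 4 = 2 ^ Fintype.card V := by
    rw [← Real.rpow_natCast, ← Real.rpow_mul (by norm_num), ← Real.rpow_natCast]
    congr 1
    push_cast
    ring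
  rw [mul_pow, h2] at h1
  have h3 : (Nat.card (G ≃g G) : ℝ) ^ 4 < (Fintype.card V : ℝ) ^ 4 * 2 ^ Fintype.card V := by
    exact_mod_cast h
  linarith

end Pool.Agent.H23.Cubic
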